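import Pool.Agent.Helper38.LC2.Two
import Pool.Agent.Helper98.LC.G.Paths

/-!
# LC2-02: the inequality for a polygonal path, Dido's inequality for every angle

* `pbul_succ`: unfold `pbul`, `parea`, `cr`; `Finset.sum_range_succ`; ring.
* `chain_ineq`: induction on `k ≥ 1`.  `k = 1`: `pbul p 1 = 0`.  Step: `ch_two` with `a = ∑ j < k, φ j`, `b = φ k`, `z = p k - p 0`,
  `w = p (k+1) - p k`, and `pbul_succ`.
* `dido_theta`: first `θ * (ct θ * s² + 4 pbul) ≤ L²` (`s = ‖p k - p 0‖`, `L = plen p k`).  `k = 0`: all is `0`.  Let `δ > 0`,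
  `φ j = θ * (‖p (j+1) - p j‖ + δ) / (L + k δ) > 0`, sum `= θ`.  `chain_ineq` and `ct_le`:
  `ct θ s² + 4 pbul ≤ ∑ ‖z j‖² / φ j ≤ ∑ ‖z j‖ (L + k δ) / θ = L (L + k δ) / θ` (`‖z‖² / (‖z‖ + δ) ≤ ‖z‖`).  Let `δ → 0`
  (`le_of_forall_pos_le_add` or `ge_of_tendsto`).  For `- pbul` apply this to the conjugate path `j ↦ conj (p j)`.
-/

namespace Pool.Agent.Helper38.LC2

open Finset Real Pool.Agent.Helper98.LC

theorem pbul_succ (p : ℕ → ℂ) (k : ℕ) :
    pbul p (k + 1) = pbul p k + cr (p k - p 0) (p (k + 1) - p k) / 2 := by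
  unfold pbul parea
  rw [Finset.sum_range_succ]
  generalize ∑ j ∈ range k, cr (p j) (p (j + 1)) = S
  unfold cr
  simp only [Complex.sub_re, Complex.sub_im]
  ring

private theorem chain_pbul_one (p : ℕ → ℂ) : pbul p 1 = 0 := by
  rw [show (1 : ℕ) = 0 + 1 from rfl, pbul_succ]
  unfold pbul parea cr
  simp
  ring

theorem chain_ineq (p : ℕ → ℂ) (k : ℕ) (hk : 1 ≤ k) (φ : ℕ → ℝ) (hφ : ∀ j, j < k → 0 < φ j)
    (hs : ∑ j ∈ range k, φ j < π) :
    ct (∑ j ∈ range k, φ j) * ‖p k - p 0‖ ^ 2 + 4 * pbul p k ≤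
      ∑ j ∈ range k, ct (φ j) * ‖p (j + 1) - p j‖ ^ 2 := by
  induction k, hk using Nat.le_induction with
  | base =>
    rw [chain_pbul_one]
    simp
  | succ k hk ih =>
    have hφ' : ∀ j, j < k → 0 < φ j := fun j hj => hφ j (by omega)
    have hk0 : 0 < φ k := hφ k (by omega)
    have hpos : 0 < ∑ j ∈ range k, φ j := by
      apply Finset.sum_pos
      · intro j hj
        exact hφ' j (Finset.mem_range.mp hj)
      · exact ⟨0, Finset.mem_range.mpr (by omega)⟩
    rw [Finset.sum_range_succ] at hs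
    have h1 := ih hφ' (by linarith)
    have h2 := ch_two hpos hk0 hs (p k - p 0) (p (k + 1) - p k)
    rw [Finset.sum_range_succ, Finset.sum_range_succ, pbul_succ]
    have h3 : p k - p 0 + (p (k + 1) - p k) = p (k + 1) - p 0 := by ring
    rw [h3] at h2
    linarith

private theorem dido_one (p : ℕ → ℂ) (k : ℕ) {θ : ℝ} (h0 : 0 < θ) (h1 : θ < π) :
    θ * (ct θ * ‖p k - p 0‖ ^ 2 + 4 * pbul p k) ≤ plen p k ^ 2 := by
  rcases Nat.eq_zero_or_pos k with hk | hk
  · subst hk
    unfold pbul parea plen cr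
    simp
    have h5 : ((p 0).re * (p 0).im - (p 0).im * (p 0).re) / 2 = 0 := by ring
    rw [h5]
    simp
  have hL : 0 ≤ plen p k := by
    unfold plen
    exact Finset.sum_nonneg fun j _ => norm_nonneg _
  have hkr : (0 : ℝ) < (k : ℝ) := by exact_mod_cast hk
  have key : ∀ δ : ℝ, 0 < δ →
      θ * (ct θ * ‖p k - p 0‖ ^ 2 + 4 * pbul p k) ≤ plen p k * (plen p k + k * δ) := by
    intro δ hδ
    have hS : 0 < plen p k + k * δ := by positivity
    have hsum : ∑ j ∈ range k, θ * (‖p (j + 1) - p j‖ + δ) / (plen p k + k * δ) = θ := by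
      rw [← Finset.sum_div, ← Finset.mul_sum, Finset.sum_add_distrib]
      simp only [Finset.sum_const, Finset.card_range, nsmul_eq_mul]
      change θ * (plen p k + k * δ) / (plen p k + k * δ) = θ
      field_simp
    have hφ : ∀ j, 0 < θ * (‖p (j + 1) - p j‖ + δ) / (plen p k + k * δ) := by
      intro j
      have := norm_nonneg (p (j + 1) - p j)
      positivity
    have hc := chain_ineq p k hk (fun j => θ * (‖p (j + 1) - p j‖ + δ) / (plen p k + k * δ))
      (fun j _ => hφ j) (by rw [hsum]; exact h1)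
    rw [hsum] at hc
    have hle : ∀ j ∈ range k,
        ct (θ * (‖p (j + 1) - p j‖ + δ) / (plen p k + k * δ)) * ‖p (j + 1) - p j‖ ^ 2 ≤
          ‖p (j + 1) - p j‖ * (plen p k + k * δ) / θ := by
      intro j hj
      have hn := norm_nonneg (p (j + 1) - p j)
      have hlt : θ * (‖p (j + 1) - p j‖ + δ) / (plen p k + k * δ) < π := by
        have h5 : θ * (‖p (j + 1) - p j‖ + δ) / (plen p k + k * δ) ≤
            ∑ j ∈ range k, θ * (‖p (j + 1) - p j‖ + δ) / (plen p k + k * δ) :=
          Finset.single_le_sum (f := fun j => θ * (‖p (j + 1) - p j‖ + δ) / (plen p k + k * δ))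
            (fun i _ => (hφ i).le) hj
        rw [hsum] at h5
        linarith
      have h6 := ct_le (hφ j) hlt
      have h7 : 0 ≤ ‖p (j + 1) - p j‖ ^ 2 := by positivity
      have h8 := mul_le_mul_of_nonneg_right h6 h7
      refine h8.trans ?_
      generalize ‖p (j + 1) - p j‖ = x at hn
      generalize plen p k + k * δ = S at hS
      have hxd : 0 < x + δ := by linarith
      rw [one_div_div, div_mul_eq_mul_div, div_le_div_iff₀ (by positivity) h0]
      have h9 : S * x ^ 2 * θ ≤ x * S * (θ * (x + δ)) := by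
        have : x * S * (θ * (x + δ)) - S * x ^ 2 * θ = x * S * θ * δ := by ring
        have h10 : 0 ≤ x * S * θ * δ := by positivity
        linarith
      exact h9
    have hsum2 : ∑ j ∈ range k, ‖p (j + 1) - p j‖ * (plen p k + k * δ) / θ =
        plen p k * (plen p k + k * δ) / θ := by
      rw [← Finset.sum_div, ← Finset.sum_mul]
      rfl
    have h11 := hc.trans (Finset.sum_le_sum hle)
    rw [hsum2, le_div_iff₀ h0] at h11
    linarith
  refine le_of_forall_pos_le_add fun ε hε => ?_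
  have hd : 0 < plen p k * k + 1 := by positivity
  have h12 := key (ε / (plen p k * k + 1)) (by positivity)
  refine h12.trans ?_
  have h13 : plen p k * (k * (ε / (plen p k * k + 1))) ≤ ε := by
    rw [← mul_assoc, ← mul_div_assoc, div_le_iff₀ hd]
    nlinarith
  nlinarith

theorem dido_theta (p : ℕ → ℂ) (k : ℕ) {θ : ℝ} (h0 : 0 < θ) (h1 : θ < π) :
    θ * (ct θ * ‖p k - p 0‖ ^ 2 + 4 * |pbul p k|) ≤ plen p k ^ 2 := by
  rcases le_total 0 (pbul p k) with h | h
  · rw [abs_of_nonneg h]
    exact dido_one p k h0 h1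
  · rw [abs_of_nonpos h]
    have h3 := dido_one (fun j => (starRingEnd ℂ) (p j)) k h0 h1
    have h4 : pbul (fun j => (starRingEnd ℂ) (p j)) k = - pbul p k := by
      have hcr : ∀ a b : ℂ, cr ((starRingEnd ℂ) a) ((starRingEnd ℂ) b) = - cr a b := by
        intro a b
        unfold cr
        rw [Complex.conj_re, Complex.conj_im, Complex.conj_re, Complex.conj_im]
        ring
      unfold pbul parea
      simp only [hcr, Finset.sum_neg_distrib]
      ring
    have h5 : plen (fun j => (starRingEnd ℂ) (p j)) k = plen p k := by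
      unfold plen
      refine Finset.sum_congr rfl fun j _ => ?_
      rw [← map_sub, RCLike.norm_conj]
    have h6 : ‖(starRingEnd ℂ) (p k) - (starRingEnd ℂ) (p 0)‖ = ‖p k - p 0‖ := by
      rw [← map_sub, RCLike.norm_conj]
    rw [h4, h5, h6] at h3
    exact h3

end Pool.Agent.Helper38.LC2
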