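import Mathlib

/-!
# LC2-14: numerical bounds for `arctan`

* `arctan_upper5 … `: for `0 ≤ x`: `arctan x ≤ x - x³/3 + x⁵/5 - x⁷/7 + x⁹/9` and `arctan x ≥ x - x³/3 + x⁵/5 - x⁷/7 + x⁹/9 - x¹¹/11`: both sides vanish at `0`,
  and `1/(1+x²) ≤ 1 - x² + x⁴ - x⁶ + x⁸` since `(1 + x²)(1 - x² + x⁴ - x⁶ + x⁸) = 1 + x¹⁰`, `1/(1+x²) ≥ 1 - x² + … - x¹⁰` since the product is `1 - x¹²`
  (monotonicity of the difference: derivative `≥ 0` on `[0, ∞)`).
* `arctan_quarter`: `arctan x = π/4 + arctan ((x - 1)/(x + 1))` for `x > 0` (`Real.arctan_add` or `arctan_inv`), written as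
  `arctan x = π/4 - arctan ((1 - x)/(1 + x))`.
* `arctan_half`: `arctan x = arctan v + arctan ((x - v)/(1 + x v))` for `0 ≤ v ≤ x` (`Real.arctan_add`, the product `v (x-v)/(1+xv) < 1`).
-/

namespace Pool.Agent.Helper38.LC2

open Real

private lemma an_nonneg {g g' : ℝ → ℝ} (hg : ∀ x, HasDerivAt g (g' x) x) (h0 : g 0 = 0)
    (hn : ∀ x, 0 ≤ x → 0 ≤ g' x) {x : ℝ} (hx : 0 ≤ x) : 0 ≤ g x := by
  have h1 : MonotoneOn g (Set.Ici 0) := by
    apply monotoneOn_of_deriv_nonneg (convex_Ici 0)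
    · exact fun y _ => (hg y).continuousAt.continuousWithinAt
    · exact fun y _ => (hg y).differentiableAt.differentiableWithinAt
    · intro y hy
      rw [(hg y).deriv]
      rw [interior_Ici] at hy
      exact hn y (le_of_lt hy)
  have h2 := h1 (Set.mem_Ici.2 le_rfl) (Set.mem_Ici.2 hx) hx
  rwa [h0] at h2

theorem arctan_upper {x : ℝ} (hx : 0 ≤ x) :
    arctan x ≤ x - x ^ 3 / 3 + x ^ 5 / 5 - x ^ 7 / 7 + x ^ 9 / 9 := by
  have h := an_nonneg (g := fun x => x - x ^ 3 / 3 + x ^ 5 / 5 - x ^ 7 / 7 + x ^ 9 / 9 - arctan x)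
    (g' := fun x => 1 - x ^ 2 + x ^ 4 - x ^ 6 + x ^ 8 - 1 / (1 + x ^ 2)) ?_ (by simp) ?_ hx
  · linarith
  · intro y
    have h1 := ((((hasDerivAt_id y).sub ((hasDerivAt_pow 3 y).div_const 3)).add
      ((hasDerivAt_pow 5 y).div_const 5)).sub ((hasDerivAt_pow 7 y).div_const 7)).add
      ((hasDerivAt_pow 9 y).div_const 9)
    have h2 := h1.sub (Real.hasDerivAt_arctan y)
    refine h2.congr_deriv ?_
    norm_num
  · intro y _
    have h3 : 1 / (1 + y ^ 2) ≤ 1 - y ^ 2 + y ^ 4 - y ^ 6 + y ^ 8 := by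
      rw [div_le_iff₀ (by positivity)]
      have : 0 ≤ y ^ 10 := by positivity
      nlinarith
    linarith

theorem arctan_lower {x : ℝ} (hx : 0 ≤ x) :
    x - x ^ 3 / 3 + x ^ 5 / 5 - x ^ 7 / 7 + x ^ 9 / 9 - x ^ 11 / 11 ≤ arctan x := by
  have h := an_nonneg (g := fun x => arctan x -
      (x - x ^ 3 / 3 + x ^ 5 / 5 - x ^ 7 / 7 + x ^ 9 / 9 - x ^ 11 / 11))
    (g' := fun x => 1 / (1 + x ^ 2) - (1 - x ^ 2 + x ^ 4 - x ^ 6 + x ^ 8 - x ^ 10)) ?_
      (by simp) ?_ hx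
  · linarith
  · intro y
    have h1 := (((((hasDerivAt_id y).sub ((hasDerivAt_pow 3 y).div_const 3)).add
      ((hasDerivAt_pow 5 y).div_const 5)).sub ((hasDerivAt_pow 7 y).div_const 7)).add
      ((hasDerivAt_pow 9 y).div_const 9)).sub ((hasDerivAt_pow 11 y).div_const 11)
    have h2 := (Real.hasDerivAt_arctan y).sub h1
    refine h2.congr_deriv ?_
    norm_num
  · intro y _
    have h3 : 1 - y ^ 2 + y ^ 4 - y ^ 6 + y ^ 8 - y ^ 10 ≤ 1 / (1 + y ^ 2) := by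
      rw [le_div_iff₀ (by positivity)]
      have : 0 ≤ y ^ 12 := by positivity
      nlinarith
    linarith

theorem arctan_quarter {x : ℝ} (hx : 0 < x) : arctan x = π / 4 - arctan ((1 - x) / (1 + x)) := by
  have h1 : x * ((1 - x) / (1 + x)) < 1 := by
    rw [← mul_div_assoc, div_lt_one (by positivity)]
    nlinarith
  have h2 := Real.arctan_add h1
  have h3 : (x + (1 - x) / (1 + x)) / (1 - x * ((1 - x) / (1 + x))) = 1 := by
    rw [div_eq_one_iff_eq (by linarith)]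
    field_simp
    ring
  rw [h3, Real.arctan_one] at h2
  linarith

theorem arctan_shift {x v : ℝ} (hv : 0 ≤ v) (hx : v ≤ x) :
    arctan x = arctan v + arctan ((x - v) / (1 + x * v)) := by
  have hx0 : 0 ≤ x := hv.trans hx
  have hpos : 0 < 1 + x * v := by positivity
  have h1 : v * ((x - v) / (1 + x * v)) < 1 := by
    rw [← mul_div_assoc, div_lt_one hpos]
    nlinarith
  rw [Real.arctan_add h1]
  congr 1
  rw [eq_div_iff (by linarith)]
  field_simp
  ring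

end Pool.Agent.Helper38.LC2
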