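import Pool.Agent.Helper38.LC2.Iso

/-!
# LC2-19: numerical facts
-/

namespace Pool.Agent.Helper38.LC2

open Finset Real Pool.Agent.Helper98.LC

theorem sqrt3_num : (1.7320508 : ℝ) ≤ √3 ∧ √3 ≤ 1.7320509 := by
  constructor
  · apply Real.le_sqrt_of_sq_le
    norm_num
  · apply Real.sqrt_le_iff.mpr
    norm_num

theorem A0_num : (2.598076 : ℝ) ≤ A0 ∧ A0 ≤ 2.598077 := by
  have h := sqrt3_num
  unfold A0
  constructor <;> linarith [h.1, h.2]

theorem be_num : (1.1547004 : ℝ) ≤ be ∧ be ≤ 1.1547006 := by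
  have h := sqrt3_num
  have h3 : (0 : ℝ) < √3 := by positivity
  unfold be
  constructor
  · rw [le_div_iff₀ h3]; nlinarith [h.1, h.2]
  · rw [div_le_iff₀ h3]; nlinarith [h.1, h.2]

/-- the isoperimetric inequality with a rational constant -/
theorem perim {E : Type} [DecidableEq E] {F : Finset E} {a : ℝ} {l ch y : E → ℝ}
    (h : FaceFacts2 F a l ch y) (ha : 0 ≤ a) : 5.71387 * √a ≤ ∑ e ∈ F, l e := by
  have h1 := face_iso' h
  have h2 := A0_num.1
  have h3 := Real.pi_gt_d6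
  have h4 : (5.71387 * √a) ^ 2 ≤ (∑ e ∈ F, l e) ^ 2 := by
    rw [mul_pow, Real.sq_sqrt ha]
    refine le_trans ?_ h1
    have : (5.71387 : ℝ) ^ 2 ≤ 4 * π * A0 := by nlinarith
    nlinarith
  have h5 : 0 ≤ ∑ e ∈ F, l e :=
    Finset.sum_nonneg fun e he => (h.ch_nonneg e he).trans (h.ch_le e he)
  exact le_of_sq_le_sq h4 h5 |>.trans (le_refl _)

end Pool.Agent.Helper38.LC2
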