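import Pool.Agent.Helper38.LC2.Fix
import Pool.Agent.Helper38.LC2.Num

/-!
# LC2-21: large classes at the boundary

`a ≥ 2`, `X = A0 ∑ (F \ O) y`, `Lin = ∑ (F \ O) l`, `Lout = ∑ O l`, `2 (1 - c1) (1 - cT) = .95689…`, `F.card + O.card ≥ 3`.
The claim is `Lin + be X + 2 (1 - c1)(1 - cT) Lout ≥ 6 - eps (F.card + O.card - 6)`, and the right side is `≤ 6 + 3 eps = 6.384`.
* `X ≥ 0`: `Lin + Lout ≥ 5.71387 √2 ≥ 8.08` (`perim`, `√a ≥ √2 ≥ 1.41421`), `.95689 * 8.08 = 7.73`.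
* `X = -u`, `0 < u ≤ 7`: `face_refl` with `R = F \ O`: `4 π (A0 a + 2u) ≤ (Lin + Lout)²`, so `(Lin + Lout)² ≥ 12.566 (5.196 + 2u)`, and
  `(.95689)² 12.566 (5.196 + 2u) ≥ (6.384 + 1.1547006 u)²` for `0 ≤ u ≤ 7` (concave in `u`: `59.7 ≥ 40.8` at `0`, `220.8 ≥ 209.2` at `7`).
* `u ≥ 7`: `nonneg_in`: `Lin ≥ (2π/3) u`, `Lin - be u ≥ .9396 u ≥ 6.577`.
-/

namespace Pool.Agent.Helper38.LC2

open Finset Real Pool.Agent.Helper98.LC

variable {E : Type} [DecidableEq E] {F : Finset E} {a : ℝ} {l ch y : E → ℝ}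

theorem big (h : FaceFacts2 F a l ch y) (O : Finset E) (hO : O ⊆ F) (hO1 : 1 ≤ O.card)
    (h2 : 2 ≤ F.card) (ha : 2 ≤ a) (hin : ∀ e ∈ F \ O, l e ≤ 3) :
    6 - eps * ((F.card : ℝ) + O.card - 6) ≤
      ∑ e ∈ F \ O, l e + be * (A0 * ∑ e ∈ F \ O, y e) + 2 * (1 - c1) * (1 - cT) * ∑ e ∈ O, l e := by
  have hsub : F \ O ⊆ F := Finset.sdiff_subset
  have hl0 : ∀ e ∈ F, 0 ≤ l e := fun e he => (h.ch_nonneg e he).trans (h.ch_le e he)
  have hLin : 0 ≤ ∑ e ∈ F \ O, l e := Finset.sum_nonneg fun e he => hl0 e (hsub he)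
  have hLout : 0 ≤ ∑ e ∈ O, l e := Finset.sum_nonneg fun e he => hl0 e (hO he)
  have hsum : ∑ e ∈ F, l e = ∑ e ∈ F \ O, l e + ∑ e ∈ O, l e := (Finset.sum_sdiff hO).symm
  have hcard : (3 : ℝ) ≤ (F.card : ℝ) + O.card := by
    have h3 : 3 ≤ F.card + O.card := by omega
    exact_mod_cast h3
  have hle : 6 - eps * ((F.card : ℝ) + O.card - 6) ≤ 6.384 := by
    unfold eps
    linarith
  refine hle.trans ?_
  have hnn := (nonneg_in h (F \ O) hsub hin).1
  have hrefl := face_refl h (F \ O) hsub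
  have hper := perim h (by linarith : (0 : ℝ) ≤ a)
  rw [hsum] at hrefl hper
  have hK : 2 * (1 - c1) * (1 - cT) = (956890431 / 1000000000 : ℝ) := by
    unfold c1 cT
    norm_num
  rw [hK]
  have hA := A0_num
  have hbe := be_num
  have hpi := Real.pi_gt_d6
  set Lin := ∑ e ∈ F \ O, l e with hLindef
  set Lout := ∑ e ∈ O, l e with hLoutdef
  set Y := ∑ e ∈ F \ O, y e with hY
  set X := A0 * Y with hX
  rcases le_or_gt 0 X with hX0 | hX0
  · have h2 : (1.41421 : ℝ) ≤ √a := by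
      apply Real.le_sqrt_of_sq_le
      norm_num
      linarith
    have h4 : 0 ≤ be * X := mul_nonneg be_pos.le hX0
    linarith
  · have hrefl' : 4 * π * (A0 * a - 2 * X) ≤ (Lin + Lout) ^ 2 := by
      have e : A0 * (a - 2 * Y) = A0 * a - 2 * X := by
        rw [hX]
        ring
      rw [← e]
      exact hrefl
    rw [abs_of_neg hX0] at hnn
    obtain ⟨u, hu⟩ : ∃ u : ℝ, u = -X := ⟨_, rfl⟩
    have hXu : X = -u := by rw [hu, neg_neg]
    rw [hXu] at hrefl' hnn hX0 ⊢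
    rw [neg_neg] at hnn
    have hu0 : 0 < u := by linarith
    have hbu : be * -u = -(be * u) := by ring
    rw [hbu]
    have hbu' : be * u ≤ 1.1547006 * u := mul_le_mul_of_nonneg_right hbe.2 hu0.le
    rcases le_or_gt u 7 with hu7 | hu7
    · have hA0a : (5.196152 : ℝ) ≤ A0 * a := by nlinarith [hA.1, A0_pos]
      have h5 : (12.56636 : ℝ) * (5.196152 + 2 * u) ≤ (Lin + Lout) ^ 2 := by
        refine le_trans ?_ hrefl'
        have h6 : (5.196152 : ℝ) + 2 * u ≤ A0 * a - 2 * -u := by linarith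
        have h7 : (12.56636 : ℝ) ≤ 4 * π := by linarith
        exact mul_le_mul h7 h6 (by linarith) (by positivity)
      have h8 : (6.384 + 1.1547006 * u) ^ 2 ≤ (956890431 / 1000000000 * (Lin + Lout)) ^ 2 := by
        rw [mul_pow]
        have h9 : (956890431 / 1000000000 : ℝ) ^ 2 * (12.56636 * (5.196152 + 2 * u)) ≤
            (956890431 / 1000000000 : ℝ) ^ 2 * (Lin + Lout) ^ 2 :=
          mul_le_mul_of_nonneg_left h5 (by positivity)
        refine le_trans ?_ h9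
        have h10 : 0 ≤ u * (7 - u) := mul_nonneg hu0.le (by linarith)
        norm_num
        nlinarith
      have h11 : 6.384 + 1.1547006 * u ≤ 956890431 / 1000000000 * (Lin + Lout) :=
        le_of_sq_le_sq h8 (by positivity)
      linarith
    · have h12 : 2 * π / 3 * u ≤ Lin := hnn
      have h13 : (2.0943 : ℝ) * u ≤ 2 * π / 3 * u :=
        mul_le_mul_of_nonneg_right (by linarith) hu0.le
      have h14 : 0 ≤ 956890431 / 1000000000 * Lout := by positivity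
      linarith

end Pool.Agent.Helper38.LC2
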