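import Pool.Agent.Helper38.LC2.Fix
import Pool.Agent.Helper38.LC2.Outer

/-!
# LC2-12: the reduction to one variable

`I = F \ O`, `k = I.card`, `B = O.card`, `z e = l e - cT * ch e ≥ 0` for `e ∈ O` (`ch ≤ l`, `cT < 1`), `Y = ∑ O z`, `H = be Y² / (4 W)`, `V = 3 m - W > 0`.
Let `ρ > 0` be so small that (i) `H + ρ < π` (`H ≤ 1`) and (ii) the number in `star` plus `B ρ / DD θ₀` is still `< π`.
For `e ∈ O` put `h e = z e * Y * be / (4 W) + ρ > 0` (`W = 0` implies `Y = 0`, all `z e = 0`, and the formula gives `ρ`).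
`h e ≤ H + ρ < π` (`z e ≤ Y`), so there is `θ e ∈ (0, π)` with `gg (θ e) = h e` (`gg_surj`).  Put `ψ e = psi (θ e) > 0`.
By `psi_tangent`: `∑ O, ψ e ≤ B psi θ₀ + (∑ h e - B gg θ₀) / DD θ₀ = B (psi θ₀ - gg θ₀ / DD θ₀) + (H + B ρ) / DD θ₀` (`∑ O, z e Y be/(4W) = H`).
`φ = arctan (be V / k) > 0`, `tan φ = be V / k`, `V ≤ 3 - W` since `m ≤ 1`.  So `k φ + ∑ ψ < π` by (ii).
By `outer_edge`: `∑ O, (A0 y + ct ψ ch²/4) ≤ ∑ O, z e² / (4 h e) ≤ Q := W / be`: if `Y = 0` all terms are `0`; otherwise `h e ≥ z e Y be / (4W)`, so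
`z e² / (4 h e) ≤ z e W / (be Y)` (also if `z e = 0`), sum `= W / be`.
`fix_mult`, then `fix_V` with `t = k tan φ = be V`, `R = A0 a - X - W / be`: `t R = be A0 a V - be V X - V W ≥ 3 m V - V W - be V X = V² - be V X` (`be A0 = 3`,
`m ≤ a`, `V > 0`).
-/

namespace Pool.Agent.Helper38.LC2

open Finset Real Pool.Agent.Helper98.LC

theorem core {E : Type} [DecidableEq E] {F : Finset E} {a : ℝ} {l ch y : E → ℝ}
    (h : FaceFacts2 F a l ch y) (O : Finset E) (hO : O ⊆ F) (hk : 1 ≤ (F \ O).card)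
    (hin : ∀ e ∈ F \ O, l e ≤ 3) {m W : ℝ} (hm1 : m ≤ 1) (hma : m ≤ a) (hV : 0 < 3 * m - W)
    (hW : 0 ≤ W) (hW0 : W = 0 → ∑ e ∈ O, (l e - cT * ch e) = 0)
    (hH : be * (∑ e ∈ O, (l e - cT * ch e)) ^ 2 / (4 * W) ≤ 1)
    (star : ∃ θ₀, 0 < θ₀ ∧ θ₀ < π ∧
      (O.card : ℝ) * (psi θ₀ - gg θ₀ / DD θ₀) +
        be * (∑ e ∈ O, (l e - cT * ch e)) ^ 2 / (4 * W) / DD θ₀ +
        ((F \ O).card : ℝ) * arctan (be * (3 - W) / (F \ O).card) < π) :
    3 * m - W ≤ (∑ e ∈ F \ O, l e + be * (A0 * ∑ e ∈ F \ O, y e)) / 2 := by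
  obtain ⟨θ₀, hθ0, hθ1, hstar⟩ := star
  set z : E → ℝ := fun e => l e - cT * ch e with hzdef
  have hcT : cT < 1 := by unfold cT; norm_num
  have hz : ∀ e ∈ O, 0 ≤ z e := by
    intro e he
    have h1 := h.ch_nonneg e (hO he)
    have h2 := h.ch_le e (hO he)
    change 0 ≤ l e - cT * ch e
    nlinarith
  set Y : ℝ := ∑ e ∈ O, z e with hYdef
  have hY0 : 0 ≤ Y := Finset.sum_nonneg hz
  have hzY : ∀ e ∈ O, z e ≤ Y := fun e he => Finset.single_le_sum (f := z) hz he
  have hDD : 0 < DD θ₀ := (DD_pos θ₀).2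
  set H : ℝ := be * Y ^ 2 / (4 * W) with hHdef
  set B : ℝ := (O.card : ℝ) with hBdef
  have hB0 : 0 ≤ B := Nat.cast_nonneg _
  set k : ℝ := ((F \ O).card : ℝ) with hkdef
  have hk0 : 0 < k := by
    rw [hkdef]
    exact_mod_cast hk
  set slack : ℝ := π - (B * (psi θ₀ - gg θ₀ / DD θ₀) + H / DD θ₀ +
    k * arctan (be * (3 - W) / k)) with hsl
  have hslack : 0 < slack := by
    rw [hsl]
    linarith
  have hbe := be_pos
  have hπ := pi_gt_three
  obtain ⟨ρ, hρ0, hρ1, hρ2⟩ : ∃ ρ : ℝ, 0 < ρ ∧ ρ ≤ 1 ∧ B * ρ / DD θ₀ < slack := by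
    refine ⟨min 1 (slack * DD θ₀ / (B + 1)), lt_min one_pos (by positivity), min_le_left _ _, ?_⟩
    have h1 : min 1 (slack * DD θ₀ / (B + 1)) ≤ slack * DD θ₀ / (B + 1) := min_le_right _ _
    have h2 : B * min 1 (slack * DD θ₀ / (B + 1)) ≤ B * (slack * DD θ₀ / (B + 1)) :=
      mul_le_mul_of_nonneg_left h1 hB0
    rw [div_lt_iff₀ hDD]
    refine h2.trans_lt ?_
    rw [← mul_div_assoc, div_lt_iff₀ (by positivity)]
    have h3 : 0 < slack * DD θ₀ := by positivity
    nlinarith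
  set g : E → ℝ := fun e => z e * Y * be / (4 * W) + ρ with hgdef
  have hg0 : ∀ e ∈ O, 0 ≤ z e * Y * be / (4 * W) := fun e he => by
    have := hz e he
    positivity
  have hgpos : ∀ e ∈ O, 0 < g e := fun e he => by
    have := hg0 e he
    change 0 < z e * Y * be / (4 * W) + ρ
    linarith
  have hgπ : ∀ e ∈ O, g e < π := fun e he => by
    have h1 : z e * Y * be / (4 * W) ≤ be * Y ^ 2 / (4 * W) := by
      apply div_le_div_of_nonneg_right _ (by positivity)
      have h2 := mul_le_mul_of_nonneg_right (hzY e he) hY0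
      nlinarith
    change z e * Y * be / (4 * W) + ρ < π
    linarith
  have hex : ∀ e, ∃ θ : ℝ, e ∈ O → 0 < θ ∧ θ < π ∧ gg θ = g e := by
    intro e
    by_cases he : e ∈ O
    · obtain ⟨θ, h1, h2, h3⟩ := gg_surj (hgpos e he) (hgπ e he)
      exact ⟨θ, fun _ => ⟨h1, h2, h3⟩⟩
    · exact ⟨0, fun h' => absurd h' he⟩
  choose θ hθ using hex
  have hψ : ∀ e ∈ O, 0 < psi (θ e) := fun e he => (psi_pos (hθ e he).1 (hθ e he).2.1).1
  have hsumg : ∑ e ∈ O, g e = H + B * ρ := by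
    change ∑ e ∈ O, (z e * Y * be / (4 * W) + ρ) = H + B * ρ
    rw [Finset.sum_add_distrib, ← Finset.sum_div, ← Finset.sum_mul, ← Finset.sum_mul,
      Finset.sum_const, nsmul_eq_mul, ← hYdef, hHdef]
    ring
  have hsumψ : ∑ e ∈ O, psi (θ e) ≤ B * (psi θ₀ - gg θ₀ / DD θ₀) + H / DD θ₀ +
      B * ρ / DD θ₀ := by
    have h1 : ∑ e ∈ O, psi (θ e) ≤ ∑ e ∈ O, (psi θ₀ + (g e - gg θ₀) / DD θ₀) := by
      refine Finset.sum_le_sum fun e he => ?_
      have h2 := psi_tangent (hθ e he).1 (hθ e he).2.1 hθ0 hθ1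
      rw [(hθ e he).2.2] at h2
      exact h2
    refine h1.trans (le_of_eq ?_)
    rw [Finset.sum_add_distrib, ← Finset.sum_div, Finset.sum_sub_distrib, hsumg,
      Finset.sum_const, Finset.sum_const, nsmul_eq_mul, nsmul_eq_mul]
    change B * psi θ₀ + (H + B * ρ - B * gg θ₀) / DD θ₀ = _
    ring
  set V : ℝ := 3 * m - W with hVdef
  have hVk : 0 < be * V / k := by positivity
  have hφ0 : 0 < arctan (be * V / k) := by
    rw [Real.arctan_pos]
    exact hVk
  have hφ1 : arctan (be * V / k) < π / 2 := Real.arctan_lt_pi_div_two _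
  have hφ2 : arctan (be * V / k) ≤ arctan (be * (3 - W) / k) := by
    apply Real.arctan_strictMono.monotone
    apply div_le_div_of_nonneg_right _ hk0.le
    apply mul_le_mul_of_nonneg_left _ hbe.le
    rw [hVdef]
    linarith
  have hs : k * arctan (be * V / k) + ∑ e ∈ O, psi (θ e) < π := by
    have h1 := mul_le_mul_of_nonneg_left hφ2 hk0.le
    rw [hsl] at hρ2
    linarith
  have hQ1 : ∀ e ∈ O, A0 * y e + ct (psi (θ e)) * ch e ^ 2 / 4 ≤ z e ^ 2 / (4 * g e) := by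
    intro e he
    have h1 := outer_edge h (hO he) (hθ e he).1 (hθ e he).2.1
    rw [(hθ e he).2.2] at h1
    exact h1
  have hQ2 : ∑ e ∈ O, z e ^ 2 / (4 * g e) ≤ W / be := by
    rcases hY0.eq_or_lt with hY | hY
    · have h1 : ∀ e ∈ O, z e = 0 := fun e he =>
        le_antisymm ((hzY e he).trans hY.symm.le) (hz e he)
      have h2 : ∑ e ∈ O, z e ^ 2 / (4 * g e) = 0 := by
        refine Finset.sum_eq_zero fun e he => ?_
        rw [h1 e he]
        simp
      rw [h2]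
      positivity
    · have hWpos : 0 < W := by
        rcases hW.eq_or_lt with h1 | h1
        · have h2 : Y = 0 := hW0 h1.symm
          linarith
        · exact h1
      have h1 : ∀ e ∈ O, z e ^ 2 / (4 * g e) ≤ z e * (W / (be * Y)) := by
        intro e he
        have h2 := hgpos e he
        have h3 := hz e he
        have h4 : z e * Y * be ≤ 4 * W * g e := by
          have h5 : z e * Y * be / (4 * W) ≤ g e := by
            change z e * Y * be / (4 * W) ≤ z e * Y * be / (4 * W) + ρ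
            linarith
          rw [div_le_iff₀ (by positivity)] at h5
          linarith
        rw [← mul_div_assoc, div_le_div_iff₀ (by positivity) (by positivity)]
        have h6 := mul_le_mul_of_nonneg_left h4 h3
        nlinarith
      refine (Finset.sum_le_sum h1).trans (le_of_eq ?_)
      rw [← Finset.sum_mul, ← hYdef]
      field_simp
  have hQ : ∑ e ∈ O, (A0 * y e + ct (psi (θ e)) * ch e ^ 2 / 4) ≤ W / be :=
    (Finset.sum_le_sum hQ1).trans hQ2
  have hmain := fix_mult h O hO hk hin hφ0 hφ1 (fun e => psi (θ e)) hψ hs hQ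
  rw [Real.tan_arctan, mul_div_cancel₀ _ hk0.ne'] at hmain
  have hL : 0 ≤ ∑ e ∈ F \ O, l e :=
    Finset.sum_nonneg fun e he => (h.ch_nonneg e (Finset.sdiff_subset he)).trans
      (h.ch_le e (Finset.sdiff_subset he))
  refine fix_V hL hmain ?_
  have h1 : be * V * (A0 * a - A0 * ∑ e ∈ F \ O, y e - W / be) =
      (be * A0) * a * V - be * V * (A0 * ∑ e ∈ F \ O, y e) - V * W := by
    field_simp
  rw [h1, be_A0]
  have h2 : V * V ≤ V * (3 * a - W) := by
    apply mul_le_mul_of_nonneg_left _ hV.le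
    rw [hVdef]
    linarith
  nlinarith

end Pool.Agent.Helper38.LC2
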