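import Pool.Agent.Helper98.LC.DefsC

/-!
# Project LC, local inequalities: definitions

`ct` is the cotangent.  `FaceFacts2` is what is used about a class: Dido's inequality for every angle and the
inequality `4 area ≤ ∑ cot φ_e (chord_e)²` for the chord polygon and arbitrary positive angles with sum `< π`.

Constants: `eps` the price of an edge, `cT` the number `c` in the functions `psi`, `gg`, `DD` below,
`c1` a tiny number, `kap = 2 c (1 - c1)`, `kap1 = 2 c1`.  `be = 2/√3`, so `be * A0 = 3`, `be ^ 2 = 4/3`.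
-/

namespace Pool.Agent.Helper38.LC2

open Finset Real Pool.Agent.Helper98.LC

/-- the cotangent -/
noncomputable def ct (x : ℝ) : ℝ := Real.cos x / Real.sin x

/-- The data of a face with edges `F`: `a` is the area, `l e`, `ch e` the lengths of the edge and
its chord, `y e` the bulge (the unit of area is the hexagon with area `A0`). -/
structure FaceFacts2 {E : Type} [DecidableEq E] (F : Finset E) (a : ℝ) (l ch y : E → ℝ) : Prop where
  ch_nonneg : ∀ e ∈ F, 0 ≤ ch e
  ch_le : ∀ e ∈ F, ch e ≤ l e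
  dido : ∀ e ∈ F, ∀ θ : ℝ, 0 < θ → θ < π → θ * (ct θ * ch e ^ 2 + 4 * (A0 * |y e|)) ≤ l e ^ 2
  poly : ∀ φ : E → ℝ, (∀ e ∈ F, 0 < φ e) → ∑ e ∈ F, φ e < π →
    4 * (A0 * (a - ∑ e ∈ F, y e)) ≤ ∑ e ∈ F, ct (φ e) * ch e ^ 2

/-- `2 / √3` -/
noncomputable def be : ℝ := 2 / √3

/-- the price of an edge -/
noncomputable def eps : ℝ := 16 / 125

/-- the constant `c` -/
noncomputable def cT : ℝ := 10431 / 20000

/-- a tiny constant -/
noncomputable def c1 : ℝ := 1 / 100000

/-- the constant of the outer chords -/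
noncomputable def kap : ℝ := 2 * cT * (1 - c1)

/-- the constant of the outer lengths -/
noncomputable def kap1 : ℝ := 2 * c1

/-- the angle of `exp (i θ) - c`, for `0 < θ < π` -/
noncomputable def psi (θ : ℝ) : ℝ := π / 2 - arctan ((Real.cos θ - cT) / Real.sin θ)

/-- `θ - c sin θ` -/
noncomputable def gg (θ : ℝ) : ℝ := θ - cT * Real.sin θ

/-- `|exp (i θ) - c|²` -/
noncomputable def DD (θ : ℝ) : ℝ := 1 - 2 * cT * Real.cos θ + cT ^ 2

lemma A0_pos : 0 < A0 := by
  unfold A0
  positivity

lemma be_pos : 0 < be := by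
  unfold be
  positivity

lemma be_sq : be ^ 2 = 4 / 3 := by
  unfold be
  rw [div_pow, Real.sq_sqrt (by norm_num)]
  norm_num

lemma be_A0 : be * A0 = 3 := by
  unfold be A0
  have h : √3 ≠ 0 := by positivity
  field_simp

end Pool.Agent.Helper38.LC2
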