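import Pool.Agent.Helper38.LC2.Trig

/-!
# LC2-07: facts for single edges

Put `x = A0 * |y e| ≥ 0`, `s = ch e`, `L = l e`, `0 ≤ s ≤ L`.
* `edge_quart`: if `L = 0` then `s = 0` and `dido` with `θ = 1` gives `x = 0`.  If `s < L`: `u = s²/L² < 1`, `θ = √(3 (1 - u))`, `0 < θ`, `θ² ≤ 3`, `θ < π`.
  `dido`: `4 x ≤ L²/θ - ct θ s² = (L²/θ) (1 - θ ct θ u)`, `u = 1 - θ²/3`, so by `trig1` `4 x ≤ (L²/θ) (2/3) θ²`, `x ≤ L² θ / 6`,
  `12 x² ≤ L⁴ θ² / 3 = L⁴ (1 - u) = L² (L² - s²)`.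
  If `s = L`: for every `0 < θ ≤ 1`: `4 x ≤ (L²/θ) (1 - θ ct θ)`, and `trig1` gives `θ ct θ ≥ (1 - 2θ²/3)/(1 - θ²/3) ≥ 1 - θ²/2`, so
  `x ≤ L² θ / 8` for all small `θ`, `x ≤ 0`.
* `edge_sq`: `L ≤ 3`: `12 x² ≤ L² (L² - s²) ≤ 9 (L² - s²)`.
* `edge_half`: `dido` with `θ = π/2`, `ct (π/2) = 0`.
* `edge_lin`: `L ≥ 0`, `2 π x ≤ L² ≤ 3 L`.
* `mink`: `∑ l ≥ ∑ √(ch² + (4/3) x²)`, and the triangle inequality for the vectors `(ch e, √(4/3) A0 y e)` in the plane (e.g. in `ℂ`: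
  `‖∑ (ch e + i √(4/3) A0 y e)‖ ≤ ∑ ‖..‖`), squared.
-/

namespace Pool.Agent.Helper38.LC2

open Finset Real Pool.Agent.Helper98.LC

variable {E : Type} [DecidableEq E] {F : Finset E} {a : ℝ} {l ch y : E → ℝ}

omit [DecidableEq E] in
private lemma edge_abs (y : E → ℝ) (e : E) : (A0 * y e) ^ 2 = (A0 * |y e|) ^ 2 := by
  rw [mul_pow, mul_pow, sq_abs]

theorem edge_quart (h : FaceFacts2 F a l ch y) {e : E} (he : e ∈ F) :
    12 * (A0 * y e) ^ 2 ≤ l e ^ 2 * (l e ^ 2 - ch e ^ 2) := by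
  rw [edge_abs]
  have hx : 0 ≤ A0 * |y e| := mul_nonneg A0_pos.le (abs_nonneg _)
  have hs := h.ch_nonneg e he
  have hsL := h.ch_le e he
  have hd := h.dido e he
  generalize A0 * |y e| = x at hx hd ⊢
  generalize l e = L at hsL hd ⊢
  generalize ch e = s at hs hsL hd ⊢
  have hpi := Real.pi_gt_three
  have hL : 0 ≤ L := hs.trans hsL
  rcases hL.eq_or_lt with h0 | hL0
  · subst h0
    have hs0 : s = 0 := le_antisymm hsL hs
    subst hs0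
    have h1 := hd 1 one_pos (by linarith)
    have h2 : x = 0 := by
      have h3 : ct 1 * (0 : ℝ) ^ 2 = 0 := by ring
      rw [h3] at h1
      norm_num at h1
      linarith
    subst h2
    norm_num
  · rcases hsL.eq_or_lt with hse | hslt
    · subst hse
      have hL2 : 0 < s ^ 2 := by positivity
      have key : ∀ θ : ℝ, 0 < θ → θ ≤ 1 → 8 * x ≤ s ^ 2 * θ := by
        intro θ h0 h1
        have h2 := hd θ h0 (by linarith)
        have h3 := trig1 h0 (by nlinarith)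
        have h4 : 0 < 1 - θ ^ 2 / 3 := by nlinarith
        have h5 : 1 - θ ^ 2 / 2 ≤ θ * ct θ := by
          by_contra hcon
          push Not at hcon
          have h6 : θ * ct θ * (1 - θ ^ 2 / 3) < (1 - θ ^ 2 / 2) * (1 - θ ^ 2 / 3) :=
            mul_lt_mul_of_pos_right hcon h4
          have h7 : θ ^ 4 ≤ θ ^ 2 := by
            have h8 : θ ^ 2 ≤ 1 := by nlinarith
            nlinarith [sq_nonneg θ]
          nlinarith
        have h6 : 4 * x * θ ≤ s ^ 2 * (1 - θ * ct θ) := by nlinarith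
        have h7 : s ^ 2 * (1 - θ * ct θ) ≤ s ^ 2 * (θ ^ 2 / 2) :=
          mul_le_mul_of_nonneg_left (by linarith) hL2.le
        have h8 : θ * (8 * x) ≤ θ * (s ^ 2 * θ) := by nlinarith
        exact le_of_mul_le_mul_left h8 h0
      have hx0 : x = 0 := by
        by_contra hne
        have hxp : 0 < x := lt_of_le_of_ne hx (Ne.symm hne)
        have h1 := key (min 1 (4 * x / s ^ 2)) (lt_min one_pos (by positivity)) (min_le_left _ _)
        have h2 : s ^ 2 * min 1 (4 * x / s ^ 2) ≤ s ^ 2 * (4 * x / s ^ 2) :=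
          mul_le_mul_of_nonneg_left (min_le_right _ _) hL2.le
        rw [mul_div_cancel₀ _ hL2.ne'] at h2
        linarith
      subst hx0
      norm_num
    · have hL2 : 0 < L ^ 2 := by positivity
      have hsq : s ^ 2 < L ^ 2 := by nlinarith
      obtain ⟨u, hu⟩ : ∃ u : ℝ, u = s ^ 2 / L ^ 2 := ⟨_, rfl⟩
      have hu0 : 0 ≤ u := by rw [hu]; positivity
      have hu1 : u < 1 := by rw [hu, div_lt_one hL2]; exact hsq
      have huL : u * L ^ 2 = s ^ 2 := by rw [hu, div_mul_cancel₀ _ hL2.ne']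
      obtain ⟨θ, hθ⟩ : ∃ θ : ℝ, θ = √(3 * (1 - u)) := ⟨_, rfl⟩
      have hθ0 : 0 < θ := by rw [hθ]; exact Real.sqrt_pos.2 (by linarith)
      have hθ2 : θ ^ 2 = 3 * (1 - u) := by rw [hθ]; exact Real.sq_sqrt (by linarith)
      have hθ3 : θ < π := by nlinarith
      have h2 := hd θ hθ0 hθ3
      have h3 := trig1 hθ0 (by linarith)
      have h4 : 1 - θ ^ 2 / 3 = u := by rw [hθ2]; ring
      rw [h4] at h3
      have h5 : L ^ 2 * (1 - θ * ct θ * u) ≤ L ^ 2 * (2 / 3 * θ ^ 2) :=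
        mul_le_mul_of_nonneg_left h3 hL2.le
      have h6 : L ^ 2 * (1 - θ * ct θ * u) = L ^ 2 - θ * ct θ * s ^ 2 := by
        rw [← huL]; ring
      have h7 : θ * (6 * x) ≤ θ * (L ^ 2 * θ) := by nlinarith
      have h8 : 6 * x ≤ L ^ 2 * θ := le_of_mul_le_mul_left h7 hθ0
      have h9 : (6 * x) ^ 2 ≤ (L ^ 2 * θ) ^ 2 := pow_le_pow_left₀ (by linarith) h8 2
      have h10 : (L ^ 2 * θ) ^ 2 = 3 * (L ^ 2 * (L ^ 2 - s ^ 2)) := by
        rw [mul_pow, hθ2, ← huL]; ring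
      nlinarith

theorem edge_sq (h : FaceFacts2 F a l ch y) {e : E} (he : e ∈ F) (hl : l e ≤ 3) :
    ch e ^ 2 + 4 / 3 * (A0 * y e) ^ 2 ≤ l e ^ 2 := by
  have h1 := edge_quart h he
  have hs := h.ch_nonneg e he
  have hsL := h.ch_le e he
  have h2 : 0 ≤ l e ^ 2 - ch e ^ 2 := by nlinarith
  have h3 : l e ^ 2 ≤ 9 := by nlinarith
  have h4 : l e ^ 2 * (l e ^ 2 - ch e ^ 2) ≤ 9 * (l e ^ 2 - ch e ^ 2) :=
    mul_le_mul_of_nonneg_right h3 h2
  linarith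

theorem edge_half (h : FaceFacts2 F a l ch y) {e : E} (he : e ∈ F) :
    2 * π * (A0 * |y e|) ≤ l e ^ 2 := by
  have h1 := h.dido e he (π / 2) (by positivity) (by linarith [Real.pi_pos])
  have h2 : ct (π / 2) = 0 := by
    unfold ct
    rw [Real.cos_pi_div_two, zero_div]
  rw [h2] at h1
  linarith

theorem edge_lin (h : FaceFacts2 F a l ch y) {e : E} (he : e ∈ F) (hl : l e ≤ 3) :
    2 * π / 3 * (A0 * |y e|) ≤ l e := by
  have h1 := edge_half h he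
  have h2 : 0 ≤ l e := (h.ch_nonneg e he).trans (h.ch_le e he)
  have h3 : l e ^ 2 ≤ 3 * l e := by nlinarith
  linarith

theorem mink (h : FaceFacts2 F a l ch y) (I : Finset E) (hI : I ⊆ F) (hl : ∀ e ∈ I, l e ≤ 3) :
    (∑ e ∈ I, ch e) ^ 2 + 4 / 3 * (A0 * ∑ e ∈ I, y e) ^ 2 ≤ (∑ e ∈ I, l e) ^ 2 := by
  have hq : √(4 / 3 : ℝ) ^ 2 = 4 / 3 := Real.sq_sqrt (by norm_num)
  have h1 : ∀ e ∈ I, ‖(⟨ch e, √(4 / 3) * (A0 * y e)⟩ : ℂ)‖ ≤ l e := by
    intro e he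
    have h2 := edge_sq h (hI he) (hl e he)
    have h3 : 0 ≤ l e := (h.ch_nonneg e (hI he)).trans (h.ch_le e (hI he))
    rw [Complex.norm_def, Complex.normSq_mk]
    refine Real.sqrt_le_iff.2 ⟨h3, ?_⟩
    have h4 : ch e * ch e + √(4 / 3) * (A0 * y e) * (√(4 / 3) * (A0 * y e)) =
        ch e ^ 2 + √(4 / 3) ^ 2 * (A0 * y e) ^ 2 := by ring
    rw [h4, hq]
    exact h2
  have h2 : ‖∑ e ∈ I, (⟨ch e, √(4 / 3) * (A0 * y e)⟩ : ℂ)‖ ≤ ∑ e ∈ I, l e :=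
    (norm_sum_le _ _).trans (Finset.sum_le_sum h1)
  have h3 : ∑ e ∈ I, (⟨ch e, √(4 / 3) * (A0 * y e)⟩ : ℂ) =
      ⟨∑ e ∈ I, ch e, √(4 / 3) * (A0 * ∑ e ∈ I, y e)⟩ := by
    apply Complex.ext
    · rw [Complex.re_sum]
    · rw [Complex.im_sum]
      simp only
      rw [← Finset.mul_sum, ← Finset.mul_sum]
  rw [h3] at h2
  have h4 := pow_le_pow_left₀ (norm_nonneg _) h2 2
  rw [← Complex.normSq_eq_norm_sq, Complex.normSq_mk] at h4
  have h5 : (∑ e ∈ I, ch e) * (∑ e ∈ I, ch e) +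
      √(4 / 3) * (A0 * ∑ e ∈ I, y e) * (√(4 / 3) * (A0 * ∑ e ∈ I, y e)) =
      (∑ e ∈ I, ch e) ^ 2 + √(4 / 3) ^ 2 * (A0 * ∑ e ∈ I, y e) ^ 2 := by ring
  rw [h5, hq] at h4
  exact h4

end Pool.Agent.Helper38.LC2
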