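import Pool.Agent.Helper38.LC2.Poly
import Pool.Agent.Helper98.LC.C.Face

/-!
# LC2-04: the classes satisfy `FaceFacts2`

Exactly as `faceFacts` in `Pool/Agent/Helper98/LC/C/Face.lean`: `ch_nonneg`, `ch_le` are fields of
`faceFacts`; `dido` is `dido_theta` for the path `fq G c e` with `2 * emul c e` steps; `poly` is
`poly_paths` for `E = {d // d ∈ corners c n i}`.
-/

namespace Pool.Agent.Helper38.LC2

open Finset Real Pool.Agent.Helper98.LC

variable {ι : Type} [DecidableEq ι]

private theorem f2_A0 : 0 < A0 := by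
  unfold A0
  positivity

/-- the path of the edge which starts at the corner `d` -/
private noncomputable def fq (G : Net) (c : V → ι) (d : V × Fin 6) (t : ℕ) : ℂ :=
  if t % 2 = 0 then G.zl (edart c d (t / 2))
  else G.q (edart c d (t / 2 + 1)).1 (edart c d (t / 2 + 1)).2

private theorem fp_even (G : Net) (c : V → ι) (d : V × Fin 6) (j : ℕ) :
    fq G c d (2 * j) = G.zl (edart c d j) := by
  unfold fq
  rw [if_pos (by omega), show 2 * j / 2 = j by omega]

private theorem fp_odd (G : Net) (c : V → ι) (d : V × Fin 6) (j : ℕ) :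
    fq G c d (2 * j + 1) = G.q (edart c d (j + 1)).1 (edart c d (j + 1)).2 := by
  unfold fq
  rw [if_neg (by omega), show (2 * j + 1) / 2 = j by omega]

private theorem f2_succ (c : V → ι) (d : V × Fin 6) (j : ℕ) :
    edart c d (j + 1) = next c (edart c d j) := by
  unfold edart
  rw [Function.iterate_succ_apply']

private theorem f2_zr (G : Net) (c : V → ι) (d : V × Fin 6) (j : ℕ) :
    G.z (edart c d (j + 1)).1 ((edart c d (j + 1)).2 - 1) = G.zl (edart c d j) := by
  rw [f2_succ]
  exact zr_next G c _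

private theorem f2_plen (G : Net) (c : V → ι) (d : V × Fin 6) (m : ℕ) :
    plen (fq G c d) (2 * m) = ∑ j ∈ Icc 1 m, G.w (edart c d j) := by
  induction m with
  | zero => simp [plen]
  | succ m ih =>
    rw [sum_Icc_succ_top (by omega), ← ih]
    unfold plen
    rw [show 2 * (m + 1) = 2 * m + 1 + 1 by ring, sum_range_succ, sum_range_succ, fp_even,
      fp_odd, show 2 * m + 1 + 1 = 2 * (m + 1) by ring, fp_even]
    unfold Net.w
    rw [f2_zr, add_assoc]
    rfl

private theorem f2_parea (G : Net) (c : V → ι) (d : V × Fin 6) (m : ℕ) :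
    parea (fq G c d) (2 * m) = ∑ j ∈ Icc 1 m, G.et (edart c d j) := by
  induction m with
  | zero => simp [parea]
  | succ m ih =>
    rw [sum_Icc_succ_top (by omega), ← ih]
    unfold parea
    rw [show 2 * (m + 1) = 2 * m + 1 + 1 by ring, sum_range_succ, sum_range_succ, fp_even,
      fp_odd, show 2 * m + 1 + 1 = 2 * (m + 1) by ring, fp_even]
    unfold Net.et
    rw [f2_zr]
    unfold Net.zl
    ring

private theorem f2_zero (G : Net) (c : V → ι) (d : V × Fin 6) : fq G c d 0 = G.zl d :=
  fp_even G c d 0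

private theorem f2_end (G : Net) (c : V → ι) (d : V × Fin 6) :
    fq G c d (2 * emul c d) = G.zl (es c d) := fp_even G c d (emul c d)

private theorem f2_len (G : Net) (c : V → ι) (d : V × Fin 6) :
    plen (fq G c d) (2 * emul c d) = elen G c d := f2_plen G c d _

private theorem f2_chd (G : Net) (c : V → ι) (d : V × Fin 6) :
    ‖fq G c d (2 * emul c d) - fq G c d 0‖ = echd G c d := by
  rw [f2_end, f2_zero]
  rfl

private theorem f2_bul (G : Net) (c : V → ι) (d : V × Fin 6) :
    pbul (fq G c d) (2 * emul c d) = A0 * ebul G c d := by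
  unfold pbul ebul
  rw [f2_end, f2_zero, f2_parea, mul_div_cancel₀ _ f2_A0.ne']

/-- the permutation of the corners of a class -/
private noncomputable def ft {c : V → ι} {o : ι} {n : ℕ} (h : OutBox c o n) (i : ι) :
    Equiv.Perm {d // d ∈ corners c n i} :=
  Equiv.ofBijective (fun d => ⟨es c d.1, es_mem h d.2⟩)
    (Finite.injective_iff_bijective.mp fun x y hxy => by
      have h1 : es c x.1 = es c y.1 := congrArg Subtype.val hxy
      exact Subtype.ext (edge_es_inj' h ((mem_corners h i x.1).1 x.2).1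
        ((mem_corners h i y.1).1 y.2).1 h1))

private theorem ft_apply {c : V → ι} {o : ι} {n : ℕ} (h : OutBox c o n) (i : ι)
    (d : {d // d ∈ corners c n i}) : (ft h i d).1 = es c d.1 := rfl

private theorem f2_hk {c : V → ι} {o : ι} {n : ℕ} (h : OutBox c o n) (i : ι)
    (d : {d // d ∈ corners c n i}) : 1 ≤ 2 * emul c d.1 := by
  have := (emul_spec h ((mem_corners h i d.1).1 d.2).1).1
  omega

private theorem f2_hp (G : Net) {c : V → ι} {o : ι} {n : ℕ} (h : OutBox c o n) (i : ι)
    (d : {d // d ∈ corners c n i}) :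
    fq G c d.1 (2 * emul c d.1) = fq G c (ft h i d).1 0 := by
  rw [f2_end, f2_zero, ft_apply]

private theorem f2_total (G : Net) {c : V → ι} {o : ι} {n : ℕ} (h : OutBox c o n)
    (hl : NoLoop c) (i : ι) :
    ∑ e : {d // d ∈ corners c n i}, parea (fq G c e.1) (2 * emul c e.1) =
      ∑ d ∈ (darts c n).filter (fun d => c d.1 = i), G.et d := by
  rw [sum_coe_sort (corners c n i) (fun d => parea (fq G c d) (2 * emul c d)),
    ← sum_edges h hl i]
  exact sum_congr rfl fun d _ => f2_parea G c d _

private theorem f2_area (G : Net) {c : V → ι} {o : ι} {n : ℕ} (h : OutBox c o n)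
    (hl : NoLoop c) {i : ι} (hi : i ≠ o) :
    ∑ e : {d // d ∈ corners c n i}, parea (fq G c e.1) (2 * emul c e.1) =
      A0 * ar G c n i := by
  rw [f2_total G h hl, sum_et_class G h hi]
  unfold ar
  rw [mul_div_cancel₀ _ f2_A0.ne']


theorem faceFacts2 {ι : Type} [DecidableEq ι] (G : Net) {c : V → ι} {o : ι} {n : ℕ} (h : OutBox c o n)
    (hl : NoLoop c) {i : ι} (hi : i ≠ o) :
    FaceFacts2 (corners c n i) (ar G c n i) (elen G c) (echd G c) (ebul G c) := by
  have hff := faceFacts G h hl hi
  have hbulF : ∑ e : {d // d ∈ corners c n i}, pbul (fq G c e.1) (2 * emul c e.1) =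
      A0 * ∑ d ∈ corners c n i, ebul G c d := by
    rw [sum_coe_sort (corners c n i) (fun d => pbul (fq G c d) (2 * emul c d)), mul_sum]
    exact sum_congr rfl fun d _ => f2_bul G c d
  refine ⟨hff.ch_nonneg, hff.ch_le, fun e _ θ h0 h1 => ?_, fun φ hφ hs => ?_⟩
  · have h2 := dido_theta (fq G c e) (2 * emul c e) h0 h1
    rw [f2_chd, f2_len, f2_bul, abs_mul, abs_of_pos A0_pos] at h2
    exact h2
  · have h2 := poly_paths (ft h i) (fun d => 2 * emul c d.1) (fun d => fq G c d.1)
      (f2_hp G h i) (fun e => φ e.1) (fun e => hφ e.1 e.2)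
      (by rw [sum_coe_sort (corners c n i) φ]; exact hs)
    rw [f2_area G h hl hi, hbulF,
      sum_coe_sort (corners c n i)
        (fun d => ct (φ d) * ‖fq G c d (2 * emul c d) - fq G c d 0‖ ^ 2)] at h2
    simp only [f2_chd] at h2
    rw [mul_sub]
    exact h2

end Pool.Agent.Helper38.LC2
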