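import Pool.Agent.Helper38.LC2.Edge

/-!
# LC2-08: the isoperimetric inequality of a face

* `face_iso`: `L = ∑ F l`.  Let `0 < θ < π`, `δ > 0`, `n = F.card`, `φ e = θ (l e + δ) / (L + n δ) > 0`, `∑ φ = θ` (if `F = ∅` then `poly` gives
  `A0 * a ≤ 0` and everything is trivial).  `poly`: `4 A0 (a - ∑ y) ≤ ∑ ct (φ e) ch e²`; `dido` with the angle `φ e < π`:
  `4 A0 |y e| + ct (φ e) ch e² ≤ l e² / φ e ≤ l e (L + n δ) / θ`.  Sum: `4 A0 (a - ∑ y + ∑ |y|) ≤ L (L + n δ) / θ`.  Let `δ → 0`, `θ → π`.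
* `face_iso'`: `y ≤ |y|`.   `face_refl`: `|y e| - y e ≥ - 2 y e` for `e ∈ R`, and `≥ 0` otherwise.
* `face_two`: `F.card ≤ 2`: `poly` with all angles equal to `φ < π/2`: `4 A0 (a - ∑ y) ≤ ct φ ∑ ch²`; let `φ → π/2`.
-/

namespace Pool.Agent.Helper38.LC2

open Finset Real Pool.Agent.Helper98.LC

variable {E : Type} [DecidableEq E] {F : Finset E} {a : ℝ} {l ch y : E → ℝ}

private theorem iso_eps (h : FaceFacts2 F a l ch y) (hF : F.Nonempty) {θ δ : ℝ} (hθ : 0 < θ)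
    (hθ' : θ < π) (hδ : 0 < δ) :
    θ * (4 * (A0 * (a - ∑ e ∈ F, y e + ∑ e ∈ F, |y e|))) ≤
      (∑ e ∈ F, l e) * (∑ e ∈ F, l e + F.card * δ) := by
  have hl : ∀ e ∈ F, 0 ≤ l e := fun e he => (h.ch_nonneg e he).trans (h.ch_le e he)
  have hL : 0 ≤ ∑ e ∈ F, l e := sum_nonneg hl
  have hn : (1 : ℝ) ≤ F.card := by exact_mod_cast hF.card_pos
  have hM : 0 < ∑ e ∈ F, l e + F.card * δ := by nlinarith
  have hφ0 : ∀ e ∈ F, 0 < θ * (l e + δ) / (∑ e ∈ F, l e + F.card * δ) := by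
    intro e he
    have := hl e he
    positivity
  have hsum : ∑ e ∈ F, θ * (l e + δ) / (∑ e ∈ F, l e + F.card * δ) = θ := by
    rw [← sum_div, ← mul_sum, sum_add_distrib, sum_const, nsmul_eq_mul, mul_div_assoc,
      div_self hM.ne', mul_one]
  have hp := h.poly (fun e => θ * (l e + δ) / (∑ e ∈ F, l e + F.card * δ)) hφ0
    (by rw [hsum]; exact hθ')
  have hd : ∀ e ∈ F, ct (θ * (l e + δ) / (∑ e ∈ F, l e + F.card * δ)) * ch e ^ 2 +
      4 * (A0 * |y e|) ≤ l e * (∑ e ∈ F, l e + F.card * δ) / θ := by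
    intro e he
    have hle : θ * (l e + δ) / (∑ e ∈ F, l e + F.card * δ) ≤ θ := by
      have h0 : θ * (l e + δ) / (∑ e ∈ F, l e + F.card * δ) ≤
          ∑ x ∈ F, θ * (l x + δ) / (∑ e ∈ F, l e + F.card * δ) :=
        single_le_sum (f := fun x => θ * (l x + δ) / (∑ e ∈ F, l e + F.card * δ))
          (fun x hx => (hφ0 x hx).le) he
      rwa [hsum] at h0
    have h1 := h.dido e he _ (hφ0 e he) (lt_of_le_of_lt hle hθ')
    have h2 := hφ0 e he
    have h3 := hl e he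
    have h4 : ct (θ * (l e + δ) / (∑ e ∈ F, l e + F.card * δ)) * ch e ^ 2 +
        4 * (A0 * |y e|) ≤ l e ^ 2 / (θ * (l e + δ) / (∑ e ∈ F, l e + F.card * δ)) := by
      rw [le_div_iff₀ h2]
      linarith
    refine h4.trans ?_
    rw [div_div_eq_mul_div, div_le_div_iff₀ (by positivity) hθ]
    have h5 : 0 ≤ l e * δ := by positivity
    have h6 : l e ^ 2 ≤ l e * (l e + δ) := by nlinarith
    calc l e ^ 2 * (∑ e ∈ F, l e + F.card * δ) * θ
        ≤ l e * (l e + δ) * (∑ e ∈ F, l e + F.card * δ) * θ := by gcongr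
      _ = l e * (∑ e ∈ F, l e + F.card * δ) * (θ * (l e + δ)) := by ring
  have hs := sum_le_sum hd
  rw [sum_add_distrib, ← sum_div, ← sum_mul, ← mul_sum, ← mul_sum] at hs
  have h7 : 4 * (A0 * (a - ∑ e ∈ F, y e + ∑ e ∈ F, |y e|)) ≤
      (∑ e ∈ F, l e) * (∑ e ∈ F, l e + F.card * δ) / θ := by
    have : 4 * (A0 * (a - ∑ e ∈ F, y e + ∑ e ∈ F, |y e|)) =
      4 * (A0 * (a - ∑ e ∈ F, y e)) + 4 * (A0 * ∑ e ∈ F, |y e|) := by ring
    rw [this]
    linarith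
  rw [le_div_iff₀ hθ] at h7
  linarith

theorem face_iso (h : FaceFacts2 F a l ch y) :
    4 * π * (A0 * (a - ∑ e ∈ F, y e + ∑ e ∈ F, |y e|)) ≤ (∑ e ∈ F, l e) ^ 2 := by
  rcases F.eq_empty_or_nonempty with hF | hF
  · subst hF
    have hp := h.poly (fun _ => 1) (by simp) (by simpa using Real.pi_pos)
    simp only [sum_empty, sub_zero, add_zero] at hp ⊢
    have := Real.pi_pos
    nlinarith
  · have hl : ∀ e ∈ F, 0 ≤ l e := fun e he => (h.ch_nonneg e he).trans (h.ch_le e he)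
    have hL : 0 ≤ ∑ e ∈ F, l e := sum_nonneg hl
    have h1 : ∀ θ : ℝ, 0 < θ → θ < π →
        θ * (4 * (A0 * (a - ∑ e ∈ F, y e + ∑ e ∈ F, |y e|))) ≤ (∑ e ∈ F, l e) ^ 2 := by
      intro θ hθ hθ'
      refine le_of_forall_pos_le_add fun ε hε => ?_
      have hD : 0 < F.card * (∑ e ∈ F, l e) + 1 := by positivity
      have h2 := iso_eps h hF hθ hθ' (div_pos hε hD)
      refine h2.trans ?_
      have h3 : (∑ e ∈ F, l e) * (F.card * (ε / (F.card * (∑ e ∈ F, l e) + 1))) ≤ ε := by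
        have h4 : (∑ e ∈ F, l e) * (F.card * (ε / (F.card * (∑ e ∈ F, l e) + 1))) =
            F.card * (∑ e ∈ F, l e) * ε / (F.card * (∑ e ∈ F, l e) + 1) := by ring
        rw [h4, div_le_iff₀ hD]
        nlinarith
      linarith [h3]
    by_contra hc
    push Not at hc
    have hX : 0 < 4 * (A0 * (a - ∑ e ∈ F, y e + ∑ e ∈ F, |y e|)) := by
      by_contra h5
      push Not at h5
      have := Real.pi_pos
      nlinarith [sq_nonneg (∑ e ∈ F, l e)]
    set X := 4 * (A0 * (a - ∑ e ∈ F, y e + ∑ e ∈ F, |y e|)) with hXdef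
    have hc' : (∑ e ∈ F, l e) ^ 2 < π * X := by
      rw [hXdef]
      linarith
    have h6 : (∑ e ∈ F, l e) ^ 2 / X < π := by
      rw [div_lt_iff₀ hX]
      exact hc'
    have h7 : 0 ≤ (∑ e ∈ F, l e) ^ 2 / X := by positivity
    have h8 := h1 (((∑ e ∈ F, l e) ^ 2 / X + π) / 2) (by linarith [Real.pi_pos]) (by linarith)
    have h9 : ((∑ e ∈ F, l e) ^ 2 / X + π) / 2 * X = ((∑ e ∈ F, l e) ^ 2 + π * X) / 2 := by
      field_simp
    rw [h9] at h8
    linarith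

theorem face_iso' (h : FaceFacts2 F a l ch y) : 4 * π * (A0 * a) ≤ (∑ e ∈ F, l e) ^ 2 := by
  refine le_trans ?_ (face_iso h)
  have h1 : ∑ e ∈ F, y e ≤ ∑ e ∈ F, |y e| := sum_le_sum fun e _ => le_abs_self _
  have h2 := A0_pos
  have h3 : A0 * a ≤ A0 * (a - ∑ e ∈ F, y e + ∑ e ∈ F, |y e|) :=
    mul_le_mul_of_nonneg_left (by linarith) h2.le
  exact mul_le_mul_of_nonneg_left h3 (by positivity)

theorem face_refl (h : FaceFacts2 F a l ch y) (R : Finset E) (hR : R ⊆ F) :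
    4 * π * (A0 * (a - 2 * ∑ e ∈ R, y e)) ≤ (∑ e ∈ F, l e) ^ 2 := by
  refine le_trans ?_ (face_iso h)
  have h1 : ∑ e ∈ R, (-2 * y e) ≤ ∑ e ∈ R, (|y e| - y e) := by
    refine sum_le_sum fun e _ => ?_
    have := neg_abs_le (y e)
    linarith
  have h4 : ∑ e ∈ R, (|y e| - y e) ≤ ∑ e ∈ F, (|y e| - y e) := by
    refine sum_le_sum_of_subset_of_nonneg hR fun e _ _ => ?_
    have := le_abs_self (y e)
    linarith
  rw [← mul_sum] at h1
  rw [sum_sub_distrib (s := F)] at h4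
  have h2 := A0_pos
  have h3 : A0 * (a - 2 * ∑ e ∈ R, y e) ≤ A0 * (a - ∑ e ∈ F, y e + ∑ e ∈ F, |y e|) :=
    mul_le_mul_of_nonneg_left (by linarith) h2.le
  exact mul_le_mul_of_nonneg_left h3 (by positivity)

theorem face_two (h : FaceFacts2 F a l ch y) (h2 : F.card ≤ 2) : a ≤ ∑ e ∈ F, y e := by
  have hA := A0_pos
  have h1 : ∀ x : ℝ, 0 < x → x < π / 2 →
      4 * (A0 * (a - ∑ e ∈ F, y e)) ≤ ct x * ∑ e ∈ F, ch e ^ 2 := by
    intro x hx hx'
    have hp := h.poly (fun _ => x) (fun _ _ => hx) (by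
      rw [sum_const, nsmul_eq_mul]
      have h3 : (F.card : ℝ) ≤ 2 := by exact_mod_cast h2
      nlinarith)
    rwa [← mul_sum] at hp
  have h3 : Filter.Tendsto (fun x : ℝ => ct x * ∑ e ∈ F, ch e ^ 2)
      (nhdsWithin (π / 2) (Set.Iio (π / 2))) (nhds (0 * ∑ e ∈ F, ch e ^ 2)) := by
    refine Filter.Tendsto.mul_const _ ?_
    have h4 : ContinuousAt ct (π / 2) := by
      unfold ct
      refine ContinuousAt.div Real.continuous_cos.continuousAt Real.continuous_sin.continuousAt ?_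
      rw [Real.sin_pi_div_two]
      exact one_ne_zero
    have h5 : ct (π / 2) = 0 := by
      unfold ct
      rw [Real.cos_pi_div_two, zero_div]
    rw [← h5]
    exact h4.tendsto.mono_left nhdsWithin_le_nhds
  have h6 : 4 * (A0 * (a - ∑ e ∈ F, y e)) ≤ 0 * ∑ e ∈ F, ch e ^ 2 := by
    refine ge_of_tendsto h3 ?_
    have h7 : Set.Ioo 0 (π / 2) ∈ nhdsWithin (π / 2) (Set.Iio (π / 2)) :=
      Ioo_mem_nhdsLT (by positivity)
    filter_upwards [h7] with x hx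
    exact h1 x hx.1 hx.2
  rw [zero_mul] at h6
  by_contra hc
  push Not at hc
  have : 0 < A0 * (a - ∑ e ∈ F, y e) := mul_pos hA (by linarith)
  linarith

end Pool.Agent.Helper38.LC2
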