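import Pool.Agent.Helper38.LC2.Mix
import Pool.Agent.Helper38.LC2.Iso

/-!
# LC2-11: lower bounds for the length of the inner edges

`I = F \ O` inner edges, `k = I.card ≥ 1`, `X = A0 ∑ I y`, `Lin = ∑ I l`.
* `fix_mult`: `mix` with this `I` (`F \ I = O`): `4 (A0 a - X - ∑ O, A0 y) ≤ ct φ S²/k + ∑ O, ct ψ ch²`, `S = ∑ I ch`, so
  `ct φ S² / k ≥ 4 (A0 a - X - Q)`, `S² ≥ 4 k tan φ (A0 a - X - Q)` (`tan φ > 0`, `tan φ * ct φ = 1`); add `mink`.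
* `fix_V`: `(2V - be X)² = 4V² - 4 be V X + (4/3) X² ≤ 4 t R + (4/3) X² ≤ Lin²`, so `2V - be X ≤ Lin` (`abs_le_of_sq_le_sq` ...).
* `nonneg_in`: `Lin ≥ (2π/3) ∑ I, A0 |y| ≥ be |X|` (`edge_lin`, `2π/3 > be`, `|∑| ≤ ∑ |·|`).
* `int_fix`: `O = ∅`, `φ = arctan (t / n)`, `tan φ = t / n`, `Q = 0`, `R = A0 a - X ≥ A0 m - X`.
* `int_core`: `int_fix` with `t = be V`: `be V (A0 m - X) = 3 m V - be V X ≥ V² - be V X`.
-/

namespace Pool.Agent.Helper38.LC2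

open Finset Real Pool.Agent.Helper98.LC

variable {E : Type} [DecidableEq E] {F : Finset E} {a : ℝ} {l ch y : E → ℝ}

theorem fix_mult (h : FaceFacts2 F a l ch y) (O : Finset E) (hO : O ⊆ F) (hk : 1 ≤ (F \ O).card)
    (hin : ∀ e ∈ F \ O, l e ≤ 3) {φ : ℝ} (h0 : 0 < φ) (h1 : φ < π / 2) (ψ : E → ℝ)
    (hψ : ∀ e ∈ O, 0 < ψ e) (hs : ((F \ O).card : ℝ) * φ + ∑ e ∈ O, ψ e < π) {Q : ℝ}
    (hQ : ∑ e ∈ O, (A0 * y e + ct (ψ e) * ch e ^ 2 / 4) ≤ Q) :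
    4 * (((F \ O).card : ℝ) * tan φ) * (A0 * a - A0 * ∑ e ∈ F \ O, y e - Q) +
      4 / 3 * (A0 * ∑ e ∈ F \ O, y e) ^ 2 ≤ (∑ e ∈ F \ O, l e) ^ 2 := by
  have hsd : F \ (F \ O) = O := Finset.sdiff_sdiff_eq_self hO
  have hm := mix h (F \ O) Finset.sdiff_subset hk h0 h1 ψ (by rw [hsd]; exact hψ)
    (by rw [hsd]; exact hs)
  rw [hsd] at hm
  have hmk := mink h (F \ O) Finset.sdiff_subset hin
  have hsum : ∑ e ∈ F, y e = ∑ e ∈ F \ O, y e + ∑ e ∈ O, y e := (Finset.sum_sdiff hO).symm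
  rw [hsum] at hm
  have hQ' : A0 * ∑ e ∈ O, y e + (∑ e ∈ O, ct (ψ e) * ch e ^ 2) / 4 ≤ Q := by
    rw [Finset.sum_add_distrib, ← Finset.mul_sum, ← Finset.sum_div] at hQ
    exact hQ
  have htan : 0 < tan φ := tan_pos_of_pos_of_lt_pi_div_two h0 h1
  have hk0 : (0 : ℝ) < ((F \ O).card : ℝ) := by exact_mod_cast hk
  have hct : tan φ * ct φ = 1 := by
    have hc : 0 < Real.cos φ := cos_pos_of_mem_Ioo ⟨by linarith, h1⟩
    have hsn : 0 < Real.sin φ := sin_pos_of_pos_of_lt_pi h0 (by linarith [pi_pos])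
    unfold ct
    rw [Real.tan_eq_sin_div_cos]
    field_simp
  have h3 : 4 * (A0 * a - A0 * ∑ e ∈ F \ O, y e - Q) ≤
      ct φ * (∑ e ∈ F \ O, ch e) ^ 2 / ((F \ O).card : ℝ) := by
    linarith
  have h4 := mul_le_mul_of_nonneg_left h3 (mul_pos hk0 htan).le
  have h5 : ((F \ O).card : ℝ) * tan φ *
      (ct φ * (∑ e ∈ F \ O, ch e) ^ 2 / ((F \ O).card : ℝ)) = (∑ e ∈ F \ O, ch e) ^ 2 := by
    have h6 : ((F \ O).card : ℝ) * tan φ *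
        (ct φ * (∑ e ∈ F \ O, ch e) ^ 2 / ((F \ O).card : ℝ)) =
        (tan φ * ct φ) * (∑ e ∈ F \ O, ch e) ^ 2 := by
      field_simp
    rw [h6, hct, one_mul]
  rw [h5] at h4
  linarith

theorem fix_V {Lin X V t R : ℝ} (hL : 0 ≤ Lin) (h : 4 * t * R + 4 / 3 * X ^ 2 ≤ Lin ^ 2)
    (ht : V ^ 2 - be * V * X ≤ t * R) : V ≤ (Lin + be * X) / 2 := by
  have h1 : (2 * V - be * X) ^ 2 ≤ Lin ^ 2 := by
    have h2 : (2 * V - be * X) ^ 2 = 4 * (V ^ 2 - be * V * X) + be ^ 2 * X ^ 2 := by ring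
    rw [h2, be_sq]
    linarith
  have h3 := abs_le_of_sq_le_sq h1 hL
  have h4 := le_abs_self (2 * V - be * X)
  linarith

theorem nonneg_in (h : FaceFacts2 F a l ch y) (I : Finset E) (hI : I ⊆ F) (hin : ∀ e ∈ I, l e ≤ 3) :
    2 * π / 3 * |A0 * ∑ e ∈ I, y e| ≤ ∑ e ∈ I, l e ∧
      0 ≤ (∑ e ∈ I, l e + be * (A0 * ∑ e ∈ I, y e)) / 2 := by
  have h1 : 2 * π / 3 * |A0 * ∑ e ∈ I, y e| ≤ ∑ e ∈ I, l e := by
    rw [abs_mul, abs_of_pos A0_pos]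
    have h2 : |∑ e ∈ I, y e| ≤ ∑ e ∈ I, |y e| := Finset.abs_sum_le_sum_abs _ _
    have h3 : ∑ e ∈ I, 2 * π / 3 * (A0 * |y e|) ≤ ∑ e ∈ I, l e :=
      Finset.sum_le_sum fun e he => edge_lin h (hI he) (hin e he)
    rw [← Finset.mul_sum, ← Finset.mul_sum] at h3
    refine le_trans ?_ h3
    have h4 : A0 * |∑ e ∈ I, y e| ≤ A0 * ∑ e ∈ I, |y e| :=
      mul_le_mul_of_nonneg_left h2 A0_pos.le
    exact mul_le_mul_of_nonneg_left h4 (by positivity)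
  refine ⟨h1, ?_⟩
  have hbe : be < 2 * π / 3 := by
    have h5 : be < 2 := by
      have h6 := be_sq
      nlinarith [be_pos]
    linarith [pi_gt_three]
  have h7 : be * |A0 * ∑ e ∈ I, y e| ≤ 2 * π / 3 * |A0 * ∑ e ∈ I, y e| :=
    mul_le_mul_of_nonneg_right hbe.le (abs_nonneg _)
  have h8 : -(be * |A0 * ∑ e ∈ I, y e|) ≤ be * (A0 * ∑ e ∈ I, y e) := by
    have h9 := mul_le_mul_of_nonneg_left (neg_abs_le (A0 * ∑ e ∈ I, y e)) be_pos.le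
    linarith
  linarith

theorem int_fix (h : FaceFacts2 F a l ch y) (hk : 1 ≤ F.card) (hin : ∀ e ∈ F, l e ≤ 3)
    {t V m : ℝ} (ht : 0 < t) (harc : (F.card : ℝ) * arctan (t / F.card) < π) (hm : m ≤ a)
    (hX : V ^ 2 - be * V * (A0 * ∑ e ∈ F, y e) ≤ t * (A0 * m - A0 * ∑ e ∈ F, y e)) :
    V ≤ (∑ e ∈ F, l e + be * (A0 * ∑ e ∈ F, y e)) / 2 := by
  have hn : (0 : ℝ) < (F.card : ℝ) := by exact_mod_cast hk
  have hφ0 : 0 < arctan (t / F.card) := by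
    rw [Real.arctan_pos]
    positivity
  have h1 := fix_mult h ∅ (Finset.empty_subset _) (by rw [Finset.sdiff_empty]; exact hk)
    (by rw [Finset.sdiff_empty]; exact hin) hφ0 (Real.arctan_lt_pi_div_two _) (fun _ => 0)
    (by simp) (by rw [Finset.sdiff_empty, Finset.sum_empty, add_zero]; exact harc) (Q := 0)
    (by rw [Finset.sum_empty])
  rw [Finset.sdiff_empty, Real.tan_arctan, mul_div_cancel₀ _ hn.ne'] at h1
  have hL : 0 ≤ ∑ e ∈ F, l e :=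
    Finset.sum_nonneg fun e he => (h.ch_nonneg e he).trans (h.ch_le e he)
  have h2 : t * (A0 * m - A0 * ∑ e ∈ F, y e) ≤ t * (A0 * a - A0 * ∑ e ∈ F, y e - 0) := by
    have h3 : A0 * m ≤ A0 * a := mul_le_mul_of_nonneg_left hm A0_pos.le
    exact mul_le_mul_of_nonneg_left (by linarith) ht.le
  exact fix_V hL h1 (hX.trans h2)

theorem int_core (h : FaceFacts2 F a l ch y) (hk : 1 ≤ F.card) (hin : ∀ e ∈ F, l e ≤ 3)
    {V m : ℝ} (hV : 0 < V) (harc : (F.card : ℝ) * arctan (be * V / F.card) < π) (hm : m ≤ a)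
    (hVm : V ≤ 3 * m) :
    V ≤ (∑ e ∈ F, l e + be * (A0 * ∑ e ∈ F, y e)) / 2 := by
  have ht : 0 < be * V := mul_pos be_pos hV
  refine int_fix h hk hin ht harc hm ?_
  have h1 : be * V * (A0 * m - A0 * ∑ e ∈ F, y e) =
      (be * A0) * m * V - be * V * (A0 * ∑ e ∈ F, y e) := by ring
  rw [h1, be_A0]
  have h2 : V * V ≤ 3 * m * V := mul_le_mul_of_nonneg_right hVm hV.le
  nlinarith

end Pool.Agent.Helper38.LC2
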