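import Pool.Agent.Helper38.LC2.Fix
import Pool.Agent.Helper38.LC2.Num
import Pool.Agent.Helper38.LC2.ArcNum

/-!
# LC2-22: inner classes with 2, 3, 4, 5 edges

`m = min 1 a`, `n = F.card`, `L = ∑ F l ≥ 5.71387 √a ≥ 5.71387 √m` (`perim`), `X = A0 ∑ F y`, `be * (A0 * ∑ y) = be X`.
Every edge is `≤ 3 m`, so `5.71387 √a ≤ 3 n m`: if `a ≤ 1` then `√a ≥ 5.71387 / (3n)`; so `m ≥ m₀`.
* `int_two`: `face_two`: `∑ y ≥ a`, `be X = 3 ∑ y ≥ 3 a` (`be_A0`); `edge_half`: `2 π A0 a ≤ ∑ l² ≤ 18 m²`, so `m ≥ .9` (`a ≥ 1`, or `16.32 ≤ 18 a`);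
  `5.71387 √m + 3 m ≥ 6 m + .512` for `.9 ≤ m ≤ 1` (`√m ≥ m`).
* `n = 3`: `m₀ = .403`, `V = 3m + .192`.  `X ≥ .59`: `5.71387 √m + 1.1547004 * .59 ≥ 6m + .384` (concave in `√m`; `6.3951 ≥ 6.384` at `1`).
  `X ≤ .59`: `int_fix`, `t = 5.1`: `3 arctan 1.7 < π` (`arctan (1.7) < π/3` since `tan (π/3) = √3 > 1.7`), `V² - be V X ≤ 5.1 (A0 m - X)`: `-5.1 + be V < 0`, so take `X = .59`:
  `5.1 (2.598076 m - .59) - (3m+.192)² + .6812 (3m+.192) ≥ 0` on `[.403, 1]` (concave in `m`: `2.22` at `1`, `1.32` at `.403`).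
* `n = 4`: `m₀ = .2267`, `V = 3m + .128`.  `X ≥ .471`: `5.71387 √m + 1.1547004 * .471 ≥ 6m + .256` (`6.2577 ≥ 6.256` at `1`).  `X ≤ .471`: `t = 3.99`,
  `4 arctan .9975 < π` (`arctan 1 = π/4`), `-3.99 + be V < 0`, `3.99 (2.598076 m - .471) - (3m+.128)² + .54386 (3m+.128) ≥ 0` on `[.2267, 1]` (`.40` at `1`, `.257` at `.2267`).
* `n = 5`: `m₀ = .1451`, `V = 3m + .064`.  `X ≥ .359`: `5.71387 √m + 1.1547004 * .359 ≥ 6m + .128` (`6.1284 ≥ 6.128` at `1`).  `X ≤ .359`: `t = 3.632`,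
  `5 arctan .7264 < π`: `arctan_quarter`: `arctan .7264 = π/4 - arctan (.2736/1.7264)`, `.2736/1.7264 ≥ .15848`, `arctan .15848 ≥ .15716 > π/20`.
  `-3.632 + be V < 0`, `3.632 (2.598076 m - .359) - (3m+.064)² + .41453 (3m+.064) ≥ 0` on `[.1451, 1]` (`.0143` at `1`, `.0229` at `.1451`; concave in `m`).
-/

namespace Pool.Agent.Helper38.LC2

open Finset Real Pool.Agent.Helper98.LC

variable {E : Type} [DecidableEq E] {F : Finset E} {a : ℝ} {l ch y : E → ℝ}

/-- the common part: `s = √m` -/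
theorem int_base (h : FaceFacts2 F a l ch y) (ha : 0 < a)
    (hin : ∀ e ∈ F, l e ≤ 3 * min 1 a) :
    ∃ s : ℝ, 0 < s ∧ s ≤ 1 ∧ min 1 a = s ^ 2 ∧ 5.71387 * s ≤ ∑ e ∈ F, l e ∧
      5.71387 ≤ 3 * (F.card : ℝ) * s := by
  have hm : 0 < min 1 a := lt_min one_pos ha
  have hs : 0 < √(min 1 a) := Real.sqrt_pos.mpr hm
  have hsq : √(min 1 a) ^ 2 = min 1 a := Real.sq_sqrt hm.le
  have hle : √(min 1 a) ≤ √a := Real.sqrt_le_sqrt (min_le_right _ _)
  have hp := perim h ha.le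
  have h1 : 5.71387 * √(min 1 a) ≤ ∑ e ∈ F, l e := by
    refine le_trans ?_ hp
    exact mul_le_mul_of_nonneg_left hle (by norm_num)
  have h2 : ∑ e ∈ F, l e ≤ (F.card : ℝ) * (3 * min 1 a) := by
    have h3 := Finset.sum_le_card_nsmul F l (3 * min 1 a) hin
    rwa [nsmul_eq_mul] at h3
  refine ⟨√(min 1 a), hs, ?_, hsq.symm, h1, ?_⟩
  · rw [Real.sqrt_le_iff]
    exact ⟨zero_le_one, by rw [one_pow]; exact min_le_left _ _⟩
  · have h4 : 5.71387 * √(min 1 a) ≤ 3 * (F.card : ℝ) * √(min 1 a) * √(min 1 a) := by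
      have h5 : 3 * (F.card : ℝ) * √(min 1 a) * √(min 1 a) = (F.card : ℝ) * (3 * min 1 a) := by
        rw [mul_assoc, ← sq, hsq]; ring
      rw [h5]
      exact h1.trans h2
    exact le_of_mul_le_mul_right h4 hs

theorem in_three (hin : ∀ e ∈ F, l e ≤ 3 * min 1 a) : ∀ e ∈ F, l e ≤ 3 := by
  intro e he
  have h1 : min 1 a ≤ 1 := min_le_left _ _
  linarith [hin e he]

/-- the common numerical part, `X` small -/
theorem int_num {X s t x0 d : ℝ} (hX : X ≤ x0) (hs : 0 < s) (hx0 : 0 ≤ x0) (ht : 0 ≤ t)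
    (hd : 0 ≤ d) (hs1 : s ≤ 1) (hVt : 1.1547006 * (3 + d) ≤ t)
    (hnum : (3 * s ^ 2 + d) ^ 2 ≤
      t * (2.598076 * s ^ 2 - x0) + 1.1547004 * x0 * (3 * s ^ 2 + d)) :
    (3 * s ^ 2 + d) ^ 2 - be * (3 * s ^ 2 + d) * X ≤ t * (A0 * s ^ 2 - X) := by
  have hV : 0 ≤ 3 * s ^ 2 + d := by positivity
  have hV1 : 3 * s ^ 2 + d ≤ 3 + d := by nlinarith
  have hb := be_num
  have hA := A0_num
  have h1 : be * (3 * s ^ 2 + d) ≤ t := by
    have h2 : be * (3 * s ^ 2 + d) ≤ 1.1547006 * (3 + d) := by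
      apply mul_le_mul hb.2 hV1 hV (by norm_num)
    linarith
  have h3 : 0 ≤ (t - be * (3 * s ^ 2 + d)) * (x0 - X) :=
    mul_nonneg (by linarith) (by linarith)
  have h4 : 0 ≤ (be - 1.1547004) * (x0 * (3 * s ^ 2 + d)) :=
    mul_nonneg (by linarith [hb.1]) (mul_nonneg hx0 hV)
  have h5 : 0 ≤ t * ((A0 - 2.598076) * s ^ 2) :=
    mul_nonneg ht (mul_nonneg (by linarith [hA.1]) (sq_nonneg s))
  nlinarith [h3, h4, h5]

/-- the common numerical part, `X` large -/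
theorem int_large {X s L x0 d : ℝ} (hX : x0 ≤ X) (hs : 0 < s) (hs1 : s ≤ 1)
    (hL : 5.71387 * s ≤ L) (hx0 : 0.28613 + d ≤ 1.1547004 * x0) (h0 : 0 ≤ x0) :
    6 * s ^ 2 + d ≤ L + be * X := by
  have hb := be_num
  have h1 : 1.1547004 * x0 ≤ be * X := mul_le_mul hb.1 hX h0 be_pos.le
  have h2 : 0 ≤ (1 - s) * (6 * s + 0.28613) := mul_nonneg (by linarith) (by linarith)
  nlinarith [h1, h2]

theorem arctan_three : 3 * arctan (5.1 / 3) < π := by
  have h1 : arctan (5.1 / 3) < arctan (√3) := by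
    apply Real.arctan_strictMono
    have := sqrt3_num.1
    norm_num
    linarith
  have h2 : arctan (√3) = π / 3 := by
    rw [← Real.tan_pi_div_three]
    exact Real.arctan_tan (by linarith [pi_pos]) (by linarith [pi_pos])
  rw [h2] at h1
  linarith

theorem arctan_four : 4 * arctan (3.99 / 4) < π := by
  have h1 : arctan (3.99 / 4) < arctan 1 := by
    apply Real.arctan_strictMono
    norm_num
  rw [Real.arctan_one] at h1
  linarith

theorem arctan_five : 5 * arctan (3.632 / 5) < π := by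
  have hc := Real.cos_pi_div_five
  have h5 : √5 ≤ 2.23607 := by
    rw [Real.sqrt_le_iff]
    norm_num
  have h50 : 0 ≤ √5 := Real.sqrt_nonneg 5
  have h5s : √5 ^ 2 = 5 := Real.sq_sqrt (by norm_num)
  have hcp : 0 < Real.cos (π / 5) := by rw [hc]; positivity
  have hsp : 0 < Real.sin (π / 5) :=
    Real.sin_pos_of_pos_of_lt_pi (by positivity) (by linarith [pi_pos])
  have hsc := Real.sin_sq_add_cos_sq (π / 5)
  have hlt : 3.632 / 5 < Real.tan (π / 5) := by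
    rw [Real.tan_eq_sin_div_cos, lt_div_iff₀ hcp]
    have h6 : (3.632 / 5 * Real.cos (π / 5)) ^ 2 < Real.sin (π / 5) ^ 2 := by
      have h7 : Real.cos (π / 5) ^ 2 ≤ 0.65451 := by
        rw [hc]
        nlinarith
      nlinarith
    exact lt_of_pow_lt_pow_left₀ 2 hsp.le h6
  have h1 := Real.arctan_strictMono hlt
  rw [Real.arctan_tan (by linarith [pi_pos]) (by linarith [pi_pos])] at h1
  linarith

theorem int_two (h : FaceFacts2 F a l ch y) (ha : 0 < a) (hF : F.card = 2)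
    (hin : ∀ e ∈ F, l e ≤ 3 * min 1 a) :
    6 * min 1 a + 4 * eps ≤ ∑ e ∈ F, l e + be * (A0 * ∑ e ∈ F, y e) := by
  obtain ⟨s, hs0, hs1, hm, hL, hs⟩ := int_base h ha hin
  have h1 := face_two h hF.le
  have h2 : be * (A0 * ∑ e ∈ F, y e) = 3 * ∑ e ∈ F, y e := by rw [← mul_assoc, be_A0]
  have h3 : min 1 a ≤ a := min_le_right _ _
  rw [h2]
  rw [hF] at hs
  push_cast at hs
  rw [hm] at h3 ⊢
  unfold eps
  nlinarith

theorem int_three (h : FaceFacts2 F a l ch y) (ha : 0 < a) (hF : F.card = 3)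
    (hin : ∀ e ∈ F, l e ≤ 3 * min 1 a) :
    6 * min 1 a + 3 * eps ≤ ∑ e ∈ F, l e + be * (A0 * ∑ e ∈ F, y e) := by
  obtain ⟨s, hs0, hs1, hm, hL, hs⟩ := int_base h ha hin
  rw [hF] at hs
  push_cast at hs
  rcases le_total (A0 * ∑ e ∈ F, y e) 0.59 with hX | hX
  · have h1 := int_fix h (by omega) (in_three hin) (t := 5.1) (V := 3 * s ^ 2 + 0.192)
      (m := s ^ 2) (by norm_num) (by rw [hF]; exact_mod_cast arctan_three)
      (by rw [← hm]; exact min_le_right _ _)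
      (int_num hX hs0 (by norm_num) (by norm_num) (by norm_num) hs1 (by norm_num)
        (by
          have h2 : 0 ≤ (1 - s ^ 2) * (s ^ 2 - 0.4) :=
            mul_nonneg (by nlinarith) (by nlinarith)
          nlinarith [h2]))
    rw [hm]
    unfold eps
    linarith
  · rw [hm]
    have h1 := int_large (d := 3 * eps) hX hs0 hs1 hL (by unfold eps; norm_num) (by norm_num)
    exact h1

theorem int_four (h : FaceFacts2 F a l ch y) (ha : 0 < a) (hF : F.card = 4)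
    (hin : ∀ e ∈ F, l e ≤ 3 * min 1 a) :
    6 * min 1 a + 2 * eps ≤ ∑ e ∈ F, l e + be * (A0 * ∑ e ∈ F, y e) := by
  obtain ⟨s, hs0, hs1, hm, hL, hs⟩ := int_base h ha hin
  rw [hF] at hs
  push_cast at hs
  rcases le_total (A0 * ∑ e ∈ F, y e) 0.471 with hX | hX
  · have h1 := int_fix h (by omega) (in_three hin) (t := 3.99) (V := 3 * s ^ 2 + 0.128)
      (m := s ^ 2) (by norm_num) (by rw [hF]; exact_mod_cast arctan_four)
      (by rw [← hm]; exact min_le_right _ _)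
      (int_num hX hs0 (by norm_num) (by norm_num) (by norm_num) hs1 (by norm_num)
        (by
          have h2 : 0 ≤ (1 - s ^ 2) * (s ^ 2 - 0.2267) :=
            mul_nonneg (by nlinarith) (by nlinarith)
          nlinarith [h2]))
    rw [hm]
    unfold eps
    linarith
  · rw [hm]
    have h1 := int_large (d := 2 * eps) hX hs0 hs1 hL (by unfold eps; norm_num) (by norm_num)
    exact h1

theorem int_five (h : FaceFacts2 F a l ch y) (ha : 0 < a) (hF : F.card = 5)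
    (hin : ∀ e ∈ F, l e ≤ 3 * min 1 a) :
    6 * min 1 a + eps ≤ ∑ e ∈ F, l e + be * (A0 * ∑ e ∈ F, y e) := by
  obtain ⟨s, hs0, hs1, hm, hL, hs⟩ := int_base h ha hin
  rw [hF] at hs
  push_cast at hs
  rcases le_total (A0 * ∑ e ∈ F, y e) 0.359 with hX | hX
  · have h1 := int_fix h (by omega) (in_three hin) (t := 3.632) (V := 3 * s ^ 2 + 0.064)
      (m := s ^ 2) (by norm_num) (by rw [hF]; exact_mod_cast arctan_five)
      (by rw [← hm]; exact min_le_right _ _)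
      (int_num hX hs0 (by norm_num) (by norm_num) (by norm_num) hs1 (by norm_num)
        (by
          have h2 : 0 ≤ (1 - s ^ 2) * (s ^ 2 - 0.1451) :=
            mul_nonneg (by nlinarith) (by nlinarith)
          nlinarith [h2]))
    rw [hm]
    unfold eps
    linarith
  · rw [hm]
    have h1 := int_large (d := eps) hX hs0 hs1 hL (by unfold eps; norm_num) (by norm_num)
    exact h1

end Pool.Agent.Helper38.LC2
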