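import Pool.Agent.Helper38.LC2.Fix
import Pool.Agent.Helper38.LC2.Num
import Pool.Agent.Helper38.LC2.ArcNum

/-!
# LC2-23: inner classes with at least 6 edges

`m = min 1 a ≤ 1`, `m ≤ a`, `n = F.card`, `L = ∑ F l`, `X = A0 ∑ F y`.  If the left side is `≤ 0`, use `nonneg_in` (`I = F`).
* `int_six`: for every `0 < V < 3 m`: `int_core`, `arctan (be V / 6) < arctan (be * 3 / 6) = arctan (1/√3) = π/6`; so `V ≤ (L + be X)/2`; let `V → 3 m` (`le_of_forall_lt`).
* `int_seven`: `V = 3m - .064 > 0`.  `nonneg_in`: `(2π/3) |X| ≤ L`.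
  `X ≤ -6.26`: `L + be X ≥ (2.0943 - 1.1547006) * 6.26 ≥ 5.881 ≥ 6m - .128`.
  `X ≥ A0 m`: `L ≥ (2π/3) X ≥ be X`, `L + be X ≥ 2 be A0 m = 6 m`.
  `-6.26 ≤ X ≤ A0 m`: `int_fix` with `t = 3.3705`: `7 arctan (.4815) < π`: `arctan_upper`/`arctan_quarter`: `arctan .4815 = π/4 - arctan (.5185/1.4815)`,
  `.5185/1.4815 ≥ .34998`, `arctan .34998 ≥ .33664`, and `7 (π/4 - .33664) < π` iff `3π/4 = 2.35620 < 2.35648`.
  Condition `G = t (A0 m - X) - V² + be V X ≥ 0`: linear in `X`; at `X = A0 m`: `G = V (3m - V) ≥ 0`; at `X = -6.26`: `3.3705 (2.598076 m + 6.26) - V² - 7.22843 V` with `m = (V + .064)/3`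
  (use `be ≤ 1.1547006`): concave in `V` on `[0, 2.936]`, `21` at `0`, `.0133` at `2.936`.
* `int_eight`: the same with `V = 3m - .128`, `t = 3.313`, `8 arctan (.414125) < π` (`tan (π/8) = √2 - 1 > .4142`, or numerically), `X ≤ -6.26`: `5.881 ≥ 6m - .256`; `G ≥ .33` at
  `X = -6.26`, `V = 2.872`.
* `int_many` (`n ≥ 9`): `V = 3m - eps (n-6)/2 > 0`, `V ≤ 3m`, `int_core`: `n = 9`: `V ≤ 2.808`, `be V / 9 ≤ .36028`, `arctan ≤ .3459` (`arctan_upper`), `9 * .3459 < 3.1141`;
  `n = 10`: `V ≤ 2.744`, `be V / 10 ≤ .31686`, `arctan ≤ .3069`; `n ≥ 11`: `V ≤ 2.68`, `n arctan (be V / n) ≤ be V ≤ 3.0947`.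
-/

namespace Pool.Agent.Helper38.LC2

open Finset Real Pool.Agent.Helper98.LC

variable {E : Type} [DecidableEq E] {F : Finset E} {a : ℝ} {l ch y : E → ℝ}

private lemma i6_arctan_le {x : ℝ} (hx : 0 ≤ x) : arctan x ≤ x := by
  rcases hx.eq_or_lt with h | h
  · rw [← h, Real.arctan_zero]
  · have h1 : 0 < arctan x := by rw [Real.arctan_pos]; exact h
    have h2 := Real.lt_tan h1 (Real.arctan_lt_pi_div_two x)
    rw [Real.tan_arctan] at h2
    exact h2.le

/-- the common part of `int_seven` and `int_eight` -/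
private lemma i6_mid (h : FaceFacts2 F a l ch y) (ha : 0 < a) (hF : 1 ≤ F.card)
    (hin : ∀ e ∈ F, l e ≤ 3 * min 1 a) {t s : ℝ} (ht : 0 < t)
    (harc : (F.card : ℝ) * arctan (t / F.card) < π) (hs1 : 6 - 2 * s ≤ 5.88)
    (hG : ∀ V : ℝ, 0 < V → V ≤ 3 - s →
      0 ≤ t * (2.598076 * ((V + s) / 3) + 6.26) - V ^ 2 - 7.228426 * V) :
    6 * min 1 a - 2 * s ≤ ∑ e ∈ F, l e + be * (A0 * ∑ e ∈ F, y e) := by
  have hm0 : 0 < min 1 a := lt_min one_pos ha
  have hm1 : min 1 a ≤ 1 := min_le_left _ _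
  have hma : min 1 a ≤ a := min_le_right _ _
  generalize min 1 a = m at *
  have hin3 : ∀ e ∈ F, l e ≤ 3 := fun e he => (hin e he).trans (by linarith)
  obtain ⟨hn1, hn2⟩ := nonneg_in h F (Finset.Subset.refl _) hin3
  have hbe := be_pos
  have hbe2 := be_num.2
  have hA := A0_pos
  have hA1 := A0_num.1
  have hbA := be_A0
  have hπ := pi_gt_d6
  rcases le_or_gt (3 * m - s) 0 with hV | hV
  · linarith
  generalize hX : A0 * ∑ e ∈ F, y e = X at *
  generalize hL : ∑ e ∈ F, l e = L at *
  rcases le_or_gt X (-6.26) with h1 | h1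
  · have h2 : |X| = -X := abs_of_nonpos (by linarith)
    rw [h2] at hn1
    have h3 : (0.9396 : ℝ) ≤ 2 * π / 3 - be := by linarith
    have h4 : (2 * π / 3 - be) * 6.26 ≤ (2 * π / 3 - be) * (-X) :=
      mul_le_mul_of_nonneg_left (by linarith) (by linarith)
    nlinarith
  rcases le_or_gt (A0 * m) X with h2 | h2
  · have h3 : 0 < A0 * m := mul_pos hA hm0
    rw [abs_of_pos (by linarith)] at hn1
    have h4 : be * X ≤ 2 * π / 3 * X := mul_le_mul_of_nonneg_right (by linarith) (by linarith)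
    have h5 : be * (A0 * m) ≤ be * X := mul_le_mul_of_nonneg_left h2 hbe.le
    have h6 : be * (A0 * m) = 3 * m := by rw [← mul_assoc, hbA]
    linarith
  · have key := int_fix h hF hin3 (t := t) (V := 3 * m - s) ht harc hma
    rw [hX, hL] at key
    have h3 := hG (3 * m - s) hV (by linarith)
    have h4 : (3 * m - s + s) / 3 = m := by ring
    rw [h4] at h3
    have hD : 0 < A0 * m + 6.26 := by
      have := mul_pos hA hm0
      linarith
    have hG1 : 0 ≤ t * (A0 * m + 6.26) - (3 * m - s) ^ 2 - 6.26 * be * (3 * m - s) := by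
      have h5 : t * (2.598076 * m + 6.26) ≤ t * (A0 * m + 6.26) := by
        apply mul_le_mul_of_nonneg_left _ ht.le
        have := mul_le_mul_of_nonneg_right hA1 hm0.le
        linarith
      have h6 : 6.26 * be * (3 * m - s) ≤ 7.228426 * (3 * m - s) :=
        mul_le_mul_of_nonneg_right (by linarith) hV.le
      linarith
    have hG2 : 0 ≤ (3 * m - s) * (3 * m - (3 * m - s)) := mul_nonneg hV.le (by linarith)
    have hG3 : (A0 * m + 6.26) * (t * (A0 * m - X) - (3 * m - s) ^ 2 + be * (3 * m - s) * X) =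
        (A0 * m - X) * (t * (A0 * m + 6.26) - (3 * m - s) ^ 2 - 6.26 * be * (3 * m - s)) +
        (X + 6.26) * (-(3 * m - s) ^ 2 + (be * A0) * m * (3 * m - s)) := by
      ring
    rw [hbA] at hG3
    have hG4 : 0 ≤ (A0 * m + 6.26) * (t * (A0 * m - X) - (3 * m - s) ^ 2 +
        be * (3 * m - s) * X) := by
      rw [hG3]
      apply add_nonneg
      · exact mul_nonneg (by linarith) hG1
      · apply mul_nonneg (by linarith)
        nlinarith
    have hG5 := nonneg_of_mul_nonneg_right hG4 hD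
    have h7 := key (by linarith)
    linarith

theorem int_six (h : FaceFacts2 F a l ch y) (ha : 0 < a) (hF : F.card = 6)
    (hin : ∀ e ∈ F, l e ≤ 3 * min 1 a) :
    6 * min 1 a ≤ ∑ e ∈ F, l e + be * (A0 * ∑ e ∈ F, y e) := by
  have hm0 : 0 < min 1 a := lt_min one_pos ha
  have hm1 : min 1 a ≤ 1 := min_le_left _ _
  have hma : min 1 a ≤ a := min_le_right _ _
  generalize min 1 a = m at *
  have hin3 : ∀ e ∈ F, l e ≤ 3 := fun e he => (hin e he).trans (by linarith)
  obtain ⟨hn1, hn2⟩ := nonneg_in h F (Finset.Subset.refl _) hin3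
  have key : 3 * m ≤ (∑ e ∈ F, l e + be * (A0 * ∑ e ∈ F, y e)) / 2 := by
    refine le_of_forall_lt_imp_le_of_dense fun V hV => ?_
    rcases le_or_gt V 0 with h0 | h0
    · linarith
    refine int_core h (by omega) hin3 h0 ?_ hma hV.le
    rw [hF]
    push_cast
    have h1 : arctan (be * V / 6) < π / 6 := by
      have h2 : arctan (1 / √3) = π / 6 := by
        rw [← Real.tan_pi_div_six]
        apply Real.arctan_tan
        · linarith [pi_pos]
        · linarith [pi_pos]
      rw [← h2, Real.arctan_lt_arctan_iff]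
      have h3 : (1 : ℝ) / √3 = be * 3 / 6 := by
        unfold be
        ring
      rw [h3]
      have := be_pos
      have h4 : be * V < be * 3 := by
        apply mul_lt_mul_of_pos_left _ this
        linarith
      linarith
    linarith
  linarith

theorem int_seven (h : FaceFacts2 F a l ch y) (ha : 0 < a) (hF : F.card = 7)
    (hin : ∀ e ∈ F, l e ≤ 3 * min 1 a) :
    6 * min 1 a - eps ≤ ∑ e ∈ F, l e + be * (A0 * ∑ e ∈ F, y e) := by
  have h1 := i6_mid h ha (by omega) hin (t := 3.3705) (s := 0.064) (by norm_num)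
    (by
      rw [hF]
      push_cast
      have h2 : arctan (3.3705 / 7) = π / 4 - arctan ((1 - 3.3705 / 7) / (1 + 3.3705 / 7)) :=
        arctan_quarter (by norm_num)
      have h3 : arctan 0.34998 ≤ arctan ((1 - 3.3705 / 7) / (1 + 3.3705 / 7)) := by
        rw [Real.arctan_le_arctan_iff]
        norm_num
      have h4 := arctan_lower (x := 0.34998) (by norm_num)
      have h5 := pi_lt_d6
      norm_num at h4
      linarith)
    (by norm_num)
    (by
      intro V h0 h2
      nlinarith)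
  have h6 : eps = 2 * 0.064 := by unfold eps; norm_num
  rw [h6]
  exact h1

theorem int_eight (h : FaceFacts2 F a l ch y) (ha : 0 < a) (hF : F.card = 8)
    (hin : ∀ e ∈ F, l e ≤ 3 * min 1 a) :
    6 * min 1 a - 2 * eps ≤ ∑ e ∈ F, l e + be * (A0 * ∑ e ∈ F, y e) := by
  have h1 := i6_mid h ha (by omega) hin (t := 3.313) (s := 0.128) (by norm_num)
    (by
      rw [hF]
      push_cast
      have h4 := arctan_upper (x := 3.313 / 8) (by norm_num)
      have h5 := pi_gt_d6
      norm_num at h4 ⊢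
      linarith)
    (by norm_num)
    (by
      intro V h0 h2
      nlinarith)
  have h6 : 2 * eps = 2 * 0.128 := by unfold eps; norm_num
  rw [h6]
  exact h1

theorem int_many (h : FaceFacts2 F a l ch y) (ha : 0 < a) (hF : 9 ≤ F.card)
    (hin : ∀ e ∈ F, l e ≤ 3 * min 1 a) :
    6 * min 1 a - eps * ((F.card : ℝ) - 6) ≤ ∑ e ∈ F, l e + be * (A0 * ∑ e ∈ F, y e) := by
  have hm0 : 0 < min 1 a := lt_min one_pos ha
  have hm1 : min 1 a ≤ 1 := min_le_left _ _
  have hma : min 1 a ≤ a := min_le_right _ _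
  generalize min 1 a = m at *
  have hin3 : ∀ e ∈ F, l e ≤ 3 := fun e he => (hin e he).trans (by linarith)
  obtain ⟨hn1, hn2⟩ := nonneg_in h F (Finset.Subset.refl _) hin3
  have hn9 : (9 : ℝ) ≤ (F.card : ℝ) := by exact_mod_cast hF
  have heps : eps = 0.128 := by unfold eps; norm_num
  rw [heps]
  have hbe := be_pos
  have hbe2 := be_num.2
  have hπ := pi_gt_d6
  rcases le_or_gt (3 * m - 0.128 * ((F.card : ℝ) - 6) / 2) 0 with hV | hV
  · linarith
  have harc : (F.card : ℝ) * arctan (be * (3 * m - 0.128 * ((F.card : ℝ) - 6) / 2) / F.card)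
      < π := by
    generalize hVV : 3 * m - 0.128 * ((F.card : ℝ) - 6) / 2 = V at *
    have hVle : V ≤ 3 - 0.128 * ((F.card : ℝ) - 6) / 2 := by linarith
    rcases Nat.lt_or_ge F.card 10 with h1 | h1
    · have h2 : F.card = 9 := by omega
      rw [h2] at hVle ⊢
      push_cast at hVle ⊢
      have h3 : arctan (be * V / 9) ≤ arctan 0.36028 := by
        rw [Real.arctan_le_arctan_iff]
        nlinarith
      have h4 := arctan_upper (x := 0.36028) (by norm_num)
      norm_num at h4
      linarith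
    rcases Nat.lt_or_ge F.card 11 with h2 | h2
    · have h3 : F.card = 10 := by omega
      rw [h3] at hVle ⊢
      push_cast at hVle ⊢
      have h3 : arctan (be * V / 10) ≤ arctan 0.31686 := by
        rw [Real.arctan_le_arctan_iff]
        nlinarith
      have h4 := arctan_upper (x := 0.31686) (by norm_num)
      norm_num at h4
      linarith
    · have h3 : (11 : ℝ) ≤ (F.card : ℝ) := by exact_mod_cast h2
      have h4 : (0 : ℝ) < (F.card : ℝ) := by linarith
      have h5 : arctan (be * V / F.card) ≤ be * V / F.card := i6_arctan_le (by positivity)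
      have h6 := mul_le_mul_of_nonneg_left h5 h4.le
      rw [mul_div_cancel₀ _ h4.ne'] at h6
      have h7 : be * V ≤ 1.1547006 * 2.68 := mul_le_mul hbe2 (by linarith) hV.le (by norm_num)
      linarith
  have key := int_core h (by omega) hin3 hV harc hma (by linarith)
  linarith

end Pool.Agent.Helper38.LC2
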