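import Pool.Agent.Helper38.LC2.Fix
import Pool.Agent.Helper38.LC2.Num

/-!
# LC2-20: one short outer edge, at most three inner edges

`m = min 1 a`, `O = {f}`, `Y = l f - cT ch f`, `W = (1 - c1) Y + eps/2 (card F + 1 - 6)`, `X = A0 ∑ (F \ O) y`, `Lin = ∑ (F \ O) l`.
`ch f ≤ l f`, so `l f ≤ Y / (1 - cT)`, `1 - cT = .47845`, `Y ≥ 0`.  `perim`: `5.71387 √a ≤ Lin + l f`.
* `small31` (`card F = 4`): `l f ≤ .1693`.  If `a ≤ 1`: `5.71387 √a ≤ 9a + 3.05a`, so `√a ≥ .4741`, `m ≥ .2247`.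
  (R1) `X ≥ .375`: `Lin + be X ≥ 5.71387 √m - Y/(1-cT) + 1.1547004 * .375` and it is to show that it is `≥ 6m + .128 - 2 (1 - c1) Y`; `Y/(1-cT) - 2(1-c1)Y ≤ .0905 Y ≤ .0074`;
  `5.71387 √m + .4330 - .0074 ≥ 6m + .128` for `.2247 ≤ m ≤ 1` (with `s = √m`, concave in `s`: `6.1394 ≥ 6.128` at `s = 1`, and at `s = .474`).
  (R3) `X ≤ .375`: `fix_mult` with `φ = arctan (3/2)`, `ψ = arctan (1/6)`, `3 φ + ψ < π` (`π/2 - φ = arctan (2/3) ≥ 2/3 - (2/3)³/3 + (2/3)⁵/5 - (2/3)⁷/7 > .587`,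
  `3 (π/2 - φ) > π/2 + ψ`, `ψ ≤ 1/6`: `3 * .5879 = 1.7637 > 1.5708 + .1652`), `Q = .05`: `A0 y + ct ψ ch²/4 ≤ l²/(2π) + (3/2) l² ≤ 1.66 * .1693² ≤ .05` (`edge_half`, `ct ψ = 6`),
  `t = 3 tan φ = 9/2`.  Then `fix_V` with `V = 3m + .064` (and `3m - W ≤ V` since `Y ≥ 0`): `V² - be V X ≤ (9/2) (A0 a - X - .05)`: since `a ≥ m` and
  `- 9/2 + be V < 0` it is enough to take `a = m`, `X = .375`: `4.5 (2.598076 m - .425) - (3m+.064)² + .433 (3m+.064) ≥ 0` for `.2247 ≤ m ≤ 1`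
  (concave in `m`; `1.71` at `1`, `.48` at `.2247`).
* `small21` (`card F = 3`): `l f ≤ .3366`.  `a ≤ 1`: `5.71387 √a ≤ 9.05 a`, `√a ≥ .631`, `m ≥ .398`.
  (R1) `X ≥ .49`: `5.71387 √m + 1.1547004 * .49 - .0905 Y ≥ 6m + .256` (`Y ≤ .161`; at `m = 1`: `6.265 ≥ 6.256`).
  (R3) `X ≤ .49`: `φ = arctan 3`, `ψ = arctan (37/50)`, `2 φ + ψ < π` (`2 arctan 3 + arctan (3/4) = π`; `2 (π/2 - φ) = 2 arctan (1/3) = arctan (3/4)`), `Q = .057`:
  `l² (1/(2π) + 25/74) ≤ .4971 * .1133 ≤ .057`, `t = 6`, `V = 3m + .128`, at `X = .49`: `6 (2.598076 m - .547) - (3m+.128)² + .5658 (3m+.128) ≥ 0` for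
  `.398 ≤ m ≤ 1` (`4.29` at `1`, `1.9` at `.398`).
* `small11` (`card F = 2`, `F = {e, f}`): `l f ≤ .462`, `face_two`: `a ≤ y e + y f`, `edge_half`: `2 π A0 a ≤ l e² + l f²`.  `2 π A0 ≥ 16.32`.
  If `a ≤ 1`: `16.32 a ≤ 9 a² + (3.05 a)²`, so `a ≥ .89`; but also `16.32 a ≤ 9 a² + .2135`, which is false for `.89 ≤ a ≤ 1`.  If `a ≥ 1`: `16.32 a ≤ 9 + .2135`, false.
-/

namespace Pool.Agent.Helper38.LC2

open Finset Real Pool.Agent.Helper98.LC

variable {E : Type} [DecidableEq E] {F : Finset E} {a : ℝ} {l ch y : E → ℝ}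

private lemma ct_arctan (x : ℝ) : ct (arctan x) = 1 / x := by
  have h := Real.tan_arctan x
  rw [Real.tan_eq_sin_div_cos] at h
  unfold ct
  rw [← one_div_div, h]

private lemma outer_bd (h : FaceFacts2 F a l ch y) (O : Finset E) (hO : O ⊆ F)
    (hO1 : O.card = 1) : ∃ f ∈ F, O = {f} ∧ 0 ≤ l f ∧
      9569 / 20000 * l f ≤ ∑ e ∈ O, (l e - cT * ch e) := by
  obtain ⟨f, hf⟩ := Finset.card_eq_one.1 hO1
  have hfF : f ∈ F := hO (by rw [hf]; exact Finset.mem_singleton_self f)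
  refine ⟨f, hfF, hf, (h.ch_nonneg f hfF).trans (h.ch_le f hfF), ?_⟩
  rw [hf, Finset.sum_singleton]
  have h1 := h.ch_le f hfF
  unfold cT
  linarith

private lemma arc31 : 3 * arctan (3 / 2) + arctan (1 / 6) < π := by
  have h1 : arctan (3 / 2) + arctan (3 / 2) = arctan (-(12 / 5)) + π := by
    rw [Real.arctan_add_eq_add_pi (by norm_num) (by norm_num)]
    norm_num
  have h2 : arctan (3 / 2) + arctan (1 / 6) = arctan (20 / 9) := by
    rw [Real.arctan_add (by norm_num)]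
    norm_num
  have h3 : arctan (20 / 9) < arctan (12 / 5) := Real.arctan_lt_arctan_iff.2 (by norm_num)
  rw [Real.arctan_neg] at h1
  linarith

private lemma arc21 : 2 * arctan 3 + arctan (37 / 50) < π := by
  have h1 : arctan 3 + arctan 3 = arctan (-(3 / 4)) + π := by
    rw [Real.arctan_add_eq_add_pi (by norm_num) (by norm_num)]
    norm_num
  have h3 : arctan (37 / 50) < arctan (3 / 4) := Real.arctan_lt_arctan_iff.2 (by norm_num)
  rw [Real.arctan_neg] at h1
  linarith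

/-- the contribution of the outer edge -/
private lemma out_Q (h : FaceFacts2 F a l ch y) {f : E} (hf : f ∈ F) {c : ℝ} (hc : 0 ≤ c) :
    A0 * y f + c * ch f ^ 2 / 4 ≤ (4 / 25 + c / 4) * l f ^ 2 := by
  have h1 := edge_half h hf
  have h2 : A0 * y f ≤ A0 * |y f| := mul_le_mul_of_nonneg_left (le_abs_self _) A0_pos.le
  have h3 : 0 ≤ A0 * |y f| := mul_nonneg A0_pos.le (abs_nonneg _)
  have h4 : ch f ^ 2 ≤ l f ^ 2 := pow_le_pow_left₀ (h.ch_nonneg f hf) (h.ch_le f hf) 2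
  have h5 := Real.pi_gt_d2
  have h6 : 6.28 * (A0 * |y f|) ≤ l f ^ 2 := by nlinarith
  have h7 : c * ch f ^ 2 ≤ c * l f ^ 2 := mul_le_mul_of_nonneg_left h4 hc
  have h8 : 0 ≤ l f ^ 2 := sq_nonneg _
  linarith

theorem small31 (h : FaceFacts2 F a l ch y) (O : Finset E) (hO : O ⊆ F) (hO1 : O.card = 1)
    (hF : F.card = 4) (ha : 0 < a) (ha2 : a < 2) (hin : ∀ e ∈ F \ O, l e ≤ 3 * min 1 a)
    (hout : ∀ e ∈ O, l e ≤ 3 * min 1 a + a / 20)
    (hY : ∑ e ∈ O, (l e - cT * ch e) ≤ 81 / 1000) {W : ℝ}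
    (hW : W = (1 - c1) * ∑ e ∈ O, (l e - cT * ch e) +
      eps / 2 * ((F.card : ℝ) + O.card - 6)) :
    3 * min 1 a - W ≤ (∑ e ∈ F \ O, l e + be * (A0 * ∑ e ∈ F \ O, y e)) / 2 := by
  obtain ⟨f, hfF, hf, hl0, hlY⟩ := outer_bd h O hO hO1
  have hcard : (F \ O).card = 3 := by
    rw [Finset.card_sdiff_of_subset hO]
    omega
  have hsumL : ∑ e ∈ F, l e = ∑ e ∈ F \ O, l e + l f := by
    rw [← Finset.sum_sdiff hO, hf, Finset.sum_singleton]
  have hp := perim h ha.le
  rw [hsumL] at hp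
  have hLin0 : 0 ≤ ∑ e ∈ F \ O, l e := Finset.sum_nonneg fun e he =>
    (h.ch_nonneg e (Finset.sdiff_subset he)).trans (h.ch_le e (Finset.sdiff_subset he))
  have hLin : ∑ e ∈ F \ O, l e ≤ 9 * min 1 a := by
    have := Finset.sum_le_card_nsmul (F \ O) l _ hin
    rw [hcard, nsmul_eq_mul] at this
    push_cast at this
    linarith
  have hlf : l f ≤ 3 * min 1 a + a / 20 := hout f (by rw [hf]; exact Finset.mem_singleton_self f)
  have hW' : W = (1 - c1) * ∑ e ∈ O, (l e - cT * ch e) - 8 / 125 := by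
    rw [hW, hF, hO1]
    unfold eps
    push_cast
    ring
  rw [hW']
  unfold c1
  generalize hYd : ∑ e ∈ O, (l e - cT * ch e) = Y at *
  have hY0 : 0 ≤ Y := by linarith
  have hm0 : 0 < min 1 a := lt_min one_pos ha
  have hm1 : min 1 a ≤ 1 := min_le_left _ _
  have hma : min 1 a ≤ a := min_le_right _ _
  -- the square root of `m`
  have hs0 : 0 < √(min 1 a) := Real.sqrt_pos.2 hm0
  have hs2 : √(min 1 a) ^ 2 = min 1 a := Real.sq_sqrt hm0.le
  have hs1 : √(min 1 a) ≤ 1 := Real.sqrt_le_one.2 hm1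
  have hsa : √(min 1 a) ≤ √a := Real.sqrt_le_sqrt hma
  have hslow : 0.474 ≤ √(min 1 a) := by
    rcases le_total a 1 with h1 | h1
    · rw [min_eq_right h1] at hLin hlf hs0 hs2 hs1 ⊢
      have h2 : 5.71387 * √a ≤ 12.05 * √a ^ 2 := by rw [hs2]; linarith
      have h3 : √a * 5.71387 ≤ √a * (12.05 * √a) := by linarith
      have h4 := le_of_mul_le_mul_left h3 hs0
      linarith
    · rw [min_eq_left h1, Real.sqrt_one]
      norm_num
  generalize hmd : min 1 a = m at *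
  generalize √m = s at *
  have hmlow : 0.2246 ≤ m := by nlinarith
  have hbe := be_num
  have hA0 := A0_num
  rcases le_total (3 / 8) (A0 * ∑ e ∈ F \ O, y e) with hX | hX
  · -- (R1)
    have h1 : 1.1547004 * (3 / 8) ≤ be * (A0 * ∑ e ∈ F \ O, y e) :=
      mul_le_mul hbe.1 hX (by norm_num) be_pos.le
    have h2 : 5.71387 * s ≤ ∑ e ∈ F \ O, l e + l f := by linarith
    have h3 : 0 ≤ (s - 0.474) * (1 - s) := mul_nonneg (by linarith) (by linarith)
    linarith
  · -- (R3)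
    have hlf1 : l f ≤ 0.1694 := by linarith
    have hlf2 : l f ^ 2 ≤ 0.0287 := by nlinarith
    have hfix := fix_mult h O hO (by rw [hcard]; norm_num) (fun e he => (hin e he).trans (by linarith))
      (φ := arctan (3 / 2)) (by rw [Real.arctan_pos]; norm_num) (Real.arctan_lt_pi_div_two _)
      (fun _ => arctan (1 / 6)) (fun _ _ => by rw [Real.arctan_pos]; norm_num)
      (by
        rw [hcard, hf, Finset.sum_singleton]
        push_cast
        exact arc31) (Q := 1 / 20)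
      (by
        rw [hf, Finset.sum_singleton, ct_arctan]
        have h1 := out_Q h hfF (c := 1 / (1 / 6)) (by norm_num)
        norm_num at h1 ⊢
        linarith)
    rw [hcard, Real.tan_arctan] at hfix
    push_cast at hfix
    have hV : 3 * m + 8 / 125 ≤
        (∑ e ∈ F \ O, l e + be * (A0 * ∑ e ∈ F \ O, y e)) / 2 := by
      refine fix_V hLin0 hfix ?_
      generalize A0 * ∑ e ∈ F \ O, y e = X at *
      have h1 : 2.598076 * m ≤ A0 * a := mul_le_mul hA0.1 hma hm0.le A0_pos.le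
      have h2 : 0 ≤ (9 / 2 - be * (3 * m + 8 / 125)) * (3 / 8 - X) := by
        refine mul_nonneg ?_ (by linarith)
        have h5 : be * (3 * m + 8 / 125) ≤ 1.1547006 * 3.064 :=
          mul_le_mul hbe.2 (by linarith) (by linarith) (by norm_num)
        linarith
      have h3 : 1.1547004 * (3 * m + 8 / 125) ≤ be * (3 * m + 8 / 125) :=
        mul_le_mul_of_nonneg_right hbe.1 (by linarith)
      have h4 : 0 ≤ (m - 0.2246) * (1 - m) := mul_nonneg (by linarith) (by linarith)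
      linarith
    linarith

theorem small21 (h : FaceFacts2 F a l ch y) (O : Finset E) (hO : O ⊆ F) (hO1 : O.card = 1)
    (hF : F.card = 3) (ha : 0 < a) (ha2 : a < 2) (hin : ∀ e ∈ F \ O, l e ≤ 3 * min 1 a)
    (hout : ∀ e ∈ O, l e ≤ 3 * min 1 a + a / 20)
    (hY : ∑ e ∈ O, (l e - cT * ch e) ≤ 161 / 1000) {W : ℝ}
    (hW : W = (1 - c1) * ∑ e ∈ O, (l e - cT * ch e) +
      eps / 2 * ((F.card : ℝ) + O.card - 6)) :
    3 * min 1 a - W ≤ (∑ e ∈ F \ O, l e + be * (A0 * ∑ e ∈ F \ O, y e)) / 2 := by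
  obtain ⟨f, hfF, hf, hl0, hlY⟩ := outer_bd h O hO hO1
  have hcard : (F \ O).card = 2 := by
    rw [Finset.card_sdiff_of_subset hO]
    omega
  have hsumL : ∑ e ∈ F, l e = ∑ e ∈ F \ O, l e + l f := by
    rw [← Finset.sum_sdiff hO, hf, Finset.sum_singleton]
  have hp := perim h ha.le
  rw [hsumL] at hp
  have hLin0 : 0 ≤ ∑ e ∈ F \ O, l e := Finset.sum_nonneg fun e he =>
    (h.ch_nonneg e (Finset.sdiff_subset he)).trans (h.ch_le e (Finset.sdiff_subset he))
  have hLin : ∑ e ∈ F \ O, l e ≤ 6 * min 1 a := by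
    have := Finset.sum_le_card_nsmul (F \ O) l _ hin
    rw [hcard, nsmul_eq_mul] at this
    push_cast at this
    linarith
  have hlf : l f ≤ 3 * min 1 a + a / 20 := hout f (by rw [hf]; exact Finset.mem_singleton_self f)
  have hW' : W = (1 - c1) * ∑ e ∈ O, (l e - cT * ch e) - 16 / 125 := by
    rw [hW, hF, hO1]
    unfold eps
    push_cast
    ring
  rw [hW']
  unfold c1
  generalize hYd : ∑ e ∈ O, (l e - cT * ch e) = Y at *
  have hY0 : 0 ≤ Y := by linarith
  have hm0 : 0 < min 1 a := lt_min one_pos ha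
  have hm1 : min 1 a ≤ 1 := min_le_left _ _
  have hma : min 1 a ≤ a := min_le_right _ _
  have hs0 : 0 < √(min 1 a) := Real.sqrt_pos.2 hm0
  have hs2 : √(min 1 a) ^ 2 = min 1 a := Real.sq_sqrt hm0.le
  have hs1 : √(min 1 a) ≤ 1 := Real.sqrt_le_one.2 hm1
  have hsa : √(min 1 a) ≤ √a := Real.sqrt_le_sqrt hma
  have hslow : 0.631 ≤ √(min 1 a) := by
    rcases le_total a 1 with h1 | h1
    · rw [min_eq_right h1] at hLin hlf hs0 hs2 hs1 ⊢
      have h2 : 5.71387 * √a ≤ 9.05 * √a ^ 2 := by rw [hs2]; linarith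
      have h3 : √a * 5.71387 ≤ √a * (9.05 * √a) := by linarith
      have h4 := le_of_mul_le_mul_left h3 hs0
      linarith
    · rw [min_eq_left h1, Real.sqrt_one]
      norm_num
  generalize hmd : min 1 a = m at *
  generalize √m = s at *
  have hmlow : 0.398 ≤ m := by nlinarith
  have hbe := be_num
  have hA0 := A0_num
  rcases le_total (49 / 100) (A0 * ∑ e ∈ F \ O, y e) with hX | hX
  · -- (R1)
    have h1 : 1.1547004 * (49 / 100) ≤ be * (A0 * ∑ e ∈ F \ O, y e) :=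
      mul_le_mul hbe.1 hX (by norm_num) be_pos.le
    have h2 : 5.71387 * s ≤ ∑ e ∈ F \ O, l e + l f := by linarith
    have h3 : 0 ≤ (s - 0.631) * (1 - s) := mul_nonneg (by linarith) (by linarith)
    linarith
  · -- (R3)
    have hlf1 : l f ≤ 0.3366 := by linarith
    have hlf2 : l f ^ 2 ≤ 0.1134 := by nlinarith
    have hfix := fix_mult h O hO (by rw [hcard]; norm_num) (fun e he => (hin e he).trans (by linarith))
      (φ := arctan 3) (by rw [Real.arctan_pos]; norm_num) (Real.arctan_lt_pi_div_two _)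
      (fun _ => arctan (37 / 50)) (fun _ _ => by rw [Real.arctan_pos]; norm_num)
      (by
        rw [hcard, hf, Finset.sum_singleton]
        push_cast
        exact arc21) (Q := 57 / 1000)
      (by
        rw [hf, Finset.sum_singleton, ct_arctan]
        have h1 := out_Q h hfF (c := 1 / (37 / 50)) (by norm_num)
        norm_num at h1 ⊢
        linarith)
    rw [hcard, Real.tan_arctan] at hfix
    push_cast at hfix
    have hV : 3 * m + 16 / 125 ≤
        (∑ e ∈ F \ O, l e + be * (A0 * ∑ e ∈ F \ O, y e)) / 2 := by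
      refine fix_V hLin0 hfix ?_
      generalize A0 * ∑ e ∈ F \ O, y e = X at *
      have h1 : 2.598076 * m ≤ A0 * a := mul_le_mul hA0.1 hma hm0.le A0_pos.le
      have h2 : 0 ≤ (6 - be * (3 * m + 16 / 125)) * (49 / 100 - X) := by
        refine mul_nonneg ?_ (by linarith)
        have h5 : be * (3 * m + 16 / 125) ≤ 1.1547006 * 3.128 :=
          mul_le_mul hbe.2 (by linarith) (by linarith) (by norm_num)
        linarith
      have h3 : 1.1547004 * (3 * m + 16 / 125) ≤ be * (3 * m + 16 / 125) :=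
        mul_le_mul_of_nonneg_right hbe.1 (by linarith)
      have h4 : 0 ≤ (m - 0.398) * (1 - m) := mul_nonneg (by linarith) (by linarith)
      linarith
    linarith

theorem small11 (h : FaceFacts2 F a l ch y) (O : Finset E) (hO : O ⊆ F) (hO1 : O.card = 1)
    (hF : F.card = 2) (ha : 0 < a) (ha2 : a < 2) (hin : ∀ e ∈ F \ O, l e ≤ 3 * min 1 a)
    (hout : ∀ e ∈ O, l e ≤ 3 * min 1 a + a / 20)
    (hY : ∑ e ∈ O, (l e - cT * ch e) ≤ 221 / 1000) : False := by
  obtain ⟨f, hfF, hf, hl0, hlY⟩ := outer_bd h O hO hO1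
  have hcard : (F \ O).card = 1 := by
    rw [Finset.card_sdiff_of_subset hO]
    omega
  obtain ⟨e, he⟩ := Finset.card_eq_one.1 hcard
  have heI : e ∈ F \ O := by rw [he]; exact Finset.mem_singleton_self e
  have heF : e ∈ F := Finset.sdiff_subset heI
  have hle := hin e heI
  have hlf : l f ≤ 3 * min 1 a + a / 20 := hout f (by rw [hf]; exact Finset.mem_singleton_self f)
  have hle0 : 0 ≤ l e := (h.ch_nonneg e heF).trans (h.ch_le e heF)
  have hy := face_two h (by rw [hF])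
  have hsumy : ∑ e ∈ F, y e = y e + y f := by
    rw [← Finset.sum_sdiff hO, hf, Finset.sum_singleton, ← hf, he, Finset.sum_singleton]
  rw [hsumy] at hy
  have h1 := edge_half h heF
  have h2 := edge_half h hfF
  have hpi := Real.pi_gt_d4
  have hA0 := A0_num
  have h3 : A0 * a ≤ A0 * |y e| + A0 * |y f| := by
    rw [← mul_add]
    exact mul_le_mul_of_nonneg_left (by linarith [le_abs_self (y e), le_abs_self (y f)]) A0_pos.le
  have h4 : 16.32 * a ≤ l e ^ 2 + l f ^ 2 := by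
    have h5 : 2 * π * (A0 * a) ≤ l e ^ 2 + l f ^ 2 := by
      have h6 := mul_le_mul_of_nonneg_left h3 (by positivity : (0 : ℝ) ≤ 2 * π)
      linarith
    have h7 : 2.598076 * a ≤ A0 * a := mul_le_mul_of_nonneg_right hA0.1 ha.le
    have h8 : 6.283 * (2.598076 * a) ≤ 2 * π * (A0 * a) :=
      mul_le_mul (by linarith) h7 (by positivity) (by positivity)
    linarith
  have hlf1 : l f ≤ 0.462 := by linarith
  have hlf2 : l f ^ 2 ≤ 0.2135 := by nlinarith
  rcases le_total a 1 with h5 | h5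
  · rw [min_eq_right h5] at hle hlf
    have h6 : l e ^ 2 ≤ 9 * a ^ 2 := by nlinarith
    have h7 : l f ^ 2 ≤ 9.3025 * a ^ 2 := by nlinarith
    have h8 : 0.89 ≤ a := by
      by_contra hcon
      push Not at hcon
      nlinarith
    nlinarith
  · rw [min_eq_left h5] at hle
    have h6 : l e ^ 2 ≤ 9 := by nlinarith
    nlinarith

end Pool.Agent.Helper38.LC2
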