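import Pool.Agent.Helper38.LC2.Star
import Pool.Agent.Helper38.LC2.Small
import Pool.Agent.Helper38.LC2.Big
import Pool.Agent.Helper38.LC2.Int2
import Pool.Agent.Helper38.LC2.Int6

/-!
# LC2-24: the two local inequalities

* `interior_face`: the cases `F.card = 2, …, 8`, `≥ 9`; `be * (A0 * ∑ y) = 3 * ∑ y` (`be_A0`).
* `boundary_face`: `Y = ∑ O (l - cT ch) ≥ 0`, `W = (1 - c1) Y + eps/2 (F.card + O.card - 6)`, `X = A0 ∑ (F \ O) y`.
  `∑ F l = ∑ (F \ O) l + ∑ O l` (`Finset.sum_sdiff`).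
  If `a < 2`: right - left `= 2 ((∑ (F \ O) l + be X)/2 - (3 min 1 a - W))` (`kap = 2 cT (1 - c1)`, `kap1 = 2 c1`, so `2 ∑ O l - kap ∑ O ch - kap1 ∑ O l = 2 (1 - c1) Y`), so it is
  to show `3 m - W ≤ (∑ (F \ O) l + be X)/2`, `m = min 1 a`.  If `3m - W ≤ 0`: `nonneg_in`.  If `F.card + O.card ≥ 6`: `core_six`.  Otherwise (`2 O.card ≤ F.card`) `O.card = 1` and
  `F.card = 2, 3, 4`: `small11`, `small21`, `small31` if `Y ≤ .221`, `.161`, `.081`, and otherwise `W ≥ .028`, `.032`, `.016` and `core_small`.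
  If `a ≥ 2`: `min 1 a = 1`, `l e ≤ 3`, `2 ∑ O l - kap ∑ O l - kap1 ∑ O l = 2 (1 - c1)(1 - cT) ∑ O l` and `big`.
-/

namespace Pool.Agent.Helper38.LC2

open Finset Real Pool.Agent.Helper98.LC

variable {E : Type} [DecidableEq E] {F : Finset E} {a : ℝ} {l ch y : E → ℝ}

/-- The inequality for a class without outer edges. -/
theorem interior_face (h : FaceFacts2 F a l ch y) (ha : 0 < a) (h2 : 2 ≤ F.card)
    (hin : ∀ e ∈ F, l e ≤ 3 * min 1 a) :
    6 * min 1 a + eps * (6 - (F.card : ℝ)) ≤ ∑ e ∈ F, l e + 3 * ∑ e ∈ F, y e := by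
  have hX : be * (A0 * ∑ e ∈ F, y e) = 3 * ∑ e ∈ F, y e := by
    rw [← mul_assoc, be_A0]
  rw [← hX]
  rcases Nat.lt_or_ge F.card 9 with h9 | h9
  · have hc : F.card = 2 ∨ F.card = 3 ∨ F.card = 4 ∨ F.card = 5 ∨ F.card = 6 ∨ F.card = 7 ∨
        F.card = 8 := by omega
    rcases hc with hc | hc | hc | hc | hc | hc | hc
    · have := int_two h ha hc hin
      rw [hc]
      push_cast
      linarith
    · have := int_three h ha hc hin
      rw [hc]
      push_cast
      linarith
    · have := int_four h ha hc hin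
      rw [hc]
      push_cast
      linarith
    · have := int_five h ha hc hin
      rw [hc]
      push_cast
      linarith
    · have := int_six h ha hc hin
      rw [hc]
      push_cast
      linarith
    · have := int_seven h ha hc hin
      rw [hc]
      push_cast
      linarith
    · have := int_eight h ha hc hin
      rw [hc]
      push_cast
      linarith
  · have := int_many h ha h9 hin
    linarith

/-- the central estimate for `a < 2` -/
private theorem bf_key (h : FaceFacts2 F a l ch y) (ha : 0 < a) (ha2 : a < 2) (O : Finset E)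
    (hO : O ⊆ F) (hO1 : 1 ≤ O.card) (hO2 : 2 * O.card ≤ F.card)
    (hin : ∀ e ∈ F \ O, l e ≤ 3 * min 1 a)
    (hout : ∀ e ∈ O, l e ≤ 3 * min 1 a + a / 20) {W : ℝ}
    (hW : W = (1 - c1) * ∑ e ∈ O, (l e - cT * ch e) +
      eps / 2 * ((F.card : ℝ) + O.card - 6)) :
    3 * min 1 a - W ≤ (∑ e ∈ F \ O, l e + be * (A0 * ∑ e ∈ F \ O, y e)) / 2 := by
  have hm1 : min 1 a ≤ 1 := min_le_left _ _
  have hma : min 1 a ≤ a := min_le_right _ _
  have hin3 : ∀ e ∈ F \ O, l e ≤ 3 := fun e he => (hin e he).trans (by linarith)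
  rcases le_or_gt (3 * min 1 a - W) 0 with hV | hV
  · exact hV.trans (nonneg_in h (F \ O) Finset.sdiff_subset hin3).2
  rcases Nat.lt_or_ge (F.card + O.card) 6 with h6 | h6
  swap
  · exact core_six h O hO hO1 hO2 h6 hin3 hm1 hma hW hV
  have hOc : O.card = 1 := by omega
  have hFc : F.card = 2 ∨ F.card = 3 ∨ F.card = 4 := by omega
  rcases hFc with hF | hF | hF
  · rcases le_or_gt (∑ e ∈ O, (l e - cT * ch e)) (221 / 1000) with hY | hY
    · exact absurd (small11 h O hO hOc hF ha ha2 hin hout hY) (fun h => h)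
    · refine core_small h O hO hOc (by omega) (by omega) hin3 hm1 hma hW hV
        (Or.inr (Or.inr ⟨hF, ?_⟩))
      rw [hW, hF, hOc]
      unfold c1 eps
      push_cast
      linarith
  · rcases le_or_gt (∑ e ∈ O, (l e - cT * ch e)) (161 / 1000) with hY | hY
    · exact small21 h O hO hOc hF ha ha2 hin hout hY hW
    · refine core_small h O hO hOc (by omega) (by omega) hin3 hm1 hma hW hV
        (Or.inr (Or.inl ⟨hF, ?_⟩))
      rw [hW, hF, hOc]
      unfold c1 eps
      push_cast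
      linarith
  · rcases le_or_gt (∑ e ∈ O, (l e - cT * ch e)) (81 / 1000) with hY | hY
    · exact small31 h O hO hOc hF ha ha2 hin hout hY hW
    · refine core_small h O hO hOc (by omega) (by omega) hin3 hm1 hma hW hV
        (Or.inl ⟨hF, ?_⟩)
      rw [hW, hF, hOc]
      unfold c1 eps
      push_cast
      linarith

/-- The inequality for a class with outer edges `O`. -/
theorem boundary_face (h : FaceFacts2 F a l ch y) (ha : 0 < a) (O : Finset E) (hO : O ⊆ F)
    (hO1 : 1 ≤ O.card) (hO2 : 2 * O.card ≤ F.card) (hin : ∀ e ∈ F \ O, l e ≤ 3 * min 1 a)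
    (hout : ∀ e ∈ O, l e ≤ 3 * min 1 a + a / 20) :
    6 * min 1 a + eps * (6 - (F.card : ℝ) - O.card) +
        kap * ∑ e ∈ O, (if a < 2 then ch e else l e) + kap1 * ∑ e ∈ O, l e ≤
      ∑ e ∈ F, l e + ∑ e ∈ O, l e + 3 * ∑ e ∈ F \ O, y e := by
  have hX : be * (A0 * ∑ e ∈ F \ O, y e) = 3 * ∑ e ∈ F \ O, y e := by
    rw [← mul_assoc, be_A0]
  rw [← hX, ← Finset.sum_sdiff hO]
  by_cases ha2 : a < 2
  · have hch : ∑ e ∈ O, (if a < 2 then ch e else l e) = ∑ e ∈ O, ch e :=
      Finset.sum_congr rfl fun e _ => if_pos ha2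
    rw [hch]
    have hkey := bf_key h ha ha2 O hO hO1 hO2 hin hout rfl
    have hYs : ∑ e ∈ O, (l e - cT * ch e) = ∑ e ∈ O, l e - cT * ∑ e ∈ O, ch e := by
      rw [Finset.sum_sub_distrib, Finset.mul_sum]
    rw [hYs] at hkey
    unfold kap kap1
    linarith
  · have ha2' : 2 ≤ a := not_lt.1 ha2
    have hm : min 1 a = 1 := min_eq_left (by linarith)
    have hch : ∑ e ∈ O, (if a < 2 then ch e else l e) = ∑ e ∈ O, l e :=
      Finset.sum_congr rfl fun e _ => if_neg ha2
    rw [hch, hm]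
    rw [hm] at hin
    have hb := big h O hO hO1 (by omega) ha2' (fun e he => (hin e he).trans (by norm_num))
    unfold kap kap1
    linarith

end Pool.Agent.Helper38.LC2
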