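import Pool.Agent.Helper38.LC2.Trig

/-!
# LC2-06: equal inner angles

`I` the inner edges, `k = I.card ≥ 1`, `S = ∑ I ch ≥ 0`.
* `mix`: if `S = 0` then `ch e = 0` for `e ∈ I`; take the angles `φ` on `I` and `ψ` on `F \ I`.
  If `S > 0`: `t e = k ch e / S - 1 ≥ -1`, `∑ I t = 0`, angles `φ e = φ + t e sin φ cos φ` for `e ∈ I` (positive by `alpha_pos`, sum over `I` is `k φ`, each is
  `≤` the total sum `< π`), `ψ e` for `e ∈ F \ I`.  `FaceFacts2.poly`, and for `e ∈ I`: `ch e = (S/k) (1 + t e)`, so by `ang1`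
  `ct (φ e) ch e² ≤ (S/k)² ct φ (1 + t e)`; the sum over `I` is `(S/k)² ct φ k = ct φ S² / k`.
-/

namespace Pool.Agent.Helper38.LC2

open Finset Real Pool.Agent.Helper98.LC

private theorem mix_split {E : Type} [DecidableEq E] {F I : Finset E} (hI : I ⊆ F) (f g : E → ℝ) :
    ∑ e ∈ F, (if e ∈ I then f e else g e) = ∑ e ∈ I, f e + ∑ e ∈ F \ I, g e := by
  rw [← sum_sdiff hI, add_comm]
  congr 1
  · exact sum_congr rfl fun e he => if_pos he
  · exact sum_congr rfl fun e he => if_neg (mem_sdiff.mp he).2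

theorem mix {E : Type} [DecidableEq E] {F : Finset E} {a : ℝ} {l ch y : E → ℝ}
    (h : FaceFacts2 F a l ch y) (I : Finset E) (hI : I ⊆ F) (hk : 1 ≤ I.card) {φ : ℝ} (h0 : 0 < φ)
    (h1 : φ < π / 2) (ψ : E → ℝ) (hψ : ∀ e ∈ F \ I, 0 < ψ e)
    (hs : (I.card : ℝ) * φ + ∑ e ∈ F \ I, ψ e < π) :
    4 * (A0 * (a - ∑ e ∈ F, y e)) ≤
      ct φ * (∑ e ∈ I, ch e) ^ 2 / I.card + ∑ e ∈ F \ I, ct (ψ e) * ch e ^ 2 := by
  have hch : ∀ e ∈ I, 0 ≤ ch e := fun e he => h.ch_nonneg e (hI he)
  have hkr : (1 : ℝ) ≤ (I.card : ℝ) := by exact_mod_cast hk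
  have hkp : (0 : ℝ) < (I.card : ℝ) := by linarith
  set k : ℝ := (I.card : ℝ) with hkdef
  set S : ℝ := ∑ e ∈ I, ch e with hS
  have hS0 : 0 ≤ S := sum_nonneg hch
  rcases eq_or_lt_of_le hS0 with hz | hpos
  · -- all chords of `I` are zero
    have hz' : ∀ e ∈ I, ch e = 0 := (sum_eq_zero_iff_of_nonneg hch).mp (by rw [← hS, ← hz])
    have hp := h.poly (fun e => if e ∈ I then φ else ψ e)
      (by
        intro e he
        by_cases hei : e ∈ I
        · simp only [if_pos hei]; exact h0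
        · simp only [if_neg hei]; exact hψ e (mem_sdiff.mpr ⟨he, hei⟩))
      (by
        rw [mix_split hI (fun _ => φ) ψ, sum_const, nsmul_eq_mul]
        exact hs)
    have he : ∑ e ∈ F, ct (if e ∈ I then φ else ψ e) * ch e ^ 2 =
        ∑ e ∈ F \ I, ct (ψ e) * ch e ^ 2 := by
      have e1 : ∑ e ∈ F, ct (if e ∈ I then φ else ψ e) * ch e ^ 2 =
          ∑ e ∈ F, (if e ∈ I then (0 : ℝ) else ct (ψ e) * ch e ^ 2) := by
        refine sum_congr rfl fun e _ => ?_
        by_cases hei : e ∈ I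
        · simp only [if_pos hei, hz' e hei]
          ring
        · simp only [if_neg hei]
      rw [e1, mix_split hI (fun _ => (0 : ℝ)) (fun e => ct (ψ e) * ch e ^ 2), sum_const_zero,
        zero_add]
    rw [he] at hp
    rw [← hz]
    have e2 : ct φ * (0 : ℝ) ^ 2 / k = 0 := by simp
    rw [e2, zero_add]
    exact hp
  · set t : E → ℝ := fun e => k * ch e / S - 1 with ht
    have ht1 : ∀ e ∈ I, -1 ≤ t e := by
      intro e he
      have : 0 ≤ k * ch e / S := div_nonneg (mul_nonneg hkp.le (hch e he)) hS0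
      simp only [ht]
      linarith
    have htsum : ∑ e ∈ I, t e = 0 := by
      simp only [ht]
      rw [sum_sub_distrib, ← sum_div, ← mul_sum, ← hS, sum_const, nsmul_eq_mul, mul_one,
        mul_div_assoc, div_self hpos.ne', mul_one]
      exact sub_self _
    set θ : E → ℝ := fun e => φ + t e * (Real.sin φ * Real.cos φ) with hθ
    have hθpos : ∀ e ∈ I, 0 < θ e := fun e he => alpha_pos h0 h1 (ht1 e he)
    have hθsum : ∑ e ∈ I, θ e = k * φ := by
      simp only [hθ]
      rw [sum_add_distrib, ← sum_mul, htsum, zero_mul, add_zero, sum_const, nsmul_eq_mul]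
    have hψs : 0 ≤ ∑ e ∈ F \ I, ψ e := sum_nonneg fun e he => (hψ e he).le
    have hθlt : ∀ e ∈ I, θ e < π := by
      intro e he
      have := single_le_sum (f := θ) (fun i hi => (hθpos i hi).le) he
      rw [hθsum] at this
      linarith
    have hp := h.poly (fun e => if e ∈ I then θ e else ψ e)
      (by
        intro e he
        by_cases hei : e ∈ I
        · simp only [if_pos hei]; exact hθpos e hei
        · simp only [if_neg hei]; exact hψ e (mem_sdiff.mpr ⟨he, hei⟩))
      (by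
        rw [mix_split hI θ ψ, hθsum]
        exact hs)
    have e1 : ∑ e ∈ F, ct (if e ∈ I then θ e else ψ e) * ch e ^ 2 =
        ∑ e ∈ I, ct (θ e) * ch e ^ 2 + ∑ e ∈ F \ I, ct (ψ e) * ch e ^ 2 := by
      rw [← mix_split hI (fun e => ct (θ e) * ch e ^ 2) (fun e => ct (ψ e) * ch e ^ 2)]
      refine sum_congr rfl fun e _ => ?_
      by_cases hei : e ∈ I
      · simp only [if_pos hei]
      · simp only [if_neg hei]
    rw [e1] at hp
    have e2 : ∑ e ∈ I, ct (θ e) * ch e ^ 2 ≤ ct φ * S ^ 2 / k := by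
      have e3 : ∀ e ∈ I, ct (θ e) * ch e ^ 2 ≤ (S / k) ^ 2 * (ct φ * (1 + t e)) := by
        intro e he
        have hc : ch e = (S / k) * (1 + t e) := by
          simp only [ht]
          field_simp
          ring
        have ha := ang1 h0 h1 (ht1 e he) (hθlt e he)
        calc ct (θ e) * ch e ^ 2 = (S / k) ^ 2 * (ct (θ e) * (1 + t e) ^ 2) := by
              rw [hc]; ring
          _ ≤ (S / k) ^ 2 * (ct φ * (1 + t e)) :=
              mul_le_mul_of_nonneg_left ha (sq_nonneg _)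
      refine (sum_le_sum e3).trans (le_of_eq ?_)
      rw [← mul_sum, ← mul_sum, sum_add_distrib, htsum, sum_const, nsmul_eq_mul, mul_one, add_zero,
        ← hkdef]
      field_simp
    linarith

end Pool.Agent.Helper38.LC2
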