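import Pool.Agent.Helper38.LC2.Chain

/-!
# LC2-03: closed polygons with arbitrary angles, several cycles

For every `e` let `n` be the length of the cycle of `e` (`s ^ n e = e`, the elements `s ^ j e`, `j < n`, are different and are the whole
cycle).  `chain_ineq` for the path `p j = P (s^j e)`, `k = n`, `φ j = phi (s^j e)` (their sum is at most the sum of all angles, `< π`): `p n = p 0`, so the
chord term vanishes and `pbul p n = (∑ j < n, cr (P (s^j e)) (P (s^(j+1) e))) / 2`.  So
`2 ∑_{cycle} cr (P d) (P (s d)) ≤ ∑_{cycle} ct (phi d) ‖P (s d) - P d‖²`.  Sum over the cycles (the cycles form a partition of `E`: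
`Equiv.Perm.SameCycle` classes, `Finset.sum_fiberwise` / `Finset.sum_partition`; or `Equiv.Perm.IsCycleOn`; fixed points are cycles of length 1).
Alternative without orbits: induction on `card E`: if `s = 1` everything is `0 ≤ 0`.  Otherwise take `e` with `s e ≠ e`, `e' = s⁻¹ e`, remove `e`
(the permutation `s' = swap .. * s` restricted to the others maps `e'` to `s e`), give `e'` the angle `phi e' + phi e`, and use `ch_two` for
`z = P e - P e'`, `w = P (s e) - P e`.
`poly_paths`: `∑ parea = ∑ pbul + ∑ cr (p e 0) (p (s e) 0) / 2`.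
-/

namespace Pool.Agent.Helper38.LC2

open Finset Real Pool.Agent.Helper98.LC

private theorem poly_cycle {E : Type} [Fintype E] [DecidableEq E] (s : Equiv.Perm E)
    (hs : s.IsCycle) (P : E → ℂ) (phi : E → ℝ) (hphi : ∀ e, 0 < phi e)
    (hsum : ∑ e ∈ s.support, phi e < π) :
    2 * ∑ e ∈ s.support, cr (P e) (P (s e)) ≤
      ∑ e ∈ s.support, ct (phi e) * ‖P (s e) - P e‖ ^ 2 := by
  obtain ⟨x, hx, -⟩ := id hs
  have hcyc : s.IsCycleOn (s.support : Set E) := by
    have h := hs.isCycleOn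
    have h2 : {y : E | s y ≠ y} = (s.support : Set E) := by
      ext y
      simp
    rwa [h2] at h
  have hxs : x ∈ s.support := Equiv.Perm.mem_support.mpr hx
  have hn1 : 1 ≤ s.support.card := Finset.card_pos.mpr ⟨x, hxs⟩
  have hre : ∀ f : E → ℝ, ∑ e ∈ s.support, f e = ∑ j ∈ range s.support.card, f ((s ^ j) x) := by
    intro f
    symm
    refine Finset.sum_bij (fun j _ => (s ^ j) x) ?_ ?_ ?_ ?_
    · intro j _
      rw [Equiv.Perm.pow_apply_mem_support]
      exact hxs
    · intro a ha b hb hab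
      have h := (hcyc.pow_apply_eq_pow_apply hxs).mp hab
      exact Nat.ModEq.eq_of_lt_of_lt h (Finset.mem_range.mp ha) (Finset.mem_range.mp hb)
    · intro b hb
      obtain ⟨n, hn, hn2⟩ := hcyc.exists_pow_eq hxs hb
      exact ⟨n, Finset.mem_range.mpr hn, hn2⟩
    · intro j _
      rfl
  have hstep : ∀ j : ℕ, s ((s ^ j) x) = (s ^ (j + 1)) x := by
    intro j
    rw [pow_succ', Equiv.Perm.mul_apply]
  have hend : (s ^ s.support.card) x = x := (hcyc.pow_apply_eq hxs).mpr dvd_rfl
  rw [hre] at hsum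
  have h := chain_ineq (fun j => P ((s ^ j) x)) s.support.card hn1 (fun j => phi ((s ^ j) x))
    (fun j _ => hphi _) hsum
  have e1 : pbul (fun j => P ((s ^ j) x)) s.support.card =
      (∑ j ∈ range s.support.card, cr (P ((s ^ j) x)) (P ((s ^ (j + 1)) x))) / 2 := by
    unfold pbul parea
    simp only [hend, pow_zero, Equiv.Perm.coe_one, id_eq]
    unfold cr
    ring
  rw [e1] at h
  simp only [hend, pow_zero, Equiv.Perm.coe_one, id_eq, sub_self, norm_zero] at h
  rw [hre, hre]
  simp only [hstep]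
  linarith

private theorem poly_supp {E : Type} [Fintype E] [DecidableEq E] (s : Equiv.Perm E)
    (P : E → ℂ) (phi : E → ℝ) (hphi : ∀ e, 0 < phi e) :
    ∑ e ∈ s.support, phi e < π →
    2 * ∑ e ∈ s.support, cr (P e) (P (s e)) ≤
      ∑ e ∈ s.support, ct (phi e) * ‖P (s e) - P e‖ ^ 2 := by
  induction s using Equiv.Perm.cycle_induction_on with
  | base_one => simp
  | base_cycles σ hσ => exact poly_cycle σ hσ P phi hphi
  | induction_disjoint σ τ hd hσ ih1 ih2 =>
    intro hsum
    have hdis := Equiv.Perm.disjoint_iff_disjoint_support.mp hd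
    rw [hd.support_mul] at hsum ⊢
    rw [Finset.sum_union hdis] at hsum
    rw [Finset.sum_union hdis, Finset.sum_union hdis]
    have hp1 : 0 ≤ ∑ e ∈ σ.support, phi e := Finset.sum_nonneg fun e _ => (hphi e).le
    have hp2 : 0 ≤ ∑ e ∈ τ.support, phi e := Finset.sum_nonneg fun e _ => (hphi e).le
    have h1 := ih1 (by linarith)
    have h2 := ih2 (by linarith)
    have f1 : ∀ e ∈ σ.support, (σ * τ) e = σ e := by
      intro e he
      have h3 : e ∉ τ.support := Finset.disjoint_left.mp hdis he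
      rw [Equiv.Perm.mul_apply, Equiv.Perm.notMem_support.mp h3]
    have f2 : ∀ e ∈ τ.support, (σ * τ) e = τ e := by
      intro e he
      have h4 : τ e ∈ τ.support := Equiv.Perm.apply_mem_support.mpr he
      have h3 : τ e ∉ σ.support := Finset.disjoint_right.mp hdis h4
      rw [Equiv.Perm.mul_apply, Equiv.Perm.notMem_support.mp h3]
    have g1 : ∑ e ∈ σ.support, cr (P e) (P ((σ * τ) e)) = ∑ e ∈ σ.support, cr (P e) (P (σ e)) :=
      Finset.sum_congr rfl fun e he => by rw [f1 e he]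
    have g2 : ∑ e ∈ τ.support, cr (P e) (P ((σ * τ) e)) = ∑ e ∈ τ.support, cr (P e) (P (τ e)) :=
      Finset.sum_congr rfl fun e he => by rw [f2 e he]
    have g3 : ∑ e ∈ σ.support, ct (phi e) * ‖P ((σ * τ) e) - P e‖ ^ 2 =
        ∑ e ∈ σ.support, ct (phi e) * ‖P (σ e) - P e‖ ^ 2 :=
      Finset.sum_congr rfl fun e he => by rw [f1 e he]
    have g4 : ∑ e ∈ τ.support, ct (phi e) * ‖P ((σ * τ) e) - P e‖ ^ 2 =
        ∑ e ∈ τ.support, ct (phi e) * ‖P (τ e) - P e‖ ^ 2 :=
      Finset.sum_congr rfl fun e he => by rw [f2 e he]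
    rw [g1, g2, g3, g4]
    linarith

theorem poly_theta {E : Type} [Fintype E] [DecidableEq E] (s : Equiv.Perm E) (P : E → ℂ)
    (phi : E → ℝ) (hphi : ∀ e, 0 < phi e) (hs : ∑ e, phi e < π) :
    2 * ∑ e, cr (P e) (P (s e)) ≤ ∑ e, ct (phi e) * ‖P (s e) - P e‖ ^ 2 := by
  have h0 : ∑ e ∈ s.support, phi e ≤ ∑ e, phi e :=
    Finset.sum_le_sum_of_subset_of_nonneg (Finset.subset_univ _) fun e _ _ => (hphi e).le
  have h1 := poly_supp s P phi hphi (by linarith)
  have h2 : ∑ e ∈ s.support, cr (P e) (P (s e)) = ∑ e, cr (P e) (P (s e)) := by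
    refine Finset.sum_subset (Finset.subset_univ _) fun e _ he => ?_
    rw [Equiv.Perm.notMem_support.mp he]
    unfold cr
    ring
  have h3 : ∑ e ∈ s.support, ct (phi e) * ‖P (s e) - P e‖ ^ 2 =
      ∑ e, ct (phi e) * ‖P (s e) - P e‖ ^ 2 := by
    refine Finset.sum_subset (Finset.subset_univ _) fun e _ he => ?_
    rw [Equiv.Perm.notMem_support.mp he]
    simp
  rw [← h2, ← h3]
  exact h1

theorem poly_paths {E : Type} [Fintype E] [DecidableEq E] (s : Equiv.Perm E) (k : E → ℕ)
    (p : E → ℕ → ℂ) (hp : ∀ e, p e (k e) = p (s e) 0) (phi : E → ℝ) (hphi : ∀ e, 0 < phi e)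
    (hs : ∑ e, phi e < π) :
    4 * (∑ e, parea (p e) (k e) - ∑ e, pbul (p e) (k e)) ≤
      ∑ e, ct (phi e) * ‖p e (k e) - p e 0‖ ^ 2 := by
  have h := poly_theta s (fun e => p e 0) phi hphi hs
  have h1 : ∑ e, parea (p e) (k e) - ∑ e, pbul (p e) (k e) =
      (∑ e, cr (p e 0) (p (s e) 0)) / 2 := by
    rw [← Finset.sum_sub_distrib, Finset.sum_div]
    refine Finset.sum_congr rfl fun e _ => ?_
    unfold pbul
    rw [hp]
    ring
  have h2 : ∑ e, ct (phi e) * ‖p e (k e) - p e 0‖ ^ 2 =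
      ∑ e, ct (phi e) * ‖p (s e) 0 - p e 0‖ ^ 2 := by
    refine Finset.sum_congr rfl fun e _ => ?_
    rw [hp]
  rw [h1, h2]
  linarith

end Pool.Agent.Helper38.LC2
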