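import Pool.Agent.Helper38.LC2.StarGen
import Pool.Agent.Helper38.LC2.ArcNum

/-!
# LC2-17: the condition `StarP` for `k + 2 B ≤ 5` and `k + 2 B ≥ 11`

`star_piece` with (`E = eps / 2 * (k + 2 B - 6) < 0`; `p, q, T` are rounded bounds of `psi (2 arctan u)`, `gg (2 arctan u)`, `arctan t`)
* (3,1), `E = -.064`, `[.016, .8]`: u = .225, t = .97, p = .8425, q = .2191, T = .7703 (slack .026); `[.8, 3]`: u = .305, t = .79, p = 1.0663, q = .3009,
  T = .6687 (slack .04)
* (2,1), `E = -.128`, `[.032, 3]`: u = .42, t = 1.27, p = 1.3259, q = .4227, T = .9039 (slack .022)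
* (1,1), `E = -.192`, `[.028, 3]`: u = .445, t = 1.59, p = 1.3744, q = .4498, T = 1.0095 (slack .15)
`p`: `psi_two`; with `x = (1 - u² - c(1 + u²))/(2u)`: `arctan_quarter` (then `π/4 + arctan ((1-x)/(1+x))`, `arctan_upper`, `Real.pi_lt_d6`), or directly
`π/2 - arctan x` with `arctan_lower` for small `x`.  `q`: `gg_two`, `arctan_lower`.  `T`: `arctan_quarter` (for `t > 1` the argument `(1-t)/(1+t)` is negative,
`Real.arctan_neg`).  The two values of `Fst`: `norm_num [Fst, DU, cT, eps, c1]`.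
* `star_big`: `E ≥ .32`, `Y = (W - E)/(1 - c1) ≥ 0`, `E ≤ W < 3`.  Take `θ₀` with `psi θ₀ < 1/(100 B)` (`psi_small`, `B ≥ 1`); `gg θ₀ / DD θ₀ ≥ 0`.
  `1/DD θ₀ ≤ 1/(1 - cT)² ≤ 4.3686` (`DD_pos`), `be ≤ 1.1547006`, `be Y²/(4W)/DD θ₀ ≤ 1.2612 (W - E)²/W ≤ 1.2612 (W - E)(3 - E)/3`
  (`(W - E)/W ≤ (3 - E)/3` since `E ≥ 0`, `W ≤ 3`), `k arctan (be (3 - W)/k) ≤ be (3 - W)` (`arctan x ≤ x`).
  The sum `1.2612 (W - E)(3 - E)/3 + 1.1547006 (3 - W)` is affine in `W`: at `W = E` it is `≤ 1.1547006 * 2.68 < 3.0947`, at `W = 3` it is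
  `1.2612 (3 - E)²/3 ≤ 3.02`.
-/

namespace Pool.Agent.Helper38.LC2

open Finset Real Pool.Agent.Helper98.LC

private theorem s5_psi_a {u x p : ℝ} (hu : 0 < u) (hu1 : u < 1) (hx0 : 0 < x) (hx1 : x ≤ 1)
    (hx : x * (2 * u) ≤ 1 - u ^ 2 - cT * (1 + u ^ 2))
    (hp : 3.141593 / 4 + ((1 - x) / (1 + x) - ((1 - x) / (1 + x)) ^ 3 / 3 +
      ((1 - x) / (1 + x)) ^ 5 / 5 - ((1 - x) / (1 + x)) ^ 7 / 7 + ((1 - x) / (1 + x)) ^ 9 / 9) ≤ p) :
    psi (2 * arctan u) ≤ p := by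
  rw [psi_two hu hu1]
  have h1 : x ≤ (1 - u ^ 2 - cT * (1 + u ^ 2)) / (2 * u) := by
    rw [le_div_iff₀ (by linarith)]
    exact hx
  have h2 : arctan x ≤ arctan ((1 - u ^ 2 - cT * (1 + u ^ 2)) / (2 * u)) :=
    arctan_strictMono.monotone h1
  have h3 := arctan_quarter hx0
  have h4 : 0 ≤ (1 - x) / (1 + x) := div_nonneg (by linarith) (by linarith)
  have h5 := arctan_upper h4
  have h6 := Real.pi_lt_d6
  linarith

private theorem s5_psi_c {u x p : ℝ} (hu : 0 < u) (hu1 : u < 1) (hx0 : 0 < x)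
    (hx : x * (2 * u) ≤ 1 - u ^ 2 - cT * (1 + u ^ 2))
    (hp : 3.141593 / 2 - (x - x ^ 3 / 3 + x ^ 5 / 5 - x ^ 7 / 7 + x ^ 9 / 9 - x ^ 11 / 11) ≤ p) :
    psi (2 * arctan u) ≤ p := by
  rw [psi_two hu hu1]
  have h1 : x ≤ (1 - u ^ 2 - cT * (1 + u ^ 2)) / (2 * u) := by
    rw [le_div_iff₀ (by linarith)]
    exact hx
  have h2 : arctan x ≤ arctan ((1 - u ^ 2 - cT * (1 + u ^ 2)) / (2 * u)) :=
    arctan_strictMono.monotone h1
  have h5 := arctan_lower hx0.le
  have h6 := Real.pi_lt_d6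
  linarith

private theorem s5_gg {u q : ℝ} (hu : 0 < u) (hu1 : u < 1)
    (hq : q ≤ 2 * (u - u ^ 3 / 3 + u ^ 5 / 5 - u ^ 7 / 7 + u ^ 9 / 9 - u ^ 11 / 11) -
      cT * (2 * u / (1 + u ^ 2))) : q ≤ gg (2 * arctan u) := by
  rw [gg_two hu hu1]
  have h1 := arctan_lower hu.le
  linarith

private theorem s5_T {t T : ℝ} (ht : 0 < t) (ht1 : t ≤ 1)
    (hT : 3.141593 / 4 - ((1 - t) / (1 + t) - ((1 - t) / (1 + t)) ^ 3 / 3 +
      ((1 - t) / (1 + t)) ^ 5 / 5 - ((1 - t) / (1 + t)) ^ 7 / 7 + ((1 - t) / (1 + t)) ^ 9 / 9 -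
      ((1 - t) / (1 + t)) ^ 11 / 11) ≤ T) : arctan t ≤ T := by
  rw [arctan_quarter ht]
  have h4 : 0 ≤ (1 - t) / (1 + t) := div_nonneg (by linarith) (by linarith)
  have h5 := arctan_lower h4
  have h6 := Real.pi_lt_d6
  linarith

private theorem s5_T' {t T : ℝ} (ht : 1 ≤ t)
    (hT : 3.141593 / 4 + ((t - 1) / (1 + t) - ((t - 1) / (1 + t)) ^ 3 / 3 +
      ((t - 1) / (1 + t)) ^ 5 / 5 - ((t - 1) / (1 + t)) ^ 7 / 7 + ((t - 1) / (1 + t)) ^ 9 / 9) ≤ T) :
    arctan t ≤ T := by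
  rw [arctan_quarter (by linarith)]
  have h4 : 0 ≤ (t - 1) / (1 + t) := div_nonneg (by linarith) (by linarith)
  have h5 := arctan_upper h4
  have h7 : (1 - t) / (1 + t) = -((t - 1) / (1 + t)) := by
    rw [← neg_div]
    congr 1
    ring
  rw [h7, arctan_neg]
  have h6 := Real.pi_lt_d6
  linarith

theorem star_31 {Y W : ℝ} (hY : W = (1 - c1) * Y - 8 / 125) (h0 : 16 / 1000 ≤ W) (h3 : W ≤ 3) :
    StarP 3 1 Y W := by
  have hY' : W = (1 - c1) * Y + (-8 / 125) := by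
    rw [hY]
    ring
  rcases le_total W 0.8 with hW | hW
  · exact star_piece (k := 3) (B := 1) (by norm_num) (E := -8 / 125) (u := 0.225) (t := 0.97) (p := 0.8425)
      (q := 0.2191) (T := 0.7703) (w0 := 16 / 1000) (w1 := 0.8) (by norm_num) (by norm_num) (by norm_num)
      (s5_psi_a (x := 0.892047) (by norm_num) (by norm_num) (by norm_num) (by norm_num) (by norm_num [cT]) (by norm_num))
      (s5_gg (by norm_num) (by norm_num) (by norm_num [cT]))
      (s5_T (by norm_num) (by norm_num) (by norm_num)) (by norm_num) (Or.inl (by norm_num)) h0 hW (by norm_num)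
      hY' (by norm_num [Fst, DU, cT, c1]) (by norm_num [Fst, DU, cT, c1])
  · exact star_piece (k := 3) (B := 1) (by norm_num) (E := -8 / 125) (u := 0.305) (t := 0.79) (p := 1.0663)
      (q := 0.3009) (T := 0.6687) (w0 := 0.8) (w1 := 3) (by norm_num) (by norm_num) (by norm_num)
      (s5_psi_a (x := 0.552307) (by norm_num) (by norm_num) (by norm_num) (by norm_num) (by norm_num [cT]) (by norm_num))
      (s5_gg (by norm_num) (by norm_num) (by norm_num [cT]))
      (s5_T (by norm_num) (by norm_num) (by norm_num)) (by norm_num) (Or.inl (by norm_num)) hW h3 (by norm_num)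
      hY' (by norm_num [Fst, DU, cT, c1]) (by norm_num [Fst, DU, cT, c1])

theorem star_21 {Y W : ℝ} (hY : W = (1 - c1) * Y - 16 / 125) (h0 : 32 / 1000 ≤ W) (h3 : W ≤ 3) :
    StarP 2 1 Y W := by
  have hY' : W = (1 - c1) * Y + (-16 / 125) := by
    rw [hY]
    ring
  exact star_piece (k := 2) (B := 1) (by norm_num) (E := -16 / 125) (u := 0.42) (t := 1.27) (p := 1.3259)
    (q := 0.4227) (T := 0.9039) (w0 := 32 / 1000) (w1 := 3) (by norm_num) (by norm_num) (by norm_num)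
    (s5_psi_c (x := 0.250057) (by norm_num) (by norm_num) (by norm_num) (by norm_num [cT]) (by norm_num))
    (s5_gg (by norm_num) (by norm_num) (by norm_num [cT]))
    (s5_T' (by norm_num) (by norm_num)) (by norm_num) (Or.inl (by norm_num)) h0 h3 (by norm_num)
    hY' (by norm_num [Fst, DU, cT, c1]) (by norm_num [Fst, DU, cT, c1])

theorem star_11 {Y W : ℝ} (hY : W = (1 - c1) * Y - 24 / 125) (h0 : 28 / 1000 ≤ W) (h3 : W ≤ 3) :
    StarP 1 1 Y W := by
  have hY' : W = (1 - c1) * Y + (-24 / 125) := by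
    rw [hY]
    ring
  exact star_piece (k := 1) (B := 1) (by norm_num) (E := -24 / 125) (u := 0.445) (t := 1.59) (p := 1.3744)
    (q := 0.4498) (T := 1.0095) (w0 := 28 / 1000) (w1 := 3) (by norm_num) (by norm_num) (by norm_num)
    (s5_psi_c (x := 0.199039) (by norm_num) (by norm_num) (by norm_num) (by norm_num [cT]) (by norm_num))
    (s5_gg (by norm_num) (by norm_num) (by norm_num [cT]))
    (s5_T' (by norm_num) (by norm_num)) (by norm_num) (Or.inl (by norm_num)) h0 h3 (by norm_num)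
    hY' (by norm_num [Fst, DU, cT, c1]) (by norm_num [Fst, DU, cT, c1])

theorem star_big {k B : ℕ} (hB : 1 ≤ B) (hk : 1 ≤ k) {Y W E : ℝ} (hE : 32 / 100 ≤ E)
    (hY : W = (1 - c1) * Y + E) (h0 : 0 ≤ Y) (h3 : W ≤ 3) : StarP k B Y W := by
  have hB0 : (1 : ℝ) ≤ B := by exact_mod_cast hB
  have hk0 : (1 : ℝ) ≤ k := by exact_mod_cast hk
  have hBpos : (0 : ℝ) < B := by linarith
  have hkpos : (0 : ℝ) < k := by linarith
  obtain ⟨θ, hθ0, hθπ, hθ⟩ := psi_small (δ := 1 / (100 * B)) (by positivity)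
  refine ⟨θ, hθ0, hθπ, ?_⟩
  obtain ⟨hD1, hD0⟩ := DD_pos θ
  have hgg := gg_pos hθ0
  have hc1 : (1 : ℝ) - c1 = 0.99999 := by norm_num [c1]
  rw [hc1] at hY
  have hWE : E ≤ W := by
    rw [hY]
    nlinarith
  have hW0 : 0 < W := by linarith
  have hbe : be ≤ 1.1547006 := by
    have h1 := be_sq
    have h2 := be_pos
    by_contra hne
    push Not at hne
    nlinarith
  have hbe0 := be_pos
  -- the first term
  have t1 : (B : ℝ) * (psi θ - gg θ / DD θ) ≤ 1 / 100 := by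
    have h1 : 0 ≤ gg θ / DD θ := (div_pos hgg hD0).le
    have h2 : (B : ℝ) * (psi θ - gg θ / DD θ) ≤ B * (1 / (100 * B)) := by
      refine mul_le_mul_of_nonneg_left ?_ hBpos.le
      linarith
    have h3 : (B : ℝ) * (1 / (100 * B)) = 1 / 100 := by
      field_simp
    linarith
  -- the last term
  have t3 : (k : ℝ) * arctan (be * (3 - W) / k) ≤ 1.1547006 * (3 - W) := by
    have h1 : 0 ≤ be * (3 - W) / k := by
      refine div_nonneg (mul_nonneg hbe0.le (by linarith)) hkpos.le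
    have h2 : arctan (be * (3 - W) / k) ≤ be * (3 - W) / k := by
      have h4 := arctan_tangent h1 (le_refl (0 : ℝ))
      rw [arctan_zero] at h4
      simpa using h4
    calc (k : ℝ) * arctan (be * (3 - W) / k) ≤ k * (be * (3 - W) / k) :=
          mul_le_mul_of_nonneg_left h2 hkpos.le
      _ = be * (3 - W) := by field_simp
      _ ≤ 1.1547006 * (3 - W) := mul_le_mul_of_nonneg_right hbe (by linarith)
  -- the middle term
  have t2 : be * Y ^ 2 / (4 * W) / DD θ ≤ 1.2612 * ((W - E) * (3 - E) / 3) := by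
    have hcT : (1 - cT) ^ 2 = (9569 / 20000) ^ 2 := by norm_num [cT]
    rw [hcT] at hD1
    have hinv : (DD θ)⁻¹ ≤ 4.3686 := by
      rw [inv_le_comm₀ hD0 (by norm_num)]
      refine le_trans ?_ hD1
      norm_num
    have hinv0 : 0 < (DD θ)⁻¹ := inv_pos.2 hD0
    have hYa : Y ^ 2 ≤ 1.00003 * (W - E) ^ 2 := by
      have h1 : W - E = 0.99999 * Y := by linarith
      rw [h1, mul_pow]
      nlinarith [sq_nonneg Y]
    have hfrac : (W - E) ^ 2 / W ≤ (W - E) * (3 - E) / 3 := by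
      rw [div_le_div_iff₀ hW0 (by norm_num)]
      have h1 : 0 ≤ W - E := by linarith
      have h2 : 3 * (W - E) ≤ (3 - E) * W := by nlinarith
      nlinarith [mul_le_mul_of_nonneg_left h2 h1]
    have hfr0 : 0 ≤ (W - E) ^ 2 / W := by positivity
    calc be * Y ^ 2 / (4 * W) / DD θ = (be * (DD θ)⁻¹ / 4) * (Y ^ 2 / W) := by
          field_simp
      _ ≤ (1.1547006 * 4.3686 / 4) * (1.00003 * (W - E) ^ 2 / W) := by
          refine mul_le_mul ?_ ?_ (by positivity) (by norm_num)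
          · have h1 : be * (DD θ)⁻¹ ≤ 1.1547006 * 4.3686 :=
              mul_le_mul hbe hinv hinv0.le (by norm_num)
            linarith
          · exact div_le_div_of_nonneg_right hYa hW0.le
      _ = (1.1547006 * 4.3686 / 4 * 1.00003) * ((W - E) ^ 2 / W) := by ring
      _ ≤ 1.2612 * ((W - E) ^ 2 / W) := by
          refine mul_le_mul_of_nonneg_right ?_ hfr0
          norm_num
      _ ≤ 1.2612 * ((W - E) * (3 - E) / 3) :=
          mul_le_mul_of_nonneg_left hfrac (by norm_num)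
  have hsum : 1.2612 * ((W - E) * (3 - E) / 3) + 1.1547006 * (3 - W) ≤ 1.1547006 * 2.68 := by
    have h1 : 0 ≤ W - E := by linarith
    have h2 : 1.2612 * (3 - E) / 3 ≤ 1.1547006 := by linarith
    nlinarith [mul_le_mul_of_nonneg_left h2 h1]
  have hpi := Real.pi_gt_d2
  linarith

end Pool.Agent.Helper38.LC2
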