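import Pool.Agent.Helper38.LC2.StarGen
import Pool.Agent.Helper38.LC2.ArcNum

/-!
# LC2-16: the condition `StarP` for `k + 2 B = 8, 9, 10`

`star_piece` with (`E = eps / 2 * (k + 2 B - 6)`; `p, q, T` are rounded bounds of `psi (2 arctan u)`, `gg (2 arctan u)`, `arctan t`)
* (6,1) and (4,2), `E = .128`, `[.128, 2]`: u = .17, t = .48, p = .6641, q = .1644, T = .4476; `[2, 3]`: u = .16, t = .3, p = .6294,
  q = .1545, T = .2915
* (7,1), (5,2), (3,3), `E = .192`, `[.192, 3]`: u = .11, t = .28, p = .4461, q = .1057, T = .2731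
* (8,1), (6,2), (4,3), `E = .256`, `[.256, 3]`: u = .1, t = .25, p = .4076, q = .096, T = .245
-/

namespace Pool.Agent.Helper38.LC2

open Finset Real Pool.Agent.Helper98.LC

private theorem s89_psi {u x p : ℝ} (hu : 0 < u) (hu1 : u < 1) (hx1 : 1 ≤ x)
    (hx : x * (2 * u) ≤ 1 - u ^ 2 - cT * (1 + u ^ 2))
    (hp : 3.141593 / 4 - ((x - 1) / (1 + x) - ((x - 1) / (1 + x)) ^ 3 / 3 +
      ((x - 1) / (1 + x)) ^ 5 / 5 - ((x - 1) / (1 + x)) ^ 7 / 7 + ((x - 1) / (1 + x)) ^ 9 / 9 -
      ((x - 1) / (1 + x)) ^ 11 / 11) ≤ p) :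
    psi (2 * arctan u) ≤ p := by
  rw [psi_two hu hu1]
  have h1 : x ≤ (1 - u ^ 2 - cT * (1 + u ^ 2)) / (2 * u) := by
    rw [le_div_iff₀ (by linarith)]
    exact hx
  have h2 : arctan x ≤ arctan ((1 - u ^ 2 - cT * (1 + u ^ 2)) / (2 * u)) :=
    arctan_strictMono.monotone h1
  have h3 := arctan_quarter (x := x) (by linarith)
  have h4 : 0 ≤ (x - 1) / (1 + x) := div_nonneg (by linarith) (by linarith)
  have h5 := arctan_lower h4
  have h7 : (1 - x) / (1 + x) = -((x - 1) / (1 + x)) := by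
    rw [← neg_div]
    congr 1
    ring
  rw [h7, arctan_neg] at h3
  have h6 := Real.pi_lt_d6
  linarith

private theorem s89_gg {u q : ℝ} (hu : 0 < u) (hu1 : u < 1)
    (hq : q ≤ 2 * (u - u ^ 3 / 3 + u ^ 5 / 5 - u ^ 7 / 7 + u ^ 9 / 9 - u ^ 11 / 11) -
      cT * (2 * u / (1 + u ^ 2))) : q ≤ gg (2 * arctan u) := by
  rw [gg_two hu hu1]
  have h1 := arctan_lower hu.le
  linarith

private theorem s89_T {t T : ℝ} (ht : 0 < t) (ht1 : t ≤ 1)
    (hT : 3.141593 / 4 - ((1 - t) / (1 + t) - ((1 - t) / (1 + t)) ^ 3 / 3 +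
      ((1 - t) / (1 + t)) ^ 5 / 5 - ((1 - t) / (1 + t)) ^ 7 / 7 + ((1 - t) / (1 + t)) ^ 9 / 9 -
      ((1 - t) / (1 + t)) ^ 11 / 11) ≤ T) : arctan t ≤ T := by
  rw [arctan_quarter ht]
  have h4 : 0 ≤ (1 - t) / (1 + t) := div_nonneg (by linarith) (by linarith)
  have h5 := arctan_lower h4
  have h6 := Real.pi_lt_d6
  linarith

private theorem s89_U {t T : ℝ} (ht : 0 ≤ t)
    (hT : t - t ^ 3 / 3 + t ^ 5 / 5 - t ^ 7 / 7 + t ^ 9 / 9 ≤ T) : arctan t ≤ T :=
  (arctan_upper ht).trans hT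

theorem star_61 {Y W : ℝ} (hY : W = (1 - c1) * Y + 16 / 125) (h0 : 16 / 125 ≤ W) (h3 : W ≤ 3) :
    StarP 6 1 Y W := by
  rcases le_total W 2 with hW | hW
  · exact star_piece (k := 6) (B := 1) (by norm_num) (E := 16 / 125) (u := 0.17) (t := 0.48) (p := 0.6641)
      (q := 0.1644) (T := 0.4476) (w0 := 16 / 125) (w1 := 2) (by norm_num) (by norm_num) (by norm_num)
      (s89_psi (x := 1.277874) (by norm_num) (by norm_num) (by norm_num) (by norm_num [cT]) (by norm_num))
      (s89_gg (by norm_num) (by norm_num) (by norm_num [cT]))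
      (s89_T (by norm_num) (by norm_num) (by norm_num)) (by norm_num) (Or.inl (by norm_num)) h0 hW (by norm_num)
      hY (by norm_num [Fst, DU, cT, c1]) (by norm_num [Fst, DU, cT, c1])
  · exact star_piece (k := 6) (B := 1) (by norm_num) (E := 16 / 125) (u := 0.16) (t := 0.3) (p := 0.6294)
      (q := 0.1545) (T := 0.2915) (w0 := 2) (w1 := 3) (by norm_num) (by norm_num) (by norm_num)
      (s89_psi (x := 1.373432) (by norm_num) (by norm_num) (by norm_num) (by norm_num [cT]) (by norm_num))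
      (s89_gg (by norm_num) (by norm_num) (by norm_num [cT]))
      (s89_U (by norm_num) (by norm_num)) (by norm_num) (Or.inl (by norm_num)) hW h3 (by norm_num)
      hY (by norm_num [Fst, DU, cT, c1]) (by norm_num [Fst, DU, cT, c1])

theorem star_42 {Y W : ℝ} (hY : W = (1 - c1) * Y + 16 / 125) (h0 : 16 / 125 ≤ W) (h3 : W ≤ 3) :
    StarP 4 2 Y W := by
  rcases le_total W 2 with hW | hW
  · exact star_piece (k := 4) (B := 2) (by norm_num) (E := 16 / 125) (u := 0.17) (t := 0.48) (p := 0.6641)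
      (q := 0.1644) (T := 0.4476) (w0 := 16 / 125) (w1 := 2) (by norm_num) (by norm_num) (by norm_num)
      (s89_psi (x := 1.277874) (by norm_num) (by norm_num) (by norm_num) (by norm_num [cT]) (by norm_num))
      (s89_gg (by norm_num) (by norm_num) (by norm_num [cT]))
      (s89_T (by norm_num) (by norm_num) (by norm_num)) (by norm_num) (Or.inl (by norm_num)) h0 hW (by norm_num)
      hY (by norm_num [Fst, DU, cT, c1]) (by norm_num [Fst, DU, cT, c1])
  · exact star_piece (k := 4) (B := 2) (by norm_num) (E := 16 / 125) (u := 0.16) (t := 0.3) (p := 0.6294)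
      (q := 0.1545) (T := 0.2915) (w0 := 2) (w1 := 3) (by norm_num) (by norm_num) (by norm_num)
      (s89_psi (x := 1.373432) (by norm_num) (by norm_num) (by norm_num) (by norm_num [cT]) (by norm_num))
      (s89_gg (by norm_num) (by norm_num) (by norm_num [cT]))
      (s89_U (by norm_num) (by norm_num)) (by norm_num) (Or.inl (by norm_num)) hW h3 (by norm_num)
      hY (by norm_num [Fst, DU, cT, c1]) (by norm_num [Fst, DU, cT, c1])

theorem star_71 {Y W : ℝ} (hY : W = (1 - c1) * Y + 24 / 125) (h0 : 24 / 125 ≤ W) (h3 : W ≤ 3) :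
    StarP 7 1 Y W := by
  exact star_piece (k := 7) (B := 1) (by norm_num) (E := 24 / 125) (u := 0.11) (t := 0.28) (p := 0.4461)
    (q := 0.1057) (T := 0.2731) (w0 := 24 / 125) (w1 := 3) (by norm_num) (by norm_num) (by norm_num)
    (s89_psi (x := 2.091087) (by norm_num) (by norm_num) (by norm_num) (by norm_num [cT]) (by norm_num))
    (s89_gg (by norm_num) (by norm_num) (by norm_num [cT]))
    (s89_U (by norm_num) (by norm_num)) (by norm_num) (Or.inl (by norm_num)) h0 h3 (by norm_num)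
    hY (by norm_num [Fst, DU, cT, c1]) (by norm_num [Fst, DU, cT, c1])

theorem star_52 {Y W : ℝ} (hY : W = (1 - c1) * Y + 24 / 125) (h0 : 24 / 125 ≤ W) (h3 : W ≤ 3) :
    StarP 5 2 Y W := by
  exact star_piece (k := 5) (B := 2) (by norm_num) (E := 24 / 125) (u := 0.11) (t := 0.28) (p := 0.4461)
    (q := 0.1057) (T := 0.2731) (w0 := 24 / 125) (w1 := 3) (by norm_num) (by norm_num) (by norm_num)
    (s89_psi (x := 2.091087) (by norm_num) (by norm_num) (by norm_num) (by norm_num [cT]) (by norm_num))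
    (s89_gg (by norm_num) (by norm_num) (by norm_num [cT]))
    (s89_U (by norm_num) (by norm_num)) (by norm_num) (Or.inl (by norm_num)) h0 h3 (by norm_num)
    hY (by norm_num [Fst, DU, cT, c1]) (by norm_num [Fst, DU, cT, c1])

theorem star_33 {Y W : ℝ} (hY : W = (1 - c1) * Y + 24 / 125) (h0 : 24 / 125 ≤ W) (h3 : W ≤ 3) :
    StarP 3 3 Y W := by
  exact star_piece (k := 3) (B := 3) (by norm_num) (E := 24 / 125) (u := 0.11) (t := 0.28) (p := 0.4461)
    (q := 0.1057) (T := 0.2731) (w0 := 24 / 125) (w1 := 3) (by norm_num) (by norm_num) (by norm_num)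
    (s89_psi (x := 2.091087) (by norm_num) (by norm_num) (by norm_num) (by norm_num [cT]) (by norm_num))
    (s89_gg (by norm_num) (by norm_num) (by norm_num [cT]))
    (s89_U (by norm_num) (by norm_num)) (by norm_num) (Or.inl (by norm_num)) h0 h3 (by norm_num)
    hY (by norm_num [Fst, DU, cT, c1]) (by norm_num [Fst, DU, cT, c1])

theorem star_81 {Y W : ℝ} (hY : W = (1 - c1) * Y + 32 / 125) (h0 : 32 / 125 ≤ W) (h3 : W ≤ 3) :
    StarP 8 1 Y W := by
  exact star_piece (k := 8) (B := 1) (by norm_num) (E := 32 / 125) (u := 0.1) (t := 0.25) (p := 0.4076)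
    (q := 0.096) (T := 0.245) (w0 := 32 / 125) (w1 := 3) (by norm_num) (by norm_num) (by norm_num)
    (s89_psi (x := 2.316172) (by norm_num) (by norm_num) (by norm_num) (by norm_num [cT]) (by norm_num))
    (s89_gg (by norm_num) (by norm_num) (by norm_num [cT]))
    (s89_U (by norm_num) (by norm_num)) (by norm_num) (Or.inl (by norm_num)) h0 h3 (by norm_num)
    hY (by norm_num [Fst, DU, cT, c1]) (by norm_num [Fst, DU, cT, c1])

theorem star_62 {Y W : ℝ} (hY : W = (1 - c1) * Y + 32 / 125) (h0 : 32 / 125 ≤ W) (h3 : W ≤ 3) :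
    StarP 6 2 Y W := by
  exact star_piece (k := 6) (B := 2) (by norm_num) (E := 32 / 125) (u := 0.1) (t := 0.25) (p := 0.4076)
    (q := 0.096) (T := 0.245) (w0 := 32 / 125) (w1 := 3) (by norm_num) (by norm_num) (by norm_num)
    (s89_psi (x := 2.316172) (by norm_num) (by norm_num) (by norm_num) (by norm_num [cT]) (by norm_num))
    (s89_gg (by norm_num) (by norm_num) (by norm_num [cT]))
    (s89_U (by norm_num) (by norm_num)) (by norm_num) (Or.inl (by norm_num)) h0 h3 (by norm_num)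
    hY (by norm_num [Fst, DU, cT, c1]) (by norm_num [Fst, DU, cT, c1])

theorem star_43 {Y W : ℝ} (hY : W = (1 - c1) * Y + 32 / 125) (h0 : 32 / 125 ≤ W) (h3 : W ≤ 3) :
    StarP 4 3 Y W := by
  exact star_piece (k := 4) (B := 3) (by norm_num) (E := 32 / 125) (u := 0.1) (t := 0.25) (p := 0.4076)
    (q := 0.096) (T := 0.245) (w0 := 32 / 125) (w1 := 3) (by norm_num) (by norm_num) (by norm_num)
    (s89_psi (x := 2.316172) (by norm_num) (by norm_num) (by norm_num) (by norm_num [cT]) (by norm_num))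
    (s89_gg (by norm_num) (by norm_num) (by norm_num [cT]))
    (s89_U (by norm_num) (by norm_num)) (by norm_num) (Or.inl (by norm_num)) h0 h3 (by norm_num)
    hY (by norm_num [Fst, DU, cT, c1]) (by norm_num [Fst, DU, cT, c1])

end Pool.Agent.Helper38.LC2
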