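import Pool.Agent.Helper38.LC2.Star67
import Pool.Agent.Helper38.LC2.Star89
import Pool.Agent.Helper38.LC2.Star5
import Pool.Agent.Helper38.LC2.Core
import Pool.Agent.Helper38.LC2.Num

/-!
# LC2-18: `core` for all numbers of edges

* `star_all`: `k + 2B ≥ 6`, `1 ≤ B ≤ k`: for `k + 2B ≤ 10` the pairs are (4,1), (2,2), (5,1), (3,2), (6,1), (4,2), (7,1), (5,2), (3,3), (8,1), (6,2), (4,3)
  (`interval_cases`; the pairs with `B > k` are excluded); for `k + 2B ≥ 11` `star_big` with `E = eps/2 (k + 2B - 6) ≥ .32`.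
* `hH_all`: `be Y²/(4W) ≤ 1`: `be ≤ 1.1547006`.  If `E ≥ 0`: `(1 - c1) Y ≤ W ≤ 3`, so `Y² ≤ W² / (1 - c1)²` and `be Y²/(4W) ≤ .28868 · 3 / (1 - c1)² < 1` (`W = 0`:
  the quotient is `0`).  If `E < 0`: (3,1): `(W + .064)²/W ≤ 3.2` for `.016 ≤ W ≤ 3` (convex in `W`: values `.4` at `.016` and `3.13` at `3`),
  (2,1): `(W + .128)²/W`: `.8` at `.032`, `3.262` at `3`; (1,1): `(W + .192)²/W`: `1.73` at `.028`, `3.397` at `3`, and `.28868 · 3.397 / (1 - c1)² = .98066 < 1`.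
* `core_six`, `core_small`: `core` with these facts (`StarP` unfolds to the hypothesis of `core`).  `W = 0` implies `Y = 0` (if `E ≥ 0`); in `core_small` `W > 0`.
-/

namespace Pool.Agent.Helper38.LC2

open Finset Real Pool.Agent.Helper98.LC

private lemma c1_pos' : (0 : ℝ) < 1 - c1 := by unfold c1; norm_num

theorem star_all {k B : ℕ} (hB : 1 ≤ B) (hBk : B ≤ k) (h6 : 6 ≤ k + 2 * B) {Y W : ℝ}
    (hY : W = (1 - c1) * Y + eps / 2 * ((k : ℝ) + 2 * B - 6)) (h0 : 0 ≤ Y) (h3 : W ≤ 3) :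
    StarP k B Y W := by
  have hc : 0 ≤ (1 - c1) * Y := mul_nonneg c1_pos'.le h0
  by_cases h10 : k + 2 * B ≤ 10
  · have key : ∀ c : ℝ, eps / 2 * ((k : ℝ) + 2 * B - 6) = c →
        W = (1 - c1) * Y + c ∧ c ≤ W := by
      intro c hcc
      rw [hcc] at hY
      exact ⟨hY, by linarith⟩
    have hB3 : B ≤ 3 := by omega
    have hk8 : k ≤ 8 := by omega
    interval_cases B <;> interval_cases k <;> try omega
    · obtain ⟨h1, h2⟩ := key 0 (by norm_num [eps])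
      exact star_41 h1 h2 h3
    · obtain ⟨h1, h2⟩ := key (8 / 125) (by norm_num [eps])
      exact star_51 h1 h2 h3
    · obtain ⟨h1, h2⟩ := key (16 / 125) (by norm_num [eps])
      exact star_61 h1 h2 h3
    · obtain ⟨h1, h2⟩ := key (24 / 125) (by norm_num [eps])
      exact star_71 h1 h2 h3
    · obtain ⟨h1, h2⟩ := key (32 / 125) (by norm_num [eps])
      exact star_81 h1 h2 h3
    · obtain ⟨h1, h2⟩ := key 0 (by norm_num [eps])
      exact star_22 h1 h2 h3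
    · obtain ⟨h1, h2⟩ := key (8 / 125) (by norm_num [eps])
      exact star_32 h1 h2 h3
    · obtain ⟨h1, h2⟩ := key (16 / 125) (by norm_num [eps])
      exact star_42 h1 h2 h3
    · obtain ⟨h1, h2⟩ := key (24 / 125) (by norm_num [eps])
      exact star_52 h1 h2 h3
    · obtain ⟨h1, h2⟩ := key (32 / 125) (by norm_num [eps])
      exact star_62 h1 h2 h3
    · obtain ⟨h1, h2⟩ := key (24 / 125) (by norm_num [eps])
      exact star_33 h1 h2 h3
    · obtain ⟨h1, h2⟩ := key (32 / 125) (by norm_num [eps])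
      exact star_43 h1 h2 h3
  · refine star_big (E := eps / 2 * ((k : ℝ) + 2 * B - 6)) hB (by omega) ?_ hY h0 h3
    have h11 : (11 : ℝ) ≤ (k : ℝ) + 2 * B := by
      have h1 : 11 ≤ k + 2 * B := by omega
      exact_mod_cast h1
    unfold eps
    linarith

private lemma hH_aux {Y W b e w : ℝ} (hb0 : 0 ≤ b) (hb : b ≤ 1.1547006) (hW : w ≤ W) (hw : 0 < w)
    (h3 : W ≤ 3) (h0 : 0 ≤ Y) (he : 0 ≤ e) (hY : (1 - c1) * Y ≤ W + e)
    (h1 : e ^ 2 ≤ 3 * w) (h2 : 1.1547006 * (w + 3 + 2 * e) ≤ 4 * (1 - c1) ^ 2) :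
    b * Y ^ 2 / (4 * W) ≤ 1 := by
  have hW0 : 0 < W := lt_of_lt_of_le hw hW
  rw [div_le_one (by positivity)]
  have hc := c1_pos'
  have hs : ((1 - c1) * Y) ^ 2 ≤ (W + e) ^ 2 :=
    pow_le_pow_left₀ (mul_nonneg hc.le h0) hY 2
  have h4 : b * ((1 - c1) * Y) ^ 2 ≤ b * (W + e) ^ 2 := mul_le_mul_of_nonneg_left hs hb0
  have h5 : 0 ≤ b * ((W - w) * (3 - W)) :=
    mul_nonneg hb0 (mul_nonneg (by linarith) (by linarith))
  have h6 : b * (w + 3 + 2 * e) ≤ 4 * (1 - c1) ^ 2 :=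
    (mul_le_mul_of_nonneg_right hb (by positivity)).trans h2
  have h7 : b * (w + 3 + 2 * e) * W ≤ 4 * (1 - c1) ^ 2 * W :=
    mul_le_mul_of_nonneg_right h6 hW0.le
  have h8 : 0 ≤ b * (3 * w - e ^ 2) := mul_nonneg hb0 (by linarith)
  have h9 : (1 - c1) ^ 2 * (b * Y ^ 2) ≤ (1 - c1) ^ 2 * (4 * W) := by nlinarith
  exact le_of_mul_le_mul_left h9 (by positivity)

theorem hH_all {Y W E : ℝ} (hY : W = (1 - c1) * Y + E) (h0 : 0 ≤ Y) (h3 : W ≤ 3)
    (hE : 0 ≤ E ∨ (-(8 / 125) ≤ E ∧ 16 / 1000 ≤ W) ∨ (-(16 / 125) ≤ E ∧ 32 / 1000 ≤ W) ∨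
      (-(24 / 125) ≤ E ∧ 28 / 1000 ≤ W)) :
    be * Y ^ 2 / (4 * W) ≤ 1 := by
  have hb0 := be_pos.le
  have hb := be_num.2
  have hc : 0 ≤ (1 - c1) * Y := mul_nonneg c1_pos'.le h0
  rcases hE with hE | ⟨hE, hW⟩ | ⟨hE, hW⟩ | ⟨hE, hW⟩
  · rcases (show (0 : ℝ) ≤ W by linarith).eq_or_lt with hW | hW
    · rw [← hW, mul_zero, div_zero]
      exact zero_le_one
    · have h1 : min W (1 / 10) ≤ 1 / 10 := min_le_right _ _
      have h2 : 0 < min W (1 / 10) := lt_min hW (by norm_num)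
      exact hH_aux (e := 0) hb0 hb (min_le_left W (1 / 10)) h2 h3 h0 le_rfl (by linarith)
        (by linarith) (by unfold c1; linarith)
  · exact hH_aux (e := 8 / 125) hb0 hb hW (by norm_num) h3 h0 (by norm_num) (by linarith)
      (by norm_num) (by norm_num [c1])
  · exact hH_aux (e := 16 / 125) hb0 hb hW (by norm_num) h3 h0 (by norm_num) (by linarith)
      (by norm_num) (by norm_num [c1])
  · exact hH_aux (e := 24 / 125) hb0 hb hW (by norm_num) h3 h0 (by norm_num) (by linarith)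
      (by norm_num) (by norm_num [c1])

private lemma sumY_nonneg {E : Type} [DecidableEq E] {F : Finset E} {a : ℝ} {l ch y : E → ℝ}
    (h : FaceFacts2 F a l ch y) (O : Finset E) (hO : O ⊆ F) :
    0 ≤ ∑ e ∈ O, (l e - cT * ch e) := by
  refine Finset.sum_nonneg fun e he => ?_
  have h1 := h.ch_nonneg e (hO he)
  have h2 := h.ch_le e (hO he)
  have h3 : cT < 1 := by unfold cT; norm_num
  nlinarith

/-- The main inequality if the price of the edges is nonnegative. -/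
theorem core_six {E : Type} [DecidableEq E] {F : Finset E} {a : ℝ} {l ch y : E → ℝ}
    (h : FaceFacts2 F a l ch y) (O : Finset E) (hO : O ⊆ F) (hO1 : 1 ≤ O.card)
    (hO2 : 2 * O.card ≤ F.card) (h6 : 6 ≤ F.card + O.card) (hin : ∀ e ∈ F \ O, l e ≤ 3)
    {m W : ℝ} (hm1 : m ≤ 1) (hma : m ≤ a)
    (hW : W = (1 - c1) * ∑ e ∈ O, (l e - cT * ch e) +
      eps / 2 * ((F.card : ℝ) + O.card - 6)) (hV : 0 < 3 * m - W) :
    3 * m - W ≤ (∑ e ∈ F \ O, l e + be * (A0 * ∑ e ∈ F \ O, y e)) / 2 := by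
  have hY0 := sumY_nonneg h O hO
  have hcard : (F \ O).card = F.card - O.card := Finset.card_sdiff_of_subset hO
  have hle : O.card ≤ F.card := Finset.card_le_card hO
  have hk : 1 ≤ (F \ O).card := by omega
  have h3 : W ≤ 3 := by linarith
  have hcr : ((F \ O).card : ℝ) = (F.card : ℝ) - O.card := by
    rw [hcard, Nat.cast_sub hle]
  have h6' : (6 : ℝ) ≤ (F.card : ℝ) + O.card := by exact_mod_cast h6
  have hE : 0 ≤ eps / 2 * ((F.card : ℝ) + O.card - 6) :=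
    mul_nonneg (by unfold eps; norm_num) (by linarith)
  have hc := mul_nonneg c1_pos'.le hY0
  refine core h O hO hk hin hm1 hma hV (by linarith) (fun h1 => ?_)
    (hH_all hW hY0 h3 (Or.inl hE)) ?_
  · have h2 : (1 - c1) * ∑ e ∈ O, (l e - cT * ch e) = 0 := by linarith
    exact (mul_eq_zero.1 h2).resolve_left c1_pos'.ne'
  · refine star_all hO1 (by omega) (by omega) ?_ hY0 h3
    rw [hW, hcr]
    ring

/-- The main inequality for one outer edge and at most three inner edges, if `W` is not small. -/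
theorem core_small {E : Type} [DecidableEq E] {F : Finset E} {a : ℝ} {l ch y : E → ℝ}
    (h : FaceFacts2 F a l ch y) (O : Finset E) (hO : O ⊆ F) (hO1 : O.card = 1)
    (h2 : 2 ≤ F.card) (h6 : F.card ≤ 4) (hin : ∀ e ∈ F \ O, l e ≤ 3)
    {m W : ℝ} (hm1 : m ≤ 1) (hma : m ≤ a)
    (hW : W = (1 - c1) * ∑ e ∈ O, (l e - cT * ch e) +
      eps / 2 * ((F.card : ℝ) + O.card - 6)) (hV : 0 < 3 * m - W)
    (hsm : (F.card = 4 ∧ 16 / 1000 ≤ W) ∨ (F.card = 3 ∧ 32 / 1000 ≤ W) ∨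
      (F.card = 2 ∧ 28 / 1000 ≤ W)) :
    3 * m - W ≤ (∑ e ∈ F \ O, l e + be * (A0 * ∑ e ∈ F \ O, y e)) / 2 := by
  have hY0 := sumY_nonneg h O hO
  have hcard : (F \ O).card = F.card - O.card := Finset.card_sdiff_of_subset hO
  have hk : 1 ≤ (F \ O).card := by omega
  have h3 : W ≤ 3 := by linarith
  have hWp : 0 < W := by
    rcases hsm with ⟨_, h4⟩ | ⟨_, h4⟩ | ⟨_, h4⟩ <;> linarith
  rcases hsm with ⟨h4, h5⟩ | ⟨h4, h5⟩ | ⟨h4, h5⟩
  · have hk3 : (F \ O).card = 3 := by omega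
    have hW' : W = (1 - c1) * ∑ e ∈ O, (l e - cT * ch e) + -(8 / 125) := by
      rw [hW, h4, hO1]
      norm_num [eps]
    refine core h O hO hk hin hm1 hma hV hWp.le (fun h1 => absurd h1 hWp.ne')
      (hH_all hW' hY0 h3 (Or.inr (Or.inl ⟨le_rfl, h5⟩))) ?_
    rw [hk3, hO1]
    exact star_31 (by linarith) h5 h3
  · have hk3 : (F \ O).card = 2 := by omega
    have hW' : W = (1 - c1) * ∑ e ∈ O, (l e - cT * ch e) + -(16 / 125) := by
      rw [hW, h4, hO1]
      norm_num [eps]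
    refine core h O hO hk hin hm1 hma hV hWp.le (fun h1 => absurd h1 hWp.ne')
      (hH_all hW' hY0 h3 (Or.inr (Or.inr (Or.inl ⟨le_rfl, h5⟩)))) ?_
    rw [hk3, hO1]
    exact star_21 (by linarith) h5 h3
  · have hk3 : (F \ O).card = 1 := by omega
    have hW' : W = (1 - c1) * ∑ e ∈ O, (l e - cT * ch e) + -(24 / 125) := by
      rw [hW, h4, hO1]
      norm_num [eps]
    refine core h O hO hk hin hm1 hma hV hWp.le (fun h1 => absurd h1 hWp.ne')
      (hH_all hW' hY0 h3 (Or.inr (Or.inr (Or.inr ⟨le_rfl, h5⟩)))) ?_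
    rw [hk3, hO1]
    exact star_11 (by linarith) h5 h3

end Pool.Agent.Helper38.LC2
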