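import Pool.Agent.Helper38.LC2.StarGen
import Pool.Agent.Helper38.LC2.ArcNum

/-!
# LC2-15: the condition `StarP` for `k + 2 B = 6, 7`

`star_piece` with (`E = eps / 2 * (k + 2 B - 6)`; `p, q, T` are rounded bounds of `psi (2 arctan u)`, `gg (2 arctan u)`, `arctan t`)
* (4,1), `E = 0`, `[0, 3]`: u = .245, t = .623, p = .90216, q = .239445, T = .557161 (slack .00044)
* (2,2), `E = 0`, `[0, 3]`: u = .26, t = .666, p = .9454, q = .2546, T = .5876 (slack .009)
* (5,1), `E = .064`, `[.064, 1]`: u = .18, t = .51, p = .6981, q = .1742, T = .4717; `[1, 3]`: u = .26, t = .46, p = .9454, q = .2546, T = .4312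
* (3,2), `E = .064`, `[.064, 1.5]`: u = .205, t = .58, p = .78, q = .1991, T = .5257; `[1.5, 3]`: u = .215, t = .53, p = .8116, q = .2091, T = .4875
`p`: `psi_two`; with `x = (1 - u² - c(1 + u²))/(2u)`: if `x ≤ 1`: `arctan_quarter` (then `π/4 + arctan ((1-x)/(1+x))`, `arctan_upper`, `Real.pi_lt_d6`);
if `x > 1`: `π/2 - arctan x = arctan (1/x)` (`Real.arctan_inv_of_pos`).  `q`: `gg_two`, `arctan_lower`.  `T`: `arctan_quarter` and `arctan_lower`
(or `arctan_upper` for small `t`).  The two values of `Fst`: `norm_num [Fst, DU, cT, eps, c1]`.  (`arctan` is monotone: replace the argument by a rational number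
with few digits on the right side if necessary.)
-/

namespace Pool.Agent.Helper38.LC2

open Finset Real Pool.Agent.Helper98.LC

private theorem s67_psi_a {u x p : ℝ} (hu : 0 < u) (hu1 : u < 1) (hx0 : 0 < x) (hx1 : x ≤ 1)
    (hx : x * (2 * u) ≤ 1 - u ^ 2 - cT * (1 + u ^ 2))
    (hp : 3.141593 / 4 + ((1 - x) / (1 + x) - ((1 - x) / (1 + x)) ^ 3 / 3 +
      ((1 - x) / (1 + x)) ^ 5 / 5 - ((1 - x) / (1 + x)) ^ 7 / 7 + ((1 - x) / (1 + x)) ^ 9 / 9) ≤ p) :
    psi (2 * arctan u) ≤ p := by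
  rw [psi_two hu hu1]
  have h1 : x ≤ (1 - u ^ 2 - cT * (1 + u ^ 2)) / (2 * u) := by
    rw [le_div_iff₀ (by linarith)]
    exact hx
  have h2 : arctan x ≤ arctan ((1 - u ^ 2 - cT * (1 + u ^ 2)) / (2 * u)) :=
    arctan_strictMono.monotone h1
  have h3 := arctan_quarter hx0
  have h4 : 0 ≤ (1 - x) / (1 + x) := div_nonneg (by linarith) (by linarith)
  have h5 := arctan_upper h4
  have h6 := Real.pi_lt_d6
  linarith

private theorem s67_psi_b {u x p : ℝ} (hu : 0 < u) (hu1 : u < 1) (hx1 : 1 ≤ x)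
    (hx : x * (2 * u) ≤ 1 - u ^ 2 - cT * (1 + u ^ 2))
    (hp : 3.141593 / 4 - ((x - 1) / (1 + x) - ((x - 1) / (1 + x)) ^ 3 / 3 +
      ((x - 1) / (1 + x)) ^ 5 / 5 - ((x - 1) / (1 + x)) ^ 7 / 7 + ((x - 1) / (1 + x)) ^ 9 / 9 -
      ((x - 1) / (1 + x)) ^ 11 / 11) ≤ p) :
    psi (2 * arctan u) ≤ p := by
  rw [psi_two hu hu1]
  have h1 : x ≤ (1 - u ^ 2 - cT * (1 + u ^ 2)) / (2 * u) := by
    rw [le_div_iff₀ (by linarith)]
    exact hx
  have h2 : arctan x ≤ arctan ((1 - u ^ 2 - cT * (1 + u ^ 2)) / (2 * u)) :=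
    arctan_strictMono.monotone h1
  have h3 := arctan_quarter (x := x) (by linarith)
  have h4 : 0 ≤ (x - 1) / (1 + x) := div_nonneg (by linarith) (by linarith)
  have h5 := arctan_lower h4
  have h7 : (1 - x) / (1 + x) = -((x - 1) / (1 + x)) := by
    rw [← neg_div]
    congr 1
    ring
  rw [h7, arctan_neg] at h3
  have h6 := Real.pi_lt_d6
  linarith

private theorem s67_gg {u q : ℝ} (hu : 0 < u) (hu1 : u < 1)
    (hq : q ≤ 2 * (u - u ^ 3 / 3 + u ^ 5 / 5 - u ^ 7 / 7 + u ^ 9 / 9 - u ^ 11 / 11) -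
      cT * (2 * u / (1 + u ^ 2))) : q ≤ gg (2 * arctan u) := by
  rw [gg_two hu hu1]
  have h1 := arctan_lower hu.le
  linarith

private theorem s67_T {t T : ℝ} (ht : 0 < t) (ht1 : t ≤ 1)
    (hT : 3.141593 / 4 - ((1 - t) / (1 + t) - ((1 - t) / (1 + t)) ^ 3 / 3 +
      ((1 - t) / (1 + t)) ^ 5 / 5 - ((1 - t) / (1 + t)) ^ 7 / 7 + ((1 - t) / (1 + t)) ^ 9 / 9 -
      ((1 - t) / (1 + t)) ^ 11 / 11) ≤ T) : arctan t ≤ T := by
  rw [arctan_quarter ht]
  have h4 : 0 ≤ (1 - t) / (1 + t) := div_nonneg (by linarith) (by linarith)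
  have h5 := arctan_lower h4
  have h6 := Real.pi_lt_d6
  linarith

theorem star_41 {Y W : ℝ} (hY : W = (1 - c1) * Y + 0) (h0 : 0 ≤ W) (h3 : W ≤ 3) :
    StarP 4 1 Y W := by
  exact star_piece (k := 4) (B := 1) (by norm_num) (E := 0) (u := 0.245) (t := 0.623) (p := 0.90220)
    (q := 0.23942) (T := 0.55718) (w0 := 0) (w1 := 3) (by norm_num) (by norm_num) (by norm_num)
    (s67_psi_a (x := 0.790038) (by norm_num) (by norm_num) (by norm_num) (by norm_num) (by norm_num [cT]) (by norm_num))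
    (s67_gg (by norm_num) (by norm_num) (by norm_num [cT]))
    (s67_T (by norm_num) (by norm_num) (by norm_num)) (by norm_num) (Or.inr rfl) h0 h3 (by norm_num)
    hY (by norm_num [Fst, DU, cT, c1]) (by norm_num [Fst, DU, cT, c1])

theorem star_22 {Y W : ℝ} (hY : W = (1 - c1) * Y + 0) (h0 : 0 ≤ W) (h3 : W ≤ 3) :
    StarP 2 2 Y W := by
  exact star_piece (k := 2) (B := 2) (by norm_num) (E := 0) (u := 0.26) (t := 0.666) (p := 0.9454)
    (q := 0.2546) (T := 0.5876) (w0 := 0) (w1 := 3) (by norm_num) (by norm_num) (by norm_num)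
    (s67_psi_a (x := 0.722294) (by norm_num) (by norm_num) (by norm_num) (by norm_num) (by norm_num [cT]) (by norm_num))
    (s67_gg (by norm_num) (by norm_num) (by norm_num [cT]))
    (s67_T (by norm_num) (by norm_num) (by norm_num)) (by norm_num) (Or.inr rfl) h0 h3 (by norm_num)
    hY (by norm_num [Fst, DU, cT, c1]) (by norm_num [Fst, DU, cT, c1])

theorem star_51 {Y W : ℝ} (hY : W = (1 - c1) * Y + 8 / 125) (h0 : 8 / 125 ≤ W) (h3 : W ≤ 3) :
    StarP 5 1 Y W := by
  rcases le_total W 1 with hW | hW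
  · exact star_piece (k := 5) (B := 1) (by norm_num) (E := 8 / 125) (u := 0.18) (t := 0.51) (p := 0.6981)
      (q := 0.1742) (T := 0.4717) (w0 := 8 / 125) (w1 := 1) (by norm_num) (by norm_num) (by norm_num)
      (s67_psi_b (x := 1.192088) (by norm_num) (by norm_num) (by norm_num) (by norm_num [cT]) (by norm_num))
      (s67_gg (by norm_num) (by norm_num) (by norm_num [cT]))
      (s67_T (by norm_num) (by norm_num) (by norm_num)) (by norm_num) (Or.inl (by norm_num)) h0 hW (by norm_num)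
      hY (by norm_num [Fst, DU, cT, c1]) (by norm_num [Fst, DU, cT, c1])
  · exact star_piece (k := 5) (B := 1) (by norm_num) (E := 8 / 125) (u := 0.26) (t := 0.46) (p := 0.9454)
      (q := 0.2546) (T := 0.4312) (w0 := 1) (w1 := 3) (by norm_num) (by norm_num) (by norm_num)
      (s67_psi_a (x := 0.722294) (by norm_num) (by norm_num) (by norm_num) (by norm_num) (by norm_num [cT]) (by norm_num))
      (s67_gg (by norm_num) (by norm_num) (by norm_num [cT]))
      (s67_T (by norm_num) (by norm_num) (by norm_num)) (by norm_num) (Or.inl (by norm_num)) hW h3 (by norm_num)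
      hY (by norm_num [Fst, DU, cT, c1]) (by norm_num [Fst, DU, cT, c1])

theorem star_32 {Y W : ℝ} (hY : W = (1 - c1) * Y + 8 / 125) (h0 : 8 / 125 ≤ W) (h3 : W ≤ 3) :
    StarP 3 2 Y W := by
  rcases le_total W 1.5 with hW | hW
  · exact star_piece (k := 3) (B := 2) (by norm_num) (E := 8 / 125) (u := 0.205) (t := 0.58) (p := 0.78)
      (q := 0.1991) (T := 0.5257) (w0 := 8 / 125) (w1 := 1.5) (by norm_num) (by norm_num) (by norm_num)
      (s67_psi_b (x := 1.010992) (by norm_num) (by norm_num) (by norm_num) (by norm_num [cT]) (by norm_num))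
      (s67_gg (by norm_num) (by norm_num) (by norm_num [cT]))
      (s67_T (by norm_num) (by norm_num) (by norm_num)) (by norm_num) (Or.inl (by norm_num)) h0 hW (by norm_num)
      hY (by norm_num [Fst, DU, cT, c1]) (by norm_num [Fst, DU, cT, c1])
  · exact star_piece (k := 3) (B := 2) (by norm_num) (E := 8 / 125) (u := 0.215) (t := 0.53) (p := 0.8116)
      (q := 0.2091) (T := 0.4875) (w0 := 1.5) (w1 := 3) (by norm_num) (by norm_num) (by norm_num)
      (s67_psi_a (x := 0.949107) (by norm_num) (by norm_num) (by norm_num) (by norm_num) (by norm_num [cT]) (by norm_num))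
      (s67_gg (by norm_num) (by norm_num) (by norm_num [cT]))
      (s67_T (by norm_num) (by norm_num) (by norm_num)) (by norm_num) (Or.inl (by norm_num)) hW h3 (by norm_num)
      hY (by norm_num [Fst, DU, cT, c1]) (by norm_num [Fst, DU, cT, c1])

end Pool.Agent.Helper38.LC2
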