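import Pool.Agent.Helper38.LC2.Two

/-!
# LC2-05: three inequalities for trigonometric functions

* `trig1`: `f θ = θ (1 - θ²/3) cos θ - (1 - 2θ²/3) sin θ`, `f 0 = 0`, `f' θ = (θ/3) ((1 + θ²) sin θ - θ cos θ) ≥ 0` for `0 < θ < π`
  (`θ cos θ ≤ sin θ`: `Real.lt_tan` for `θ < π/2`, trivial for `θ ≥ π/2`), so `f ≥ 0` on `[0, √3]` (`monotoneOn_of_deriv_nonneg`); divide by `sin θ`.
* `ang1`: let `u = t sin φ cos φ`, `α = φ + u`; `α ≥ φ - sin φ cos φ > 0` (`sin φ cos φ ≤ sin φ < φ`).  If `α ≥ π/2` then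
  `ct α ≤ 0` (`α < π` by hypothesis) and the right side is `≥ 0`.  If `α < π/2`: `tan α ≥ tan φ + u / cos² φ = (1 + t) tan φ`:
  the function `tan` lies above its tangent line at `φ` on `[0, π/2)` (convexity; or: `tan α - tan φ = sin (α - φ) / (cos α cos φ)` and
  monotonicity of `tan' = 1 / cos²` by the mean value theorem).  Then `ct α (1 + t) = (1+t) / tan α ≤ 1 / tan φ = ct φ`; multiply by `1 + t ≥ 0`.
* `alpha_pos`: see above.
-/

namespace Pool.Agent.Helper38.LC2

open Finset Real Pool.Agent.Helper98.LC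

theorem trig1 {θ : ℝ} (h0 : 0 < θ) (h1 : θ ^ 2 ≤ 3) :
    1 - θ * ct θ * (1 - θ ^ 2 / 3) ≤ 2 / 3 * θ ^ 2 := by
  have hpi := Real.pi_gt_three
  have hθ : θ < 2 := by nlinarith
  have hs : 0 < Real.sin θ := sin_pos_of_pos_of_lt_pi h0 (by linarith)
  have hd : ∀ x : ℝ, HasDerivAt
      (fun x => x * (1 - x ^ 2 / 3) * Real.cos x - (1 - 2 / 3 * x ^ 2) * Real.sin x)
      (x / 3 * ((1 + x ^ 2) * Real.sin x - x * Real.cos x)) x := by
    intro x
    have h2 : HasDerivAt (fun x : ℝ => x * (1 - x ^ 2 / 3)) (1 - x ^ 2) x := by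
      have h3 := (hasDerivAt_id x).mul (((hasDerivAt_pow 2 x).div_const 3).const_sub 1)
      refine h3.congr_deriv ?_
      simp only [id_eq]
      ring
    have h4 : HasDerivAt (fun x : ℝ => 1 - 2 / 3 * x ^ 2) (-(4 / 3 * x)) x := by
      have h5 := ((hasDerivAt_pow 2 x).const_mul (2 / 3 : ℝ)).const_sub 1
      refine h5.congr_deriv ?_
      ring
    refine ((h2.mul (Real.hasDerivAt_cos x)).sub (h4.mul (Real.hasDerivAt_sin x))).congr_deriv ?_
    ring
  have hsc : ∀ x : ℝ, 0 < x → x < 2 → x * Real.cos x ≤ Real.sin x := by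
    intro x hx hx2
    have hsx : 0 < Real.sin x := sin_pos_of_pos_of_lt_pi hx (by linarith)
    rcases lt_or_ge x (π / 2) with h | h
    · have hc : 0 < Real.cos x := Real.cos_pos_of_mem_Ioo ⟨by linarith, h⟩
      have h3 := Real.lt_tan hx h
      rw [Real.tan_eq_sin_div_cos, lt_div_iff₀ hc] at h3
      exact h3.le
    · have hc : Real.cos x ≤ 0 := Real.cos_nonpos_of_pi_div_two_le_of_le h (by linarith)
      nlinarith
  have hmono : MonotoneOn
      (fun x => x * (1 - x ^ 2 / 3) * Real.cos x - (1 - 2 / 3 * x ^ 2) * Real.sin x)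
      (Set.Icc 0 θ) := by
    refine monotoneOn_of_deriv_nonneg (convex_Icc 0 θ)
      (fun x _ => (hd x).continuousAt.continuousWithinAt)
      (fun x _ => (hd x).differentiableAt.differentiableWithinAt) ?_
    intro x hx
    rw [interior_Icc] at hx
    rw [(hd x).deriv]
    have hx0 : 0 < x := hx.1
    have h3 := hsc x hx0 (by linarith [hx.2])
    have hsx : 0 < Real.sin x := sin_pos_of_pos_of_lt_pi hx0 (by linarith [hx.2])
    have h4 : 0 ≤ x ^ 2 * Real.sin x := by positivity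
    apply mul_nonneg (by positivity)
    nlinarith
  have h2 := hmono (Set.left_mem_Icc.2 h0.le) (Set.right_mem_Icc.2 h0.le) h0.le
  simp only [Real.sin_zero, mul_zero, zero_mul, sub_zero] at h2
  unfold ct
  have h3 : θ * (Real.cos θ / Real.sin θ) * (1 - θ ^ 2 / 3) =
      θ * (1 - θ ^ 2 / 3) * Real.cos θ / Real.sin θ := by ring
  rw [h3]
  have h4 : 1 - 2 / 3 * θ ^ 2 ≤ θ * (1 - θ ^ 2 / 3) * Real.cos θ / Real.sin θ := by
    rw [le_div_iff₀ hs]
    linarith
  linarith

theorem alpha_pos {φ t : ℝ} (h0 : 0 < φ) (h1 : φ < π / 2) (ht : -1 ≤ t) :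
    0 < φ + t * (Real.sin φ * Real.cos φ) := by
  have hs : 0 < Real.sin φ := sin_pos_of_pos_of_lt_pi h0 (by linarith [Real.pi_pos])
  have hc : 0 < Real.cos φ := Real.cos_pos_of_mem_Ioo ⟨by linarith, h1⟩
  have h2 : Real.sin φ < φ := Real.sin_lt h0
  have h3 : Real.sin φ * Real.cos φ ≤ Real.sin φ := by
    have := Real.cos_le_one φ
    nlinarith
  have h4 : 0 < Real.sin φ * Real.cos φ := mul_pos hs hc
  nlinarith

private theorem ang1_key {φ u : ℝ} (h0 : 0 < φ) (h1 : φ < π / 2) (hα0 : 0 < φ + u)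
    (hα1 : φ + u < π / 2) : u * Real.cos (φ + u) ≤ Real.sin u * Real.cos φ := by
  have hs : 0 < Real.sin φ := sin_pos_of_pos_of_lt_pi h0 (by linarith [Real.pi_pos])
  have hc : 0 < Real.cos φ := Real.cos_pos_of_mem_Ioo ⟨by linarith, h1⟩
  have hca : 0 < Real.cos (φ + u) := Real.cos_pos_of_mem_Ioo ⟨by linarith, hα1⟩
  rcases lt_trichotomy u 0 with hu | hu | hu
  · have h2 : Real.cos φ ≤ Real.cos (φ + u) :=
      Real.cos_le_cos_of_nonneg_of_le_pi hα0.le (by linarith [Real.pi_pos]) (by linarith)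
    have h3 : Real.sin (-u) < -u := Real.sin_lt (by linarith)
    rw [Real.sin_neg] at h3
    have h4 : u < Real.sin u := by linarith
    nlinarith
  · subst hu
    simp
  · have hu2 : u < π / 2 := by linarith
    have hcu : 0 < Real.cos u := Real.cos_pos_of_mem_Ioo ⟨by linarith, hu2⟩
    have hsu : 0 < Real.sin u := sin_pos_of_pos_of_lt_pi hu (by linarith [Real.pi_pos])
    have h3 := Real.lt_tan hu hu2
    rw [Real.tan_eq_sin_div_cos, lt_div_iff₀ hcu] at h3
    rw [Real.cos_add]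
    have h4 : 0 ≤ u * (Real.sin φ * Real.sin u) := by positivity
    nlinarith

theorem ang1 {φ t : ℝ} (h0 : 0 < φ) (h1 : φ < π / 2) (ht : -1 ≤ t)
    (h2 : φ + t * (Real.sin φ * Real.cos φ) < π) :
    ct (φ + t * (Real.sin φ * Real.cos φ)) * (1 + t) ^ 2 ≤ ct φ * (1 + t) := by
  have hs : 0 < Real.sin φ := sin_pos_of_pos_of_lt_pi h0 (by linarith [Real.pi_pos])
  have hc : 0 < Real.cos φ := Real.cos_pos_of_mem_Ioo ⟨by linarith, h1⟩
  have hα0 := alpha_pos h0 h1 ht
  have h1t : 0 ≤ 1 + t := by linarith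
  have hsα : 0 < Real.sin (φ + t * (Real.sin φ * Real.cos φ)) :=
    sin_pos_of_pos_of_lt_pi hα0 h2
  rcases lt_or_ge (φ + t * (Real.sin φ * Real.cos φ)) (π / 2) with h | h
  · have key := ang1_key h0 h1 hα0 h
    have h3 : Real.sin (t * (Real.sin φ * Real.cos φ)) =
        Real.sin (φ + t * (Real.sin φ * Real.cos φ)) * Real.cos φ -
        Real.cos (φ + t * (Real.sin φ * Real.cos φ)) * Real.sin φ := by
      have h4 := Real.sin_sub (φ + t * (Real.sin φ * Real.cos φ)) φ
      rwa [add_sub_cancel_left] at h4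
    have h5 : t * (Real.cos (φ + t * (Real.sin φ * Real.cos φ)) * Real.sin φ) ≤
        Real.sin (t * (Real.sin φ * Real.cos φ)) := by
      refine le_of_mul_le_mul_right ?_ hc
      calc t * (Real.cos (φ + t * (Real.sin φ * Real.cos φ)) * Real.sin φ) * Real.cos φ
          = t * (Real.sin φ * Real.cos φ) * Real.cos (φ + t * (Real.sin φ * Real.cos φ)) := by
            ring
        _ ≤ _ := key
    rw [h3] at h5
    unfold ct
    rw [div_mul_eq_mul_div, div_mul_eq_mul_div, div_le_div_iff₀ hsα hs]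
    have h6 : Real.cos (φ + t * (Real.sin φ * Real.cos φ)) * Real.sin φ * (1 + t) ≤
        Real.sin (φ + t * (Real.sin φ * Real.cos φ)) * Real.cos φ := by linarith
    have h7 := mul_le_mul_of_nonneg_right h6 h1t
    calc Real.cos (φ + t * (Real.sin φ * Real.cos φ)) * (1 + t) ^ 2 * Real.sin φ
        = Real.cos (φ + t * (Real.sin φ * Real.cos φ)) * Real.sin φ * (1 + t) * (1 + t) := by
          ring
      _ ≤ Real.sin (φ + t * (Real.sin φ * Real.cos φ)) * Real.cos φ * (1 + t) := h7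
      _ = Real.cos φ * (1 + t) * Real.sin (φ + t * (Real.sin φ * Real.cos φ)) := by ring
  · have h3 : Real.cos (φ + t * (Real.sin φ * Real.cos φ)) ≤ 0 :=
      Real.cos_nonpos_of_pi_div_two_le_of_le h (by linarith [Real.pi_pos])
    have h4 : ct (φ + t * (Real.sin φ * Real.cos φ)) ≤ 0 := by
      unfold ct
      exact div_nonpos_of_nonpos_of_nonneg h3 hsα.le
    have h5 : 0 ≤ ct φ := by
      unfold ct
      positivity
    have h6 : ct (φ + t * (Real.sin φ * Real.cos φ)) * (1 + t) ^ 2 ≤ 0 :=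
      mul_nonpos_of_nonpos_of_nonneg h4 (sq_nonneg _)
    have h7 : 0 ≤ ct φ * (1 + t) := mul_nonneg h5 h1t
    linarith

end Pool.Agent.Helper38.LC2
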