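import Pool.Agent.Helper38.LC2.Defs

/-!
# LC2-01: the inequality for two sides

Write `z = (z₁, z₂)`, `w = (w₁, w₂)`, `sa = sin a > 0`, `sb = sin b > 0`, `s = sin (a + b) > 0`, `c = cos (a + b)`.
`ct a - ct (a+b) = sb / (sa * s)`, `ct b - ct (a+b) = sa / (sb * s)` (from `sin b = sin ((a+b) - a)`), and
`‖z + w‖² = ‖z‖² + ‖w‖² + 2 (z₁ w₁ + z₂ w₂)`.  So the difference right - left is
`(sb/(sa s)) ‖z‖² + (sa/(sb s)) ‖w‖² - 2 (c/s) (z₁ w₁ + z₂ w₂) - 2 (z₁ w₂ - z₂ w₁)`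
`= ((sb (c z₁ - s z₂) - sa w₁)² + (sb (s z₁ + c z₂) - sa w₂)²) / (sa sb s) ≥ 0`  (`c² + s² = 1`).
`ct_le`: `cos φ ≤ 0` if `φ ≥ π/2`, and `φ < tan φ` (`Real.lt_tan`) otherwise.
`ct_anti`: `cot a - cot b = sin (b - a) / (sin a sin b) ≥ 0`.
-/

namespace Pool.Agent.Helper38.LC2

open Finset Real Pool.Agent.Helper98.LC

theorem ch_two {a b : ℝ} (ha : 0 < a) (hb : 0 < b) (hab : a + b < π) (z w : ℂ) :
    ct (a + b) * ‖z + w‖ ^ 2 + 2 * cr z w ≤ ct a * ‖z‖ ^ 2 + ct b * ‖w‖ ^ 2 := by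
  have hsa : 0 < Real.sin a := sin_pos_of_pos_of_lt_pi ha (by linarith)
  have hsb : 0 < Real.sin b := sin_pos_of_pos_of_lt_pi hb (by linarith)
  have hs : 0 < Real.sin (a + b) := sin_pos_of_pos_of_lt_pi (by linarith) hab
  have h1 : Real.cos a * Real.sin (a + b) - Real.cos (a + b) * Real.sin a = Real.sin b := by
    have h := Real.sin_sub (a + b) a
    rw [add_sub_cancel_left] at h
    rw [h]
    ring
  have h2 : Real.cos b * Real.sin (a + b) - Real.cos (a + b) * Real.sin b = Real.sin a := by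
    have h := Real.sin_sub (a + b) b
    rw [add_sub_cancel_right] at h
    rw [h]
    ring
  have h3 : Real.cos (a + b) ^ 2 + Real.sin (a + b) ^ 2 = 1 := Real.cos_sq_add_sin_sq _
  have hn : ∀ u : ℂ, ‖u‖ ^ 2 = u.re ^ 2 + u.im ^ 2 := by
    intro u
    rw [← Complex.normSq_eq_norm_sq, Complex.normSq_apply]
    ring
  rw [hn, hn, hn]
  unfold ct cr
  rw [Complex.add_re, Complex.add_im]
  set sa := Real.sin a
  set sb := Real.sin b
  set s := Real.sin (a + b)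
  set c := Real.cos (a + b)
  set ca := Real.cos a
  set cb := Real.cos b
  have key : ca / sa * (z.re ^ 2 + z.im ^ 2) + cb / sb * (w.re ^ 2 + w.im ^ 2) -
      (c / s * ((z.re + w.re) ^ 2 + (z.im + w.im) ^ 2) + 2 * (z.re * w.im - z.im * w.re)) =
      ((sb * (c * z.re - s * z.im) - sa * w.re) ^ 2 +
        (sb * (s * z.re + c * z.im) - sa * w.im) ^ 2) / (sa * sb * s) := by
    rw [eq_div_iff (by positivity)]
    field_simp
    linear_combination sb * (z.re ^ 2 + z.im ^ 2) * h1 + sa * (w.re ^ 2 + w.im ^ 2) * h2 -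
      sb ^ 2 * (z.re ^ 2 + z.im ^ 2) * h3
  have hpos : 0 ≤ ((sb * (c * z.re - s * z.im) - sa * w.re) ^ 2 +
        (sb * (s * z.re + c * z.im) - sa * w.im) ^ 2) / (sa * sb * s) := by positivity
  linarith

theorem ct_le {φ : ℝ} (h : 0 < φ) (h' : φ < π) : ct φ ≤ 1 / φ := by
  have hs : 0 < Real.sin φ := sin_pos_of_pos_of_lt_pi h h'
  unfold ct
  rcases lt_or_ge φ (π / 2) with h2 | h2
  · have hc : 0 < Real.cos φ := cos_pos_of_mem_Ioo ⟨by linarith, h2⟩
    have ht := Real.lt_tan h h2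
    rw [Real.tan_eq_sin_div_cos, lt_div_iff₀ hc] at ht
    rw [div_le_div_iff₀ hs h]
    linarith
  · have hc : Real.cos φ ≤ 0 := cos_nonpos_of_pi_div_two_le_of_le h2 (by linarith [pi_pos])
    exact (div_nonpos_of_nonpos_of_nonneg hc hs.le).trans (by positivity)

theorem ct_anti {a b : ℝ} (ha : 0 < a) (hab : a ≤ b) (hb : b < π) : ct b ≤ ct a := by
  have hsa : 0 < Real.sin a := sin_pos_of_pos_of_lt_pi ha (by linarith)
  have hsb : 0 < Real.sin b := sin_pos_of_pos_of_lt_pi (by linarith) hb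
  unfold ct
  rw [div_le_div_iff₀ hsb hsa]
  have h := Real.sin_sub b a
  have h2 : 0 ≤ Real.sin (b - a) := sin_nonneg_of_nonneg_of_le_pi (by linarith) (by linarith)
  linarith

end Pool.Agent.Helper38.LC2
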